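import Pool.Agent.Lib.MP_b07157_agQG.Defs

/-!
# Affine coordinates, I
-/

noncomputable section

namespace MPb07157

open MvPolynomial

namespace QG

theorem A1_totalDegree (u : Fin 3 → MvPolynomial (Fin 3) ℂ) (hu : ∀ i, (u i).totalDegree ≤ 1)
    (g : MvPolynomial (Fin 3) ℂ) : (aeval u g).totalDegree ≤ g.totalDegree := by
  rw [aeval_def, eval₂_eq']
  refine totalDegree_finsetSum_le fun v hv => ?_
  refine (totalDegree_mul _ _).trans ?_
  rw [algebraMap_eq, totalDegree_C, zero_add]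
  refine (totalDegree_finset_prod _ _).trans ?_
  have h1 := le_totalDegree hv
  rw [Finsupp.sum_fintype _ _ (fun _ => rfl)] at h1
  refine le_trans (Finset.sum_le_sum fun i _ => ?_) h1
  refine (totalDegree_pow _ _).trans ?_
  exact (Nat.mul_le_mul_left _ (hu i)).trans (by rw [mul_one])

theorem A1_lin {c : Fin 3 → ℂ} {u : Fin 3 → MvPolynomial (Fin 3) ℂ}
    (hu : ∀ i, (u i).totalDegree ≤ 1) : (∑ i, C (c i) * u i).totalDegree ≤ 1 :=
  totalDegree_finsetSum_le fun i _ =>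
    (totalDegree_mul _ _).trans (by rw [totalDegree_C, zero_add]; exact hu i)

theorem A1_ac_le (M : Matrix (Fin 3) (Fin 3) ℂ) (p₀ : Fin 3 → ℂ) (i : Fin 3) :
    (ac M p₀ i).totalDegree ≤ 1 := by
  unfold ac
  exact A1_lin fun j => (totalDegree_sub _ _).trans (by rw [totalDegree_X, totalDegree_C]; simp)

theorem totalDegree_ac (M : Matrix (Fin 3) (Fin 3) ℂ) (p₀ : Fin 3 → ℂ)
    (g : MvPolynomial (Fin 3) ℂ) : (aeval (ac M p₀) g).totalDegree ≤ g.totalDegree :=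
  A1_totalDegree _ (A1_ac_le M p₀) g

theorem eval_ac (M : Matrix (Fin 3) (Fin 3) ℂ) (p₀ x : Fin 3 → ℂ) (i : Fin 3) :
    eval x (ac M p₀ i) = M.mulVec (x - p₀) i := by
  unfold ac
  rw [map_sum]
  show _ = ∑ j, M i j * (x - p₀) j
  refine Finset.sum_congr rfl fun j _ => ?_
  rw [map_mul, map_sub, eval_C, eval_X, eval_C, Pi.sub_apply]

theorem A1_eval (M : Matrix (Fin 3) (Fin 3) ℂ) (p₀ x : Fin 3 → ℂ) (g : MvPolynomial (Fin 3) ℂ) :
    eval x (aeval (ac M p₀) g) = eval (M.mulVec (x - p₀)) g := by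
  rw [CC.ConeS.eval_aeval]
  congr 1
  congr 1
  funext i
  exact eval_ac M p₀ x i

/-- Every polynomial is a polynomial in the affine coordinates `ac M p₀`, of the same degree: with
`N = M⁻¹`, `g' = aeval (fun j => C (p₀ j) + ∑ i, C (N j i) * X i) g`. -/
theorem exists_ac {M : Matrix (Fin 3) (Fin 3) ℂ} (hM : M.det ≠ 0) (p₀ : Fin 3 → ℂ)
    (g : MvPolynomial (Fin 3) ℂ) :
    ∃ g' : MvPolynomial (Fin 3) ℂ, g = aeval (ac M p₀) g' ∧ g'.totalDegree ≤ g.totalDegree := by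
  have hu : IsUnit M.det := isUnit_iff_ne_zero.2 hM
  refine ⟨aeval (fun j => C (p₀ j) + ∑ i, C (M⁻¹ j i) * X i) g, ?_, ?_⟩
  · refine MvPolynomial.funext fun x => ?_
    rw [A1_eval, CC.ConeS.eval_aeval]
    have h1 : (fun j => eval (M.mulVec (x - p₀))
        (C (p₀ j) + ∑ i, C (M⁻¹ j i) * X i : MvPolynomial (Fin 3) ℂ)) = x := by
      funext j
      rw [map_add, eval_C, map_sum]
      have h2 : ∑ i, eval (M.mulVec (x - p₀)) (C (M⁻¹ j i) * X i : MvPolynomial (Fin 3) ℂ) =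
          (M⁻¹).mulVec (M.mulVec (x - p₀)) j := by
        show _ = ∑ i, M⁻¹ j i * M.mulVec (x - p₀) i
        refine Finset.sum_congr rfl fun i _ => ?_
        rw [map_mul, eval_C, eval_X]
      rw [h2, Matrix.mulVec_mulVec, Matrix.nonsing_inv_mul _ hu, Matrix.one_mulVec, Pi.sub_apply]
      ring
    rw [h1]
  · refine A1_totalDegree _ (fun j => ?_) g
    refine (totalDegree_add _ _).trans (max_le (by rw [totalDegree_C]; exact Nat.zero_le _) ?_)
    exact A1_lin fun i => (totalDegree_X i).le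

theorem A1_pderiv_ac (M : Matrix (Fin 3) (Fin 3) ℂ) (p₀ : Fin 3 → ℂ) (k i : Fin 3) :
    pderiv k (ac M p₀ i) = C (M i k) := by
  classical
  unfold ac
  rw [map_sum, Finset.sum_eq_single k]
  · rw [Derivation.leibniz, map_sub, pderiv_X_self, pderiv_C, pderiv_C]
    simp
  · intro j _ hj
    rw [Derivation.leibniz, map_sub, pderiv_X_of_ne hj, pderiv_C, pderiv_C]
    simp
  · intro h
    exact absurd (Finset.mem_univ k) h

theorem A1_chain (M : Matrix (Fin 3) (Fin 3) ℂ) (p₀ : Fin 3 → ℂ) (g : MvPolynomial (Fin 3) ℂ)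
    (k : Fin 3) :
    pderiv k (aeval (ac M p₀) g) = ∑ i, C (M i k) * aeval (ac M p₀) (pderiv i g) := by
  rw [CC.ConeS.pderiv_aeval]
  refine Finset.sum_congr rfl fun i _ => ?_
  rw [A1_pderiv_ac, mul_comm]

theorem A1_chain_sum (M : Matrix (Fin 3) (Fin 3) ℂ) (p₀ : Fin 3 → ℂ)
    (a : Fin 3 → ℂ) (g : Fin 3 → MvPolynomial (Fin 3) ℂ) (k : Fin 3) :
    pderiv k (∑ i, C (a i) * aeval (ac M p₀) (g i)) =
      ∑ i, C (a i) * pderiv k (aeval (ac M p₀) (g i)) := by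
  rw [map_sum]
  refine Finset.sum_congr rfl fun i _ => ?_
  rw [Derivation.leibniz, pderiv_C, smul_zero, add_zero, smul_eq_mul]

theorem A1_e1 (M : Matrix (Fin 3) (Fin 3) ℂ) (p₀ : Fin 3 → ℂ) (g : MvPolynomial (Fin 3) ℂ)
    (x : Fin 3 → ℂ) (k : Fin 3) : eval x (pderiv k (aeval (ac M p₀) g)) =
      ∑ i, M i k * eval (M.mulVec (x - p₀)) (pderiv i g) := by
  rw [A1_chain, map_sum]
  refine Finset.sum_congr rfl fun i _ => ?_
  rw [map_mul, eval_C, A1_eval]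

theorem A1_e2 (M : Matrix (Fin 3) (Fin 3) ℂ) (p₀ : Fin 3 → ℂ) (g : MvPolynomial (Fin 3) ℂ)
    (x : Fin 3 → ℂ) (j k : Fin 3) : eval x (pderiv j (pderiv k (aeval (ac M p₀) g))) =
      ∑ i, M i k * ∑ l, M l j * eval (M.mulVec (x - p₀)) (pderiv l (pderiv i g)) := by
  rw [A1_chain, A1_chain_sum, map_sum]
  refine Finset.sum_congr rfl fun i _ => ?_
  rw [map_mul, eval_C, A1_e1]

theorem A1_e3 (M : Matrix (Fin 3) (Fin 3) ℂ) (p₀ : Fin 3 → ℂ) (g : MvPolynomial (Fin 3) ℂ)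
    (x : Fin 3 → ℂ) (m j k : Fin 3) :
    eval x (pderiv m (pderiv j (pderiv k (aeval (ac M p₀) g)))) =
      ∑ i, M i k * ∑ l, M l j * ∑ n, M n m *
        eval (M.mulVec (x - p₀)) (pderiv n (pderiv l (pderiv i g))) := by
  have h : pderiv m (pderiv j (pderiv k (aeval (ac M p₀) g))) =
      ∑ i, C (M i k) * pderiv m (pderiv j (aeval (ac M p₀) (pderiv i g))) := by
    rw [A1_chain, A1_chain_sum, map_sum]
    refine Finset.sum_congr rfl fun i _ => ?_
    rw [Derivation.leibniz, pderiv_C, smul_zero, add_zero, smul_eq_mul]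
  rw [h, map_sum]
  refine Finset.sum_congr rfl fun i _ => ?_
  rw [map_mul, eval_C, A1_e2]

theorem A1_zero {M : Matrix (Fin 3) (Fin 3) ℂ} (hM : M.det ≠ 0) {a : Fin 3 → ℂ}
    (h : ∀ k, ∑ i, M i k * a i = 0) : ∀ i, a i = 0 := by
  have h1 : M.transpose.mulVec a = 0 := by
    funext k
    show ∑ i, M.transpose k i * a i = 0
    exact h k
  have h2 : M.transpose.det ≠ 0 := by rwa [Matrix.det_transpose]
  intro i
  rw [Matrix.eq_zero_of_mulVec_eq_zero h2 h1]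
  rfl

/-- The triple points in affine coordinates (chain rule; `M` is invertible). -/
theorem mem_Tr_ac {M : Matrix (Fin 3) (Fin 3) ℂ} (hM : M.det ≠ 0) (p₀ : Fin 3 → ℂ)
    (g : MvPolynomial (Fin 3) ℂ) (x : Fin 3 → ℂ) :
    x ∈ Tr (aeval (ac M p₀) g) ↔ M.mulVec (x - p₀) ∈ Tr g := by
  show (eval x (aeval (ac M p₀) g) = 0 ∧ (∀ i, eval x (pderiv i (aeval (ac M p₀) g)) = 0) ∧
    ∀ i j, eval x (pderiv i (pderiv j (aeval (ac M p₀) g))) = 0) ↔
    (eval (M.mulVec (x - p₀)) g = 0 ∧ (∀ i, eval (M.mulVec (x - p₀)) (pderiv i g) = 0) ∧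
    ∀ i j, eval (M.mulVec (x - p₀)) (pderiv i (pderiv j g)) = 0)
  rw [A1_eval]
  refine and_congr Iff.rfl (and_congr ⟨fun h => ?_, fun h k => ?_⟩ ⟨fun h => ?_, fun h j k => ?_⟩)
  · exact A1_zero hM fun k => by rw [← A1_e1]; exact h k
  · rw [A1_e1]
    exact Finset.sum_eq_zero fun i _ => by rw [h i, mul_zero]
  · intro l i
    have h1 : ∀ j, ∀ i, ∑ l, M l j * eval (M.mulVec (x - p₀)) (pderiv l (pderiv i g)) = 0 :=
      fun j => A1_zero hM fun k => by rw [← A1_e2]; exact h j k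
    exact A1_zero hM (fun j => h1 j i) l
  · rw [A1_e2]
    exact Finset.sum_eq_zero fun i _ => by
      rw [Finset.sum_eq_zero fun l _ => by rw [h l i, mul_zero], mul_zero]

theorem noQ_ac {M : Matrix (Fin 3) (Fin 3) ℂ} (hM : M.det ≠ 0) {p₀ : Fin 3 → ℂ}
    {g : MvPolynomial (Fin 3) ℂ} (h : NoQ (aeval (ac M p₀) g)) : NoQ g := by
  have hu : IsUnit M.det := isUnit_iff_ne_zero.2 hM
  intro y hy
  have hxy : M.mulVec (p₀ + (M⁻¹).mulVec y - p₀) = y := by
    rw [add_sub_cancel_left, Matrix.mulVec_mulVec, Matrix.mul_nonsing_inv _ hu, Matrix.one_mulVec]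
  obtain ⟨i, j, k, hijk⟩ := h (p₀ + (M⁻¹).mulVec y) ((mem_Tr_ac hM _ _ _).2 (by rwa [hxy]))
  by_contra hcon
  push Not at hcon
  apply hijk
  rw [A1_e3, hxy]
  refine Finset.sum_eq_zero fun a _ => ?_
  rw [Finset.sum_eq_zero fun b _ => ?_, mul_zero]
  rw [Finset.sum_eq_zero fun c _ => ?_, mul_zero]
  rw [hcon c b a, mul_zero]

end QG

end MPb07157
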