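import Pool.Agent.Lib.MP_b07157_agQG.A1
import Pool.Agent.Lib.MP_b07157_agCS.N1

/-!
# Affine coordinates, II
-/

noncomputable section

namespace MPb07157

open MvPolynomial

namespace QG

private theorem a2_ev (M : Matrix (Fin 3) (Fin 3) ℂ) (p₀ x : Fin 3 → ℂ)
    (g : MvPolynomial (Fin 3) ℂ) :
    eval x (aeval (ac M p₀) g) = eval (M.mulVec (x - p₀)) g := by
  rw [CC.ConeS.eval_aeval]
  congr 2
  funext i
  exact eval_ac M p₀ x i

private theorem a2_pd (M : Matrix (Fin 3) (Fin 3) ℂ) (p₀ x : Fin 3 → ℂ)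
    (g : MvPolynomial (Fin 3) ℂ) (l : Fin 3) :
    eval x (pderiv l (aeval (ac M p₀) g)) =
      ∑ i, eval (M.mulVec (x - p₀)) (pderiv i g) * M i l := by
  rw [CC.ConeS.pderiv_aeval, map_sum]
  refine Finset.sum_congr rfl fun i _ => ?_
  rw [map_mul, a2_ev]
  congr 1
  unfold ac
  rw [map_sum, map_sum, Finset.sum_eq_single l]
  · rw [pderiv_C_mul, map_sub, pderiv_X_self, pderiv_C, sub_zero, mul_one, eval_C]
  · intro j _ hj
    rw [pderiv_C_mul, map_sub, pderiv_X_of_ne hj, pderiv_C, sub_zero, mul_zero, map_zero]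
  · intro h
    exact absurd (Finset.mem_univ _) h

private theorem a2_inv {M : Matrix (Fin 3) (Fin 3) ℂ} (hM : M.det ≠ 0) (p₀ p : Fin 3 → ℂ) :
    M.mulVec ((p₀ + M⁻¹.mulVec p) - p₀) = p := by
  rw [add_sub_cancel_left, Matrix.mulVec_mulVec, Matrix.mul_nonsing_inv _ (isUnit_iff_ne_zero.2 hM),
    Matrix.one_mulVec]

private theorem a2_inj {M : Matrix (Fin 3) (Fin 3) ℂ} (hM : M.det ≠ 0) {p₀ x y : Fin 3 → ℂ}
    (h : M.mulVec (x - p₀) = M.mulVec (y - p₀)) : x = y := by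
  have h1 := congrArg (M⁻¹.mulVec) h
  rw [Matrix.mulVec_mulVec, Matrix.mulVec_mulVec,
    Matrix.nonsing_inv_mul _ (isUnit_iff_ne_zero.2 hM), Matrix.one_mulVec, Matrix.one_mulVec] at h1
  exact sub_left_injective h1

private theorem a2_et (p x : Fin 3 → ℂ) (f : MvPolynomial (Fin 3) ℂ) :
    eval x (translate p f) = eval (x + p) f := by
  unfold translate
  rw [CC.ConeS.eval_aeval]
  congr 2
  funext i
  rw [map_add, eval_X, eval_C]
  rfl

private theorem a2_tr (M : Matrix (Fin 3) (Fin 3) ℂ) {p₀ x p : Fin 3 → ℂ}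
    (hx : M.mulVec (x - p₀) = p) (g : MvPolynomial (Fin 3) ℂ) (w : Fin 3 → ℂ) :
    eval (M.mulVec w) (translate p g) = eval w (translate x (aeval (ac M p₀) g)) := by
  rw [a2_et, a2_et, a2_ev, add_sub_assoc, Matrix.mulVec_add, hx]

private theorem a2_eq {M : Matrix (Fin 3) (Fin 3) ℂ} (hM : M.det ≠ 0) {p₀ x p : Fin 3 → ℂ}
    (hx : M.mulVec (x - p₀) = p) (g : MvPolynomial (Fin 3) ℂ) :
    CS.LinEq (translate p g) (translate x (aeval (ac M p₀) g)) :=
  CS.LinEq.of_matrix M hM (a2_tr M hx g)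

private theorem a2_lin {M : Matrix (Fin 3) (Fin 3) ℂ} (hM : M.det ≠ 0) {m : ℕ}
    {A : Fin m → Fin 3 → ℂ} (h : LinearIndependent ℂ A) {B : Fin m → Fin 3 → ℂ}
    (hB : ∀ j l, B j l = ∑ i, A j i * M i l) : LinearIndependent ℂ B := by
  rw [Fintype.linearIndependent_iff] at h ⊢
  intro c hc
  refine h c ?_
  have h1 : ∀ l, ∑ i, (∑ j, c j * A j i) * M i l = 0 := by
    intro l
    have h2 := congrFun hc l
    rw [Finset.sum_apply] at h2
    simp only [Pi.smul_apply, smul_eq_mul, Pi.zero_apply, hB] at h2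
    rw [← h2]
    simp only [Finset.sum_mul, Finset.mul_sum]
    rw [Finset.sum_comm]
    refine Finset.sum_congr rfl fun j _ => Finset.sum_congr rfl fun i _ => ?_
    ring
  have h3 : Matrix.vecMul (fun i => ∑ j, c j * A j i) M = 0 := by
    funext l
    exact h1 l
  have h4 := congrArg (fun v => Matrix.vecMul v M⁻¹) h3
  simp only [Matrix.vecMul_vecMul, Matrix.mul_nonsing_inv _ (isUnit_iff_ne_zero.2 hM),
    Matrix.vecMul_one, Matrix.zero_vecMul] at h4
  funext i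
  rw [Finset.sum_apply]
  exact congrFun h4 i

private theorem a2_triv {M : Matrix (Fin 3) (Fin 3) ℂ} (hM : M.det ≠ 0) (p₀ : Fin 3 → ℂ)
    {g : MvPolynomial (Fin 3) ℂ} {W : Set (Fin 3 → ℂ)} {m : ℕ} {h : MvPolynomial (Fin m) ℂ}
    (H : TrivAlong g W h) : TrivAlong (aeval (ac M p₀) g) {x | M.mulVec (x - p₀) ∈ W} h := by
  obtain ⟨u, a, b, q, h1, h2⟩ := H
  refine ⟨fun j => aeval (ac M p₀) (u j), aeval (ac M p₀) a, aeval (ac M p₀) b,
    aeval (ac M p₀) q, fun x hx => ?_, fun p hp => ?_⟩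
  · simp only [a2_ev] at hx ⊢
    exact h1 _ hx
  · obtain ⟨h3, h4, h5, h6, h7⟩ := h2 _ hp
    refine ⟨by rwa [a2_ev], by rwa [a2_ev], by rwa [a2_ev], fun j => by rw [a2_ev]; exact h6 j,
      a2_lin hM h7 fun j l => ?_⟩
    exact a2_pd M p₀ p (u j) l

private theorem a2_sqh {M : Matrix (Fin 3) (Fin 3) ℂ} (hM : M.det ≠ 0) (p₀ : Fin 3 → ℂ)
    {g : MvPolynomial (Fin 3) ℂ} {W : Set (Fin 3 → ℂ)} {m : ℕ} {w : Fin m → ℕ} {N : ℕ}
    (H : SqhAlong g W w N) :
    SqhAlong (aeval (ac M p₀) g) {x | M.mulVec (x - p₀) ∈ W} w N := by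
  obtain ⟨hN, hw, a, u, G, h1, h2, h3⟩ := H
  refine ⟨hN, hw, aeval (ac M p₀) a, fun j => aeval (ac M p₀) (u j),
    map (aeval (ac M p₀) : MvPolynomial (Fin 3) ℂ →ₐ[ℂ] MvPolynomial (Fin 3) ℂ).toRingHom G,
    ?_, fun v hv => h2 v (support_map_subset _ _ hv), fun p hp => ?_⟩
  · rw [← map_mul, h1, eval_map]
    exact eval₂_comp_left
      (aeval (ac M p₀) : MvPolynomial (Fin 3) ℂ →ₐ[ℂ] MvPolynomial (Fin 3) ℂ).toRingHom
      (RingHom.id _) u G
  · obtain ⟨h4, h5, h6, h7⟩ := h3 _ hp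
    refine ⟨by rwa [a2_ev], fun j => by rw [a2_ev]; exact h5 j, a2_lin hM h6 fun j l => ?_,
      fun y hy => ?_⟩
    · exact a2_pd M p₀ p (u j) l
    · obtain ⟨j, hj⟩ := h7 y hy
      refine ⟨j, ?_⟩
      rw [map_map]
      have h8 : (eval p).comp
          (aeval (ac M p₀) : MvPolynomial (Fin 3) ℂ →ₐ[ℂ] MvPolynomial (Fin 3) ℂ).toRingHom =
          eval (M.mulVec (p - p₀)) := RingHom.ext fun f => a2_ev M p₀ p f
      rw [h8]
      exact hj

/-- `Loc` in affine coordinates: `translate x (aeval (ac M p₀) g) = aeval (ac M 0) (translate y g)`,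
`y = M (x - p₀)`, and `SmcLoc` is invariant under linear changes (`CS.LinEq.smcLoc`). -/
theorem loc_ac {M : Matrix (Fin 3) (Fin 3) ℂ} (hM : M.det ≠ 0) {p₀ : Fin 3 → ℂ}
    {g : MvPolynomial (Fin 3) ℂ} (h : Loc (aeval (ac M p₀) g)) : Loc g := by
  intro p hp
  have hx := a2_inv hM p₀ p
  have h1 := h _ ((mem_Tr_ac hM p₀ g _).2 (by rw [hx]; exact hp))
  exact (a2_eq hM hx g).smcLoc h1

/-- **Coverings in affine coordinates.** Each set `W` is replaced by its preimage: `IsConstr` is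
preserved (substitute in the polynomials), `SqhAlong` and `TrivAlong` by substituting `ac M p₀` in all
polynomials (the differentials are multiplied by the invertible matrix `M`; in `SqhAlong` the
polynomial `g` is replaced by `map (aeval (ac M p₀)) g`, and the leading form at `x` is the old one at
`M (x - p₀)`), the point alternative by `CS.LinEq.smcLoc`. -/
theorem Cov.ac {M : Matrix (Fin 3) (Fin 3) ℂ} (hM : M.det ≠ 0) (p₀ : Fin 3 → ℂ)
    {g : MvPolynomial (Fin 3) ℂ} {S : Set (Fin 3 → ℂ)} (h : Cov g S) :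
    Cov (aeval (QG.ac M p₀) g) {x | M.mulVec (x - p₀) ∈ S} := by
  obtain ⟨T, hT, hW, hcov⟩ := h
  refine ⟨(fun W => {x | M.mulVec (x - p₀) ∈ W}) '' T, hT.image _, ?_, fun p hp => ?_⟩
  · rintro _ ⟨W, hWT, rfl⟩
    obtain ⟨hc, hg⟩ := hW W hWT
    refine ⟨?_, ?_⟩
    · have h1 := hc.preimage (QG.ac M p₀)
      have h2 : polyMap (QG.ac M p₀) ⁻¹' W = {x | M.mulVec (x - p₀) ∈ W} := by
        ext x
        have h3 : polyMap (QG.ac M p₀) x = M.mulVec (x - p₀) := by
          funext i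
          exact eval_ac M p₀ x i
        rw [Set.mem_preimage, h3]
        rfl
      rw [h2] at h1
      exact h1
    · rcases hg with (⟨m, w, N, hq⟩ | ⟨x, rfl, hr⟩) | ⟨m, h, h1, h2⟩
      · exact Or.inl (Or.inl ⟨m, w, N, a2_sqh hM p₀ hq⟩)
      · have hx := a2_inv hM p₀ x
        refine Or.inl (Or.inr ⟨p₀ + M⁻¹.mulVec x, ?_, fun hn h0 => ?_⟩)
        · ext y
          rw [Set.mem_singleton_iff]
          show M.mulVec (y - p₀) ∈ ({x} : Set (Fin 3 → ℂ)) ↔ _
          rw [Set.mem_singleton_iff]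
          constructor
          · intro hy
            exact a2_inj hM (hy.trans hx.symm)
          · rintro rfl
            exact hx
        · refine (a2_eq hM hx g).symm.smcLoc (hr (fun h3 => hn ?_) ?_)
          · refine MvPolynomial.funext fun w => ?_
            rw [← a2_tr M hx g w, h3, map_zero, map_zero]
          · rw [← constantCoeff_eq, ← eval_zero] at h0 ⊢
            have h4 := a2_tr M hx g 0
            rw [Matrix.mulVec_zero] at h4
            rw [h4]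
            exact h0
      · exact Or.inr ⟨m, h, h1, a2_triv hM p₀ h2⟩
  · obtain ⟨W, hWT, hpW⟩ := hcov _ hp
    exact ⟨_, ⟨W, hWT, rfl⟩, hpW⟩

end QG

end MPb07157
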