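import Pool.Agent.Lib.MP_b07157_agQG.A1

/-!
# Affine coordinates, III
-/

noncomputable section

namespace MPb07157

open MvPolynomial

namespace QG

theorem A3_matrix {e : (Fin 3 → ℂ) ≃ₗ[ℂ] (Fin 3 → ℂ)} :
    ∃ M : Matrix (Fin 3) (Fin 3) ℂ, M.det ≠ 0 ∧ ∀ w, M.mulVec w = e w := by
  set M : Matrix (Fin 3) (Fin 3) ℂ := LinearMap.toMatrix' (e : (Fin 3 → ℂ) →ₗ[ℂ] (Fin 3 → ℂ))
    with hM
  have hMe : ∀ w, M.mulVec w = e w := by
    intro w
    rw [← Matrix.toLin'_apply, hM, Matrix.toLin'_toMatrix']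
    rfl
  refine ⟨M, fun h0 => ?_, hMe⟩
  obtain ⟨v, hv, hv0⟩ := Matrix.exists_mulVec_eq_zero_iff.2 h0
  rw [hMe] at hv0
  exact hv ((LinearEquiv.map_eq_zero_iff e).1 hv0)

/-- Coordinates with `p₀ ↦ 0`, `p₀ + v ↦ e_2`. -/
theorem exists_matrix_one {v : Fin 3 → ℂ} (hv : v ≠ 0) :
    ∃ M : Matrix (Fin 3) (Fin 3) ℂ, M.det ≠ 0 ∧ M.mulVec v = ![0, 0, 1] := by
  have h1 : (![0, 0, 1] : Fin 3 → ℂ) ≠ 0 := by
    intro h
    have := congrFun h 2
    simp at this
  obtain ⟨A, hA⟩ := SeparatingDual.exists_continuousLinearEquiv_apply_eq (R := ℂ) hv h1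
  obtain ⟨M, hM, hMe⟩ := A3_matrix (e := A.toLinearEquiv)
  exact ⟨M, hM, by rw [hMe]; exact hA⟩

/-- Coordinates with `v ↦ e_2`, `v' ↦ e_1`. -/
theorem exists_matrix_two {v v' : Fin 3 → ℂ} (h : LinearIndependent ℂ ![v, v']) :
    ∃ M : Matrix (Fin 3) (Fin 3) ℂ, M.det ≠ 0 ∧ M.mulVec v = ![0, 0, 1] ∧
      M.mulVec v' = ![0, 1, 0] := by
  obtain ⟨x, hx⟩ : ∃ x : Fin 3 → ℂ, x ∉ Submodule.span ℂ (Set.range ![v, v']) := by
    by_contra hcon
    push Not at hcon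
    have h1 : Submodule.span ℂ (Set.range ![v, v']) = ⊤ := by
      rw [eq_top_iff]
      intro x _
      exact hcon x
    have h2 := finrank_span_eq_card h
    rw [h1, finrank_top, Module.finrank_fin_fun] at h2
    simp at h2
  have hli : LinearIndependent ℂ ![x, v', v] := by
    have h3 : LinearIndependent ℂ (Fin.cons x ![v, v'] : Fin 3 → Fin 3 → ℂ) :=
      linearIndependent_finCons.2 ⟨h, hx⟩
    rw [Fintype.linearIndependent_iff] at h3 ⊢
    intro g hg
    have h4 := h3 ![g 0, g 2, g 1] (by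
      rw [Fin.sum_univ_three] at hg ⊢
      have hg' : g 0 • x + g 1 • v' + g 2 • v = 0 := hg
      show g 0 • x + g 2 • v + g 1 • v' = 0
      rw [← hg']
      abel)
    intro i
    fin_cases i
    · exact h4 0
    · exact h4 2
    · exact h4 1
  let b := basisOfLinearIndependentOfCardEqFinrank hli (by
    rw [Module.finrank_fin_fun]
    rfl)
  have hb : ⇑b = ![x, v', v] := coe_basisOfLinearIndependentOfCardEqFinrank _ _
  have hb1 : b 1 = v' := by rw [hb]; rfl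
  have hb2 : b 2 = v := by rw [hb]; rfl
  obtain ⟨M, hM, hMe⟩ := A3_matrix (e := b.equivFun)
  refine ⟨M, hM, ?_, ?_⟩
  · rw [hMe, ← hb2]
    funext i
    rw [Module.Basis.equivFun_self]
    fin_cases i <;> simp
  · rw [hMe, ← hb1]
    funext i
    rw [Module.Basis.equivFun_self]
    fin_cases i <;> simp

end QG

end MPb07157
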