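import Pool.Agent.Lib.MP_b07157_agSG.ConeV

/-!
# The triple points of a quartic surface: definitions
-/

noncomputable section

namespace MPb07157

open MvPolynomial

namespace QG

/-- The points of multiplicity at least three. -/
def Tr (g : MvPolynomial (Fin 3) ℂ) : Set (Fin 3 → ℂ) :=
  {p | eval p g = 0 ∧ (∀ i, eval p (pderiv i g) = 0) ∧
    ∀ i j, eval p (pderiv i (pderiv j g)) = 0}

/-- No point of multiplicity at least four. -/
def NoQ (g : MvPolynomial (Fin 3) ℂ) : Prop :=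
  ∀ p ∈ Tr g, ∃ i j k, eval p (pderiv i (pderiv j (pderiv k g))) ≠ 0

/-- The local version of the conjecture is known at the triple points. -/
def Loc (g : MvPolynomial (Fin 3) ℂ) : Prop := ∀ p ∈ Tr g, SmcLoc (translate p g)

/-- The set `S` is covered by finitely many constructible sets along which the conjecture is known. -/
def Cov (g : MvPolynomial (Fin 3) ℂ) (S : Set (Fin 3 → ℂ)) : Prop :=
  ∃ T : Set (Set (Fin 3 → ℂ)), T.Finite ∧ (∀ W ∈ T, IsConstr W ∧ CC.GoodT g W) ∧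
    ∀ p ∈ S, ∃ W ∈ T, p ∈ W

/-- Affine coordinates. -/
def ac (M : Matrix (Fin 3) (Fin 3) ℂ) (p₀ : Fin 3 → ℂ) (i : Fin 3) : MvPolynomial (Fin 3) ℂ :=
  ∑ j, C (M i j) * (X j - C (p₀ j))

/-- Binary forms in the first two variables. -/
def b2 (c : Fin 3 → ℂ) : MvPolynomial (Fin 3) ℂ :=
  C (c 0) * X 0 ^ 2 + C (c 1) * (X 0 * X 1) + C (c 2) * X 1 ^ 2

/-- Binary forms in the first two variables. -/
def b3 (c : Fin 4 → ℂ) : MvPolynomial (Fin 3) ℂ :=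
  C (c 0) * X 0 ^ 3 + C (c 1) * (X 0 ^ 2 * X 1) + C (c 2) * (X 0 * X 1 ^ 2) + C (c 3) * X 1 ^ 3

/-- Binary forms in the first two variables. -/
def b4 (c : Fin 5 → ℂ) : MvPolynomial (Fin 3) ℂ :=
  C (c 0) * X 0 ^ 4 + C (c 1) * (X 0 ^ 3 * X 1) + C (c 2) * (X 0 ^ 2 * X 1 ^ 2) +
    C (c 3) * (X 0 * X 1 ^ 3) + C (c 4) * X 1 ^ 4

/-- A polynomial of degree at most four with multiplicity three along the last axis. -/
def lf (c d : Fin 4 → ℂ) (q : Fin 5 → ℂ) : MvPolynomial (Fin 3) ℂ := b3 c + X 2 * b3 d + b4 q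

theorem Cov.mono {g : MvPolynomial (Fin 3) ℂ} {S S' : Set (Fin 3 → ℂ)} (h : Cov g S)
    (hS : S' ⊆ S) : Cov g S' := by
  obtain ⟨T, h1, h2, h3⟩ := h
  exact ⟨T, h1, h2, fun p hp => h3 p (hS hp)⟩

theorem Cov.union {g : MvPolynomial (Fin 3) ℂ} {S S' : Set (Fin 3 → ℂ)} (h : Cov g S)
    (h' : Cov g S') : Cov g (S ∪ S') := by
  obtain ⟨T, h1, h2, h3⟩ := h
  obtain ⟨T', h1', h2', h3'⟩ := h'
  refine ⟨T ∪ T', h1.union h1', ?_, ?_⟩
  · rintro W (hW | hW)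
    · exact h2 W hW
    · exact h2' W hW
  · rintro p (hp | hp)
    · obtain ⟨W, hW, hpW⟩ := h3 p hp
      exact ⟨W, Or.inl hW, hpW⟩
    · obtain ⟨W, hW, hpW⟩ := h3' p hp
      exact ⟨W, Or.inr hW, hpW⟩

theorem Cov.finite {g : MvPolynomial (Fin 3) ℂ} (hl : Loc g) {S : Set (Fin 3 → ℂ)}
    (hS : S.Finite) (hS' : S ⊆ Tr g) : Cov g S := by
  refine ⟨(fun p => {p}) '' S, hS.image _, ?_, fun p hp => ⟨{p}, ⟨p, hp, rfl⟩, rfl⟩⟩
  rintro _ ⟨p, hp, rfl⟩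
  exact ⟨isConstr_point p, Or.inl (Or.inr ⟨p, rfl, fun _ _ => hl p (hS' hp)⟩)⟩

theorem Cov.one {g : MvPolynomial (Fin 3) ℂ} {W : Set (Fin 3 → ℂ)} (h : IsConstr W)
    (h' : CC.GoodT g W) : Cov g W :=
  ⟨{W}, Set.finite_singleton W, fun V hV => by rw [Set.mem_singleton_iff.1 hV]; exact ⟨h, h'⟩,
    fun _ hp => ⟨W, rfl, hp⟩⟩

end QG

end MPb07157
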