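import Pool.Agent.Lib.MP_b07157_agQG.Defs

/-!
# The triple points of a quartic surface: further definitions
-/

noncomputable section

namespace MPb07157

open MvPolynomial

namespace QG

/-- A polynomial of degree at most four with multiplicity three at `(0,0,0)` and `(0,0,1)`. -/
def tf (s : Fin 3 → ℂ) (c d : Fin 4 → ℂ) (q : Fin 5 → ℂ) : MvPolynomial (Fin 3) ℂ :=
  X 2 * (X 2 - 1) * b2 s + lf c d q

theorem tf_zero (c d : Fin 4 → ℂ) (q : Fin 5 → ℂ) : tf 0 c d q = lf c d q := by
  unfold tf b2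
  simp

/-- The singular points of `h` restricted to the plane `x_0 = 0`. -/
def Rs (h : MvPolynomial (Fin 3) ℂ) : Set (Fin 3 → ℂ) :=
  {p | p 0 = 0 ∧ eval p h = 0 ∧ eval p (pderiv 1 h) = 0 ∧ eval p (pderiv 2 h) = 0}

end QG

end MPb07157
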