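import Pool.Agent.Lib.MP_b07157_agQG.Defs2

/-!
# Two and three triple points on a line
-/

noncomputable section

namespace MPb07157

open MvPolynomial

namespace QG

private def E1mk (i j k : ℕ) : Fin 3 →₀ ℕ :=
  Finsupp.single 0 i + Finsupp.single 1 j + Finsupp.single 2 k

private theorem E1mk_eq (m : Fin 3 →₀ ℕ) : E1mk (m 0) (m 1) (m 2) = m := by
  ext i
  fin_cases i <;> simp [E1mk]

private theorem E1mk_iff {i j k : ℕ} {m : Fin 3 →₀ ℕ} :
    E1mk i j k = m ↔ i = m 0 ∧ j = m 1 ∧ k = m 2 := by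
  constructor
  · rintro rfl
    simp [E1mk]
  · rintro ⟨rfl, rfl, rfl⟩
    exact E1mk_eq m

private theorem E1_key (g : MvPolynomial (Fin 3) ℂ) (m : Fin 3 →₀ ℕ) (i j k : ℕ) :
    coeff m (C (coeff (E1mk i j k) g) * (X 0 ^ i * X 1 ^ j * X 2 ^ k)) =
      if i = m 0 ∧ j = m 1 ∧ k = m 2 then coeff m g else 0 := by
  rw [coeff_C_mul, X_pow_eq_monomial, X_pow_eq_monomial, X_pow_eq_monomial, monomial_mul,
    monomial_mul, coeff_monomial]
  change (coeff (E1mk i j k) g) * (if E1mk i j k = m then _ else _) = _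
  by_cases h : E1mk i j k = m
  · rw [if_pos h, if_pos (E1mk_iff.1 h), h, one_mul, one_mul, mul_one]
  · rw [if_neg h, if_neg (fun h' => h (E1mk_iff.2 h')), mul_zero]

private theorem E1_expand {g : MvPolynomial (Fin 3) ℂ} (hd : g.totalDegree ≤ 4) :
    g = ∑ i ∈ Finset.range 5, ∑ j ∈ Finset.range (5 - i), ∑ k ∈ Finset.range (5 - i - j),
      C (coeff (E1mk i j k) g) * (X 0 ^ i * X 1 ^ j * X 2 ^ k) := by
  ext m
  simp only [coeff_sum, E1_key]
  by_cases hm : m 0 + m 1 + m 2 ≤ 4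
  · rw [Finset.sum_eq_single (m 0), Finset.sum_eq_single (m 1), Finset.sum_eq_single (m 2)]
    · rw [if_pos ⟨rfl, rfl, rfl⟩]
    · intro k _ hk
      rw [if_neg (fun h => hk h.2.2)]
    · intro hk
      exact absurd (Finset.mem_range.2 (by omega)) hk
    · intro j _ hj
      exact Finset.sum_eq_zero fun k _ => if_neg (fun h => hj h.2.1)
    · intro hk
      exact absurd (Finset.mem_range.2 (by omega)) hk
    · intro i _ hi
      exact Finset.sum_eq_zero fun j _ => Finset.sum_eq_zero fun k _ => if_neg (fun h => hi h.1)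
    · intro hk
      exact absurd (Finset.mem_range.2 (by omega)) hk
  · have h0 : coeff m g = 0 := by
      refine coeff_eq_zero_of_totalDegree_lt ?_
      have h1 : ∑ i ∈ m.support, m i = m 0 + m 1 + m 2 := by
        rw [Finset.sum_subset (Finset.subset_univ m.support) (fun i _ hi => by
          simpa using hi), Fin.sum_univ_three]
      omega
    rw [h0]
    simp

/-- the general quartic polynomial -/
private def E1gen (a : Fin 5 → ℂ) (b c : Fin 4 → ℂ) (d e f : Fin 3 → ℂ) (c' d' : Fin 4 → ℂ)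
    (q : Fin 5 → ℂ) : MvPolynomial (Fin 3) ℂ :=
  (C (a 0) + C (a 1) * X 2 + C (a 2) * X 2 ^ 2 + C (a 3) * X 2 ^ 3 + C (a 4) * X 2 ^ 4) +
  X 0 * (C (b 0) + C (b 1) * X 2 + C (b 2) * X 2 ^ 2 + C (b 3) * X 2 ^ 3) +
  X 1 * (C (c 0) + C (c 1) * X 2 + C (c 2) * X 2 ^ 2 + C (c 3) * X 2 ^ 3) +
  X 0 ^ 2 * (C (d 0) + C (d 1) * X 2 + C (d 2) * X 2 ^ 2) +
  X 0 * X 1 * (C (e 0) + C (e 1) * X 2 + C (e 2) * X 2 ^ 2) +
  X 1 ^ 2 * (C (f 0) + C (f 1) * X 2 + C (f 2) * X 2 ^ 2) + lf c' d' q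

private theorem E1_exists_gen {g : MvPolynomial (Fin 3) ℂ} (hd : g.totalDegree ≤ 4) :
    ∃ a b c d e f c' d' q, g = E1gen a b c d e f c' d' q := by
  refine ⟨fun k => coeff (E1mk 0 0 k) g, fun k => coeff (E1mk 1 0 k) g,
    fun k => coeff (E1mk 0 1 k) g, fun k => coeff (E1mk 2 0 k) g, fun k => coeff (E1mk 1 1 k) g,
    fun k => coeff (E1mk 0 2 k) g,
    ![coeff (E1mk 3 0 0) g, coeff (E1mk 2 1 0) g, coeff (E1mk 1 2 0) g, coeff (E1mk 0 3 0) g],
    ![coeff (E1mk 3 0 1) g, coeff (E1mk 2 1 1) g, coeff (E1mk 1 2 1) g, coeff (E1mk 0 3 1) g],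
    ![coeff (E1mk 4 0 0) g, coeff (E1mk 3 1 0) g, coeff (E1mk 2 2 0) g, coeff (E1mk 1 3 0) g,
      coeff (E1mk 0 4 0) g], ?_⟩
  have h := E1_expand hd
  obtain ⟨F, hF⟩ : ∃ F : ℕ → ℕ → ℕ → ℂ, ∀ i j k, coeff (E1mk i j k) g = F i j k :=
    ⟨fun i j k => coeff (E1mk i j k) g, fun _ _ _ => rfl⟩
  simp only [hF] at h ⊢
  rw [h]
  simp only [Finset.sum_range_succ, Nat.reduceSub, Finset.range_zero,
    Finset.sum_empty, zero_add]
  unfold E1gen lf b3 b4
  simp only [Matrix.cons_val_zero, Matrix.cons_val_one, Matrix.cons_val,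
    Fin.isValue, Fin.coe_ofNat_eq_mod]
  ring_nf

private theorem E1_two (i : Fin 3) : pderiv i (2 : MvPolynomial (Fin 3) ℂ) = 0 := by
  rw [show (2 : MvPolynomial (Fin 3) ℂ) = C 2 from (map_ofNat C 2).symm, pderiv_C]

private theorem E1_three (i : Fin 3) : pderiv i (3 : MvPolynomial (Fin 3) ℂ) = 0 := by
  rw [show (3 : MvPolynomial (Fin 3) ℂ) = C 3 from (map_ofNat C 3).symm, pderiv_C]

private theorem E1_four (i : Fin 3) : pderiv i (4 : MvPolynomial (Fin 3) ℂ) = 0 := by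
  rw [show (4 : MvPolynomial (Fin 3) ℂ) = C 4 from (map_ofNat C 4).symm, pderiv_C]

private theorem E1_tr {a : Fin 5 → ℂ} {b c : Fin 4 → ℂ} {d e f : Fin 3 → ℂ} {c' d' : Fin 4 → ℂ}
    {q : Fin 5 → ℂ} {z : ℂ} (h : (![0, 0, z] : Fin 3 → ℂ) ∈ Tr (E1gen a b c d e f c' d' q)) :
    (a 0 + a 1 * z + a 2 * z ^ 2 + a 3 * z ^ 3 + a 4 * z ^ 4 = 0 ∧
      a 1 + a 2 * (2 * z) + a 3 * (3 * z ^ 2) + a 4 * (4 * z ^ 3) = 0 ∧
      a 2 * 2 + a 3 * (3 * (2 * z)) + a 4 * (4 * (3 * z ^ 2)) = 0) ∧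
    (b 0 + b 1 * z + b 2 * z ^ 2 + b 3 * z ^ 3 = 0 ∧
      b 1 + b 2 * (2 * z) + b 3 * (3 * z ^ 2) = 0) ∧
    (c 0 + c 1 * z + c 2 * z ^ 2 + c 3 * z ^ 3 = 0 ∧
      c 1 + c 2 * (2 * z) + c 3 * (3 * z ^ 2) = 0) ∧
    d 0 + d 1 * z + d 2 * z ^ 2 = 0 ∧ e 0 + e 1 * z + e 2 * z ^ 2 = 0 ∧
      f 0 + f 1 * z + f 2 * z ^ 2 = 0 := by
  obtain ⟨h0, h1, h2⟩ := h
  refine ⟨⟨?_, ?_, ?_⟩, ⟨?_, ?_⟩, ⟨?_, ?_⟩, ?_, ?_, ?_⟩
  · simp [E1gen, lf, b3, b4] at h0
    linear_combination h0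
  · have h := h1 2
    simp [E1gen, lf, b3, b4, pderiv_X, E1_two, E1_three, E1_four] at h
    linear_combination h
  · have h := h2 2 2
    simp [E1gen, lf, b3, b4, pderiv_X, E1_two, E1_three, E1_four] at h
    linear_combination h
  · have h := h1 0
    simp [E1gen, lf, b3, b4, pderiv_X, E1_two, E1_three, E1_four] at h
    linear_combination h
  · have h := h2 0 2
    simp [E1gen, lf, b3, b4, pderiv_X, E1_two, E1_three, E1_four] at h
    linear_combination h
  · have h := h1 1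
    simp [E1gen, lf, b3, b4, pderiv_X, E1_two, E1_three, E1_four] at h
    linear_combination h
  · have h := h2 1 2
    simp [E1gen, lf, b3, b4, pderiv_X, E1_two, E1_three, E1_four] at h
    linear_combination h
  · have h := h2 0 0
    simp [E1gen, lf, b3, b4, pderiv_X, E1_two, E1_three, E1_four] at h
    linear_combination h
  · have h := h2 0 1
    simp [E1gen, lf, b3, b4, pderiv_X, E1_two, E1_three, E1_four] at h
    linear_combination h
  · have h := h2 1 1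
    simp [E1gen, lf, b3, b4, pderiv_X, E1_two, E1_three, E1_four] at h
    linear_combination h

/-- **Two triple points.** Let `g` have degree at most four and multiplicity at least three at
`(0,0,0)` and `(0,0,1)`. The part of degree `m` in `(x_0, x_1)` has degree at most `4 - m` in `x_2` and
is divisible by `(x_2 (x_2 - 1))^(3-m)`, so it is zero for `m ≤ 1`, and for `m = 2` it is
`x_2 (x_2 - 1)` times a constant binary form. (Coefficients: `coeff v g` for the 35 exponents; the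
derivatives at the two points give linear equations for them. Or: write `g` as a polynomial in
`x_2` over the others.) -/
theorem exists_two {g : MvPolynomial (Fin 3) ℂ} (hd : g.totalDegree ≤ 4)
    (h0 : (0 : Fin 3 → ℂ) ∈ Tr g) (h1 : (![0, 0, 1] : Fin 3 → ℂ) ∈ Tr g) :
    ∃ s c d q, g = tf s c d q := by
  obtain ⟨a, b, c, d, e, f, c', d', q, rfl⟩ := E1_exists_gen hd
  have e0 : (0 : Fin 3 → ℂ) = ![0, 0, 0] := by
    ext i
    fin_cases i <;> rfl
  rw [e0] at h0
  obtain ⟨⟨a1, a2, a3⟩, ⟨b1, b2'⟩, ⟨c1, c2⟩, d1, e1, f1⟩ := E1_tr h0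
  obtain ⟨⟨a1', a2', a3'⟩, ⟨b1', b2''⟩, ⟨c1', c2'⟩, d1', e1', f1'⟩ := E1_tr h1
  have A0 : a 0 = 0 := by linear_combination a1
  have A1 : a 1 = 0 := by linear_combination a2
  have A2 : a 2 = 0 := by linear_combination (1 / 2) * a3
  have A4 : a 4 = 0 := by linear_combination a2' - 3 * a1' + 3 * A0 + 2 * A1 + A2
  have A3 : a 3 = 0 := by linear_combination a1' - A0 - A1 - A2 - A4
  have B0 : b 0 = 0 := by linear_combination b1
  have B1 : b 1 = 0 := by linear_combination b2'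
  have B3 : b 3 = 0 := by linear_combination b2'' - 2 * b1' + 2 * B0 + B1
  have B2 : b 2 = 0 := by linear_combination b1' - B0 - B1 - B3
  have C0 : c 0 = 0 := by linear_combination c1
  have C1 : c 1 = 0 := by linear_combination c2
  have C3 : c 3 = 0 := by linear_combination c2' - 2 * c1' + 2 * C0 + C1
  have C2 : c 2 = 0 := by linear_combination c1' - C0 - C1 - C3
  have D0 : d 0 = 0 := by linear_combination d1
  have D1 : d 1 = -d 2 := by linear_combination d1' - D0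
  have E0 : e 0 = 0 := by linear_combination e1
  have E1 : e 1 = -e 2 := by linear_combination e1' - E0
  have F0 : f 0 = 0 := by linear_combination f1
  have F1 : f 1 = -f 2 := by linear_combination f1' - F0
  refine ⟨![d 2, e 2, f 2], c', d', q, ?_⟩
  unfold E1gen tf b2
  rw [A0, A1, A2, A3, A4, B0, B1, B2, B3, C0, C1, C2, C3, D0, D1, E0, E1, F0, F1]
  simp only [Matrix.cons_val_zero, Matrix.cons_val_one, Matrix.cons_val, C_0, C_neg]
  ring

/-- A third triple point on the line. -/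
theorem eq_zero_of_third {s : Fin 3 → ℂ} {c d : Fin 4 → ℂ} {q : Fin 5 → ℂ} {t : ℂ} (h0 : t ≠ 0)
    (h1 : t ≠ 1) (h : ![0, 0, t] ∈ Tr (tf s c d q)) : s = 0 := by
  have e0 : tf s c d q = E1gen 0 0 0 ![0, -s 0, s 0] ![0, -s 1, s 1] ![0, -s 2, s 2] c d q := by
    unfold E1gen tf b2
    simp only [Matrix.cons_val_zero, Matrix.cons_val_one, Matrix.cons_val, C_0, C_neg,
      Pi.zero_apply]
    ring
  rw [e0] at h
  obtain ⟨-, -, -, hs0, hs1, hs2⟩ := E1_tr h
  simp only [Matrix.cons_val_zero, Matrix.cons_val_one, Matrix.cons_val] at hs0 hs1 hs2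
  have ht : t * (t - 1) ≠ 0 := mul_ne_zero h0 (sub_ne_zero.2 h1)
  ext i
  fin_cases i
  · exact (mul_eq_zero.1 (show s 0 * (t * (t - 1)) = 0 by linear_combination hs0)).resolve_right ht
  · exact (mul_eq_zero.1 (show s 1 * (t * (t - 1)) = 0 by linear_combination hs1)).resolve_right ht
  · exact (mul_eq_zero.1 (show s 2 * (t * (t - 1)) = 0 by linear_combination hs2)).resolve_right ht

end QG

end MPb07157
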