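import Pool.Agent.Lib.MP_b07157_agQG.Defs2

/-!
# Triple points off the line of two triple points
-/

noncomputable section

namespace MPb07157

open MvPolynomial

namespace QG

private theorem E2_C {n : ℕ} (a : ℂ) {p : MvPolynomial (Fin 3) ℂ} (h : p.totalDegree ≤ n) :
    (C a * p).totalDegree ≤ n := by
  refine (totalDegree_mul _ _).trans ?_
  rw [totalDegree_C, zero_add]
  exact h

private theorem E2_add {n : ℕ} {p q : MvPolynomial (Fin 3) ℂ} (hp : p.totalDegree ≤ n)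
    (hq : q.totalDegree ≤ n) : (p + q).totalDegree ≤ n :=
  (totalDegree_add _ _).trans (max_le hp hq)

private theorem E2_mul {p q : MvPolynomial (Fin 3) ℂ} (hp : p.totalDegree ≤ 1)
    (hq : q.totalDegree ≤ 1) : (p * q).totalDegree ≤ 2 :=
  (totalDegree_mul _ _).trans (by omega)

private theorem E2_X (i : Fin 3) : (X i : MvPolynomial (Fin 3) ℂ).totalDegree ≤ 1 :=
  (totalDegree_X i).le

/-- **The case of the triple point `(0, 1, 0)` off a triple line**: on the plane `x_0 = 0`,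
`g = x_1³ (c_3 + x_2 d_3 + q_4 x_1)`; the value and the derivatives at `(0,1,0)` give `d_3 = 0`,
`c_3 + q_4 = 0`, `3 c_3 + 4 q_4 = 0`, so `g = x_0 g'`; the derivatives `∂_0 ∂_j g` and `∂_0 g` give in
the same way `g' = x_0 h'`. -/
theorem exists_sq_of_point {c d : Fin 4 → ℂ} {q : Fin 5 → ℂ}
    (h : ![0, 1, 0] ∈ Tr (lf c d q)) :
    ∃ h' : MvPolynomial (Fin 3) ℂ, lf c d q = X 0 ^ 2 * h' ∧ h'.totalDegree ≤ 2 := by
  obtain ⟨h0, h1, h2⟩ := h
  have a0 := h1 0
  have a1 := h1 1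
  have a2 := h1 2
  have a00 := h2 0 0
  have a01 := h2 1 0
  have a02 := h2 2 0
  simp [lf, b3, b4, pderiv_X] at h0 a0 a1 a2 a00 a01 a02
  have e1 : q 4 = 0 := by linear_combination a1 - 3 * h0
  have e2 : c 3 = 0 := by linear_combination h0 - e1
  have e3 : q 3 = 0 := by linear_combination a01 - 2 * a0
  have e4 : c 2 = 0 := by linear_combination a0 - e3
  refine ⟨C (c 0) * X 0 + C (c 1) * X 1 + (C (d 0) * (X 2 * X 0) + C (d 1) * (X 2 * X 1)) +
    (C (q 0) * (X 0 * X 0) + C (q 1) * (X 0 * X 1) + C (q 2) * (X 1 * X 1)), ?_, ?_⟩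
  · unfold lf b3 b4
    rw [e1, e2, e3, e4, a2, a02, C_0]
    ring
  · have l1 : ∀ i, (X i : MvPolynomial (Fin 3) ℂ).totalDegree ≤ 2 := fun i =>
      (E2_X i).trans (by norm_num)
    have l2 : ∀ i j, (X i * X j : MvPolynomial (Fin 3) ℂ).totalDegree ≤ 2 := fun i j =>
      E2_mul (E2_X i) (E2_X j)
    exact E2_add (E2_add (E2_add (E2_C _ (l1 _)) (E2_C _ (l1 _)))
      (E2_add (E2_C _ (l2 _ _)) (E2_C _ (l2 _ _))))
      (E2_add (E2_add (E2_C _ (l2 _ _)) (E2_C _ (l2 _ _))) (E2_C _ (l2 _ _)))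

/-- **A third triple point off the line of the first two.** With `S = s_0 a² + s_1 a b + s_2 b²`,
`Γ = c(a, b)`, `D = d(a, b)`, `Q = q(a, b)`, the polynomial is
`r² (z (z-1) S + r (Γ + z D) + r² Q)` on the plane `(a r, b r, z)`, and the conic in the bracket has
multiplicity three at `(1, t)`, so it is zero. (Directly: the second derivatives at the point,
contracted with `(a, b, 0)` and `(0, 0, 1)`: `∂_2∂_2`: `2 S = 0`.) -/
theorem eval_eq_zero_of_off {s : Fin 3 → ℂ} {c d : Fin 4 → ℂ} {q : Fin 5 → ℂ} {a b t : ℂ}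
    (h : ![a, b, t] ∈ Tr (tf s c d q)) : s 0 * a ^ 2 + s 1 * (a * b) + s 2 * b ^ 2 = 0 := by
  have h1 := h.2.2 2 2
  simp [tf, b2, lf, b3, b4, pderiv_X] at h1
  exact h1

end QG

end MPb07157
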