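import Pool.Agent.Lib.MP_b07157_agQG.Defs2

/-!
# Four triple points in a plane
-/

noncomputable section

namespace MPb07157

open MvPolynomial

namespace QG

/-- **Four triple points** `(0,0,0), (0,0,1), (0,1,0), (0,b,t)`, `b ≠ 0`, in the plane `x_0 = 0`: then
`x_0² ∣ g`. Proof: on the plane `x_0 = 0`, `g = x_1² (z (z-1) s_2 + x_1 (c_3 + z d_3) + x_1² q_4)`, the
bracket has multiplicity three at `(1, 0)`, so `s_2 = c_3 = d_3 = q_4 = 0` and `g = x_0 g'`. On the plane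
`x_0 = 0`, `g' = x_1 k`, `k = z (z-1) s_1 + x_1 (c_2 + z d_2) + x_1² q_3`, and `k` has multiplicity two at
`(1, 0)` and at `(b, t)`. At `(1, 0)`: `c_2 + q_3 = 0`, `c_2 + 2 q_3 = 0`, `- s_1 + d_2 = 0`, so
`c_2 = q_3 = 0`, `d_2 = s_1` and `k = s_1 z (z - 1 + x_1)`; at `(b, t)`: `k_{x_1} = s_1 t`,
`k_z = s_1 (2 t - 1 + b)`, so `s_1 = 0`, or `t = 0` and `b = 1`. -/
theorem exists_sq_of_two {s : Fin 3 → ℂ} {c d : Fin 4 → ℂ} {q : Fin 5 → ℂ} {b t : ℂ}
    (h : ![0, 1, 0] ∈ Tr (tf s c d q)) (h' : ![0, b, t] ∈ Tr (tf s c d q)) (hb : b ≠ 0)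
    (hbt : b ≠ 1 ∨ t ≠ 0) :
    ∃ h' : MvPolynomial (Fin 3) ℂ, tf s c d q = X 0 ^ 2 * h' ∧ h'.totalDegree ≤ 2 := by
  have e1 := h.1
  have e2 := h.2.1 1
  have e3 := h.2.2 2 2
  have e4 := h.2.1 2
  have e5 := h.2.1 0
  have e6 := h.2.2 1 0
  have e7 := h.2.2 2 0
  have e8 := h'.2.2 1 0
  have e9 := h'.2.2 2 0
  have e10 := h'.2.1 0
  simp [tf, lf, b2, b3, b4, pderiv_X] at e1 e2 e3 e4 e5 e6 e7 e8 e9 e10
  have q4 : q 4 = 0 := by linear_combination e2 - 3 * e1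
  have c3 : c 3 = 0 := by linear_combination e1 - q4
  have d3 : d 3 = 0 := by linear_combination e4 + e3
  have q3 : q 3 = 0 := by linear_combination e6 - 2 * e5
  have c2 : c 2 = 0 := by linear_combination e5 - q3
  have d2 : d 2 = s 1 := by linear_combination e7
  rw [c2, d2, q3] at e8 e10
  rw [d2] at e9
  have s1 : s 1 = 0 := by
    by_contra hs
    have f9 : 2 * t - 1 + b = 0 := by
      have : (s 1 * b) * (2 * t - 1 + b) = 0 := by linear_combination e9
      rcases mul_eq_zero.1 this with h0 | h0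
      · exact absurd h0 (mul_ne_zero hs hb)
      · exact h0
    have f10 : t * (t - 1 + b) = 0 := by
      have : (s 1 * b) * (t * (t - 1 + b)) = 0 := by linear_combination e10
      rcases mul_eq_zero.1 this with h0 | h0
      · exact absurd h0 (mul_ne_zero hs hb)
      · exact h0
    have ht : t = 0 := by
      have : t * t = 0 := by linear_combination t * f9 - f10
      exact mul_self_eq_zero.1 this
    have hb1 : b = 1 := by linear_combination f9 - 2 * ht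
    rcases hbt with h0 | h0
    · exact h0 hb1
    · exact h0 ht
  have d2' : d 2 = 0 := d2.trans s1
  refine ⟨C (s 0) * (X 2 * (X 2 - 1)) + (C (c 0) * X 0 + C (c 1) * X 1) +
    X 2 * (C (d 0) * X 0 + C (d 1) * X 1) +
    (C (q 0) * X 0 ^ 2 + C (q 1) * (X 0 * X 1) + C (q 2) * X 1 ^ 2), ?_, ?_⟩
  · unfold tf lf b2 b3 b4
    rw [s1, e3, c2, c3, d2', d3, q3, q4, C_0]
    ring
  · have hX : ∀ i : Fin 3, (X i : MvPolynomial (Fin 3) ℂ).totalDegree ≤ 1 :=
      fun i => (totalDegree_X i).le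
    have hC : ∀ a : ℂ, (C a : MvPolynomial (Fin 3) ℂ).totalDegree ≤ 0 :=
      fun a => (totalDegree_C a).le
    have hA : ∀ {p q : MvPolynomial (Fin 3) ℂ} {n : ℕ}, p.totalDegree ≤ n → q.totalDegree ≤ n →
        (p + q).totalDegree ≤ n := fun hp hq => (totalDegree_add _ _).trans (max_le hp hq)
    have hM : ∀ {p q : MvPolynomial (Fin 3) ℂ} {n m k : ℕ}, p.totalDegree ≤ n →
        q.totalDegree ≤ m → n + m ≤ k → (p * q).totalDegree ≤ k :=
      fun hp hq hk => (totalDegree_mul _ _).trans ((add_le_add hp hq).trans hk)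
    have hP : ∀ i : Fin 3, (X i ^ 2 : MvPolynomial (Fin 3) ℂ).totalDegree ≤ 2 :=
      fun i => (totalDegree_pow _ _).trans (Nat.mul_le_mul_left 2 (hX i))
    have h1 : (X 2 - 1 : MvPolynomial (Fin 3) ℂ).totalDegree ≤ 1 := by
      refine (totalDegree_sub _ _).trans (max_le (hX 2) ?_)
      rw [totalDegree_one]
      exact Nat.zero_le 1
    refine hA (hA (hA (hM (hC _) (hM (hX 2) h1 le_rfl) le_rfl) ?_) ?_) ?_
    · exact hA (hM (hC _) (hX 0) (by norm_num)) (hM (hC _) (hX 1) (by norm_num))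
    · exact hM (hX 2) (hA (hM (hC _) (hX 0) le_rfl) (hM (hC _) (hX 1) le_rfl)) le_rfl
    · exact hA (hA (hM (hC _) (hP 0) le_rfl) (hM (hC _) (hM (hX 0) (hX 1) le_rfl) le_rfl))
        (hM (hC _) (hP 1) le_rfl)

end QG

end MPb07157
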