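import Pool.Agent.Lib.MP_b07157_agQH.Main
import Pool.Agent.Lib.MP_b07157_agSE.Deg4
import Pool.Agent.Lib.MP_b07157_agSE.Surf
import Pool.Agent.Lib.MP_b07157_agSG.ConeT
import Pool.Agent.Lib.MP_b07157_agS4.SAux

/-!
# Polynomials of degree at most four in three variables, and quartic forms in four variables
-/

noncomputable section

namespace MPb07157

open MvPolynomial

namespace QG

/-- The local version of the conjecture for `c + q`, `c ≠ 0` a cubic form with a multiple factor, `q` a
quartic form. -/
def QL : Prop := ∀ f : MvPolynomial (Fin 3) ℂ, f.totalDegree ≤ 4 →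
  (∀ j < 3, homogeneousComponent j f = 0) → homogeneousComponent 3 f ≠ 0 →
    ¬ Squarefree (homogeneousComponent 3 f) → SmcLoc f

theorem low_of_mem {g : MvPolynomial (Fin 3) ℂ} {p : Fin 3 → ℂ} (hp : p ∈ Tr g) :
    ∀ j < 3, homogeneousComponent j (translate p g) = 0 := by
  obtain ⟨h0, h1, h2⟩ := hp
  refine SE4.low_of_derivatives ?_ (fun i => ?_) fun i j => ?_
  · rw [SE3.coeff_zero_tr, h0]
  · rw [pderiv_translate, SE3.coeff_zero_tr, h1]
  · rw [pderiv_translate, pderiv_translate, SE3.coeff_zero_tr, h2]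

/-- A point at which also the third derivatives vanish. -/
theorem comp_three_eq_zero {g : MvPolynomial (Fin 3) ℂ} {p : Fin 3 → ℂ} (hp : p ∈ Tr g)
    (h : ∀ i j k, eval p (pderiv i (pderiv j (pderiv k g))) = 0) :
    homogeneousComponent 3 (translate p g) = 0 := by
  classical
  obtain ⟨h0, h1, h2⟩ := hp
  ext v
  rw [coeff_homogeneousComponent, coeff_zero]
  split_ifs with hv
  swap
  · rfl
  have hv0 : v ≠ 0 := by
    rintro rfl
    simp at hv
  obtain ⟨i, hi⟩ : ∃ i, v i ≠ 0 := by
    by_contra hcon
    push Not at hcon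
    exact hv0 (Finsupp.ext hcon)
  obtain ⟨w, hw⟩ : ∃ w : Fin 3 →₀ ℕ, v = w + Finsupp.single i 1 := by
    refine ⟨v - Finsupp.single i 1, ?_⟩
    rw [tsub_add_cancel_of_le]
    exact Finsupp.single_le_iff.2 (Nat.one_le_iff_ne_zero.2 hi)
  have hdw : w.degree = 2 := by
    have : w.degree + 1 = v.degree := by
      rw [hw, map_add, Finsupp.degree_single]
    omega
  have hlow := SE4.low_of_derivatives (F := pderiv i (translate p g))
    (by rw [pderiv_translate, SE3.coeff_zero_tr, h1])
    (fun j => by rw [pderiv_translate, pderiv_translate, SE3.coeff_zero_tr, h2])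
    (fun j k => by
      rw [pderiv_translate, pderiv_translate, pderiv_translate, SE3.coeff_zero_tr, h])
  have h3 := congrArg (coeff w) (hlow 2 (by norm_num))
  rw [coeff_homogeneousComponent, if_pos hdw, coeff_zero, coeff_pderiv, ← hw] at h3
  exact (mul_eq_zero.1 h3).resolve_right (by exact_mod_cast Nat.succ_ne_zero (w i))

/-- The opposite: a third derivative which is not zero. -/
theorem comp_three_ne_zero {g : MvPolynomial (Fin 3) ℂ} {p : Fin 3 → ℂ} {i j k : Fin 3}
    (h : eval p (pderiv i (pderiv j (pderiv k g))) ≠ 0) :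
    homogeneousComponent 3 (translate p g) ≠ 0 := by
  classical
  intro h0
  apply h
  rw [← SE3.coeff_zero_tr, ← pderiv_translate, ← pderiv_translate, ← pderiv_translate,
    coeff_pderiv, coeff_pderiv, coeff_pderiv]
  have h1 := congrArg (coeff (0 + Finsupp.single i 1 + Finsupp.single j 1 + Finsupp.single k 1)) h0
  rw [coeff_homogeneousComponent, if_pos, coeff_zero] at h1
  · rw [h1]
    ring
  · rw [map_add, map_add, map_add, map_zero, Finsupp.degree_single, Finsupp.degree_single,
      Finsupp.degree_single]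

theorem loc_of (hQL : QL) {g : MvPolynomial (Fin 3) ℂ} (hd : g.totalDegree ≤ 4) (hq : NoQ g) :
    Loc g := by
  intro p hp
  obtain ⟨i, j, k, h⟩ := hq p hp
  by_cases hs : Squarefree (homogeneousComponent 3 (translate p g))
  · exact SmcLoc.of_triple (low_of_mem hp) hs
  · exact hQL _ ((D5.totalDegree_translate_le p g).trans hd) (low_of_mem hp)
      (comp_three_ne_zero h) hs

/-- A point of multiplicity four. -/
theorem quartic_of {g : MvPolynomial (Fin 3) ℂ} (hd : g.totalDegree ≤ 4) (hq : ¬ NoQ g) :
    ∃ p, (translate p g).IsHomogeneous 4 := by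
  unfold NoQ at hq
  push Not at hq
  obtain ⟨p, hp, h⟩ := hq
  refine ⟨p, SE4.isHomogeneous_four ((D5.totalDegree_translate_le p g).trans hd) fun j hj => ?_⟩
  rcases Nat.lt_or_ge j 3 with h1 | h1
  · exact low_of_mem hp j h1
  · have : j = 3 := by omega
    rw [this]
    exact comp_three_eq_zero hp h

theorem smcGlob_aux (hQL : QL) {f : MvPolynomial (Fin 3) ℂ} (hf : f ≠ 0) (h0 : coeff 0 f = 0)
    (hd : f.totalDegree ≤ 4) : SmcGlob f := by
  by_cases hq : NoQ f
  · obtain ⟨T, hT, hTW, hc⟩ := QH.exists_cover hf hd hq (loc_of hQL hd hq)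
    refine SmcGlob.of_corank hf h0 hT (fun W hW => ⟨(hTW W hW).1, (hTW W hW).2.mono hf⟩)
      fun p hp hcr => ?_
    by_cases hH : YG.hessAt f p = 0
    · exact Or.inl (hc p ⟨hp, hcr, fun i j => congrFun (congrFun hH i) j⟩)
    · right
      have := SE3.one_le_rank hH
      omega
  · obtain ⟨p, hp⟩ := quartic_of hd hq
    exact SE3.smcGlob_of_translate p (SE4.smc_quartic (translate_ne_zero hf p) hp).1

/-- **The strong monodromy conjecture, global version**, for all polynomials of degree at most four
in three variables. -/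
theorem smcGlob_deg4 (hQL : QL) {f : MvPolynomial (Fin 3) ℂ} (hf : f ≠ 0)
    (hd : f.totalDegree ≤ 4) : SmcGlob f := by
  by_cases hz : ∃ p, eval p f = 0
  · obtain ⟨p, hp⟩ := hz
    exact SE3.smcGlob_of_translate p (smcGlob_aux hQL (translate_ne_zero hf p)
      (by rw [SE3.coeff_zero_tr, hp]) ((D5.totalDegree_translate_le p f).trans hd))
  · push Not at hz
    exact SE3.smcGlob_of_ne hf hz

/-- **The strong monodromy conjecture, local version**, for all polynomials of degree at most four
in three variables. -/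
theorem smcLoc_deg4 (hQL : QL) {f : MvPolynomial (Fin 3) ℂ} (hf : f ≠ 0) (h0 : coeff 0 f = 0)
    (hd : f.totalDegree ≤ 4) : SmcLoc f := by
  by_cases hs : (∀ j < 3, homogeneousComponent j f = 0) ∧ homogeneousComponent 3 f ≠ 0 ∧
      ¬ Squarefree (homogeneousComponent 3 f)
  · exact hQL f hd hs.1 hs.2.1 hs.2.2
  · refine SE4.smcLoc_deg4 hf h0 hd fun h1 h2 => ?_
    by_contra h3
    exact hs ⟨h1, h2, h3⟩

/-! ### Quartic forms in four variables -/

theorem totalDegree_ch {f : MvPolynomial (Fin 4) ℂ} (j : Fin 4) :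
    (CC.ch f j).totalDegree ≤ f.totalDegree := by
  classical
  unfold CC.ch
  rw [aeval_def, eval₂_eq]
  refine totalDegree_finsetSum_le fun v hv => ?_
  refine (totalDegree_mul _ _).trans ?_
  rw [algebraMap_eq, totalDegree_C, zero_add]
  refine (totalDegree_finsetProd _ _).trans ?_
  refine le_trans (Finset.sum_le_sum fun i _ => ?_) (le_totalDegree hv)
  refine (totalDegree_pow _ _).trans ?_
  refine le_trans (Nat.mul_le_mul_left _ ?_) (mul_one _).le
  rcases Fin.eq_self_or_eq_succAbove j i with h | ⟨t, h⟩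
  · rw [h, Fin.insertNth_apply_same, totalDegree_one]
    exact zero_le_one
  · rw [h, Fin.insertNth_apply_succAbove, totalDegree_X]

/-- The change of coordinates which moves the point `(q, 1)` to the last axis. -/
def qe (j : Fin 4) (q : Fin 3 → ℂ) : (Fin 4 → ℂ) ≃ₗ[ℂ] (Fin 4 → ℂ) where
  toFun w := j.insertNth (α := fun _ => ℂ) (w (Fin.last 3))
    (fun i => w i.castSucc + w (Fin.last 3) * q i)
  invFun x := Fin.snoc (α := fun _ => ℂ) (fun i => x (j.succAbove i) - x j * q i) (x j)
  map_add' w w' := by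
    funext i
    rcases Fin.eq_self_or_eq_succAbove j i with h | ⟨t, h⟩
    · rw [h, Pi.add_apply]
      simp only [Fin.insertNth_apply_same, Pi.add_apply]
    · rw [h, Pi.add_apply]
      simp only [Fin.insertNth_apply_succAbove, Pi.add_apply]
      ring
  map_smul' c w := by
    funext i
    rcases Fin.eq_self_or_eq_succAbove j i with h | ⟨t, h⟩
    · rw [h, Pi.smul_apply]
      simp only [Fin.insertNth_apply_same, Pi.smul_apply, RingHom.id_apply]
    · rw [h, Pi.smul_apply]
      simp only [Fin.insertNth_apply_succAbove, Pi.smul_apply, RingHom.id_apply, smul_eq_mul]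
      ring
  left_inv w := by
    funext i
    induction i using Fin.lastCases with
    | last => simp only [Fin.snoc_last, Fin.insertNth_apply_same]
    | cast i =>
      simp only [Fin.snoc_castSucc, Fin.insertNth_apply_same, Fin.insertNth_apply_succAbove]
      ring
  right_inv x := by
    funext i
    rcases Fin.eq_self_or_eq_succAbove j i with h | ⟨t, h⟩
    · rw [h]
      simp only [Fin.insertNth_apply_same, Fin.snoc_last]
    · rw [h]
      simp only [Fin.insertNth_apply_succAbove, Fin.snoc_last, Fin.snoc_castSucc]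
      ring

/-- **A point of multiplicity four**: `F` is a form in three variables. -/
theorem smcLoc_of_quad {F : MvPolynomial (Fin 4) ℂ} (hF : F ≠ 0) (hh : F.IsHomogeneous 4)
    {j : Fin 4} (hq : ¬ NoQ (CC.ch F j)) : SmcLoc F := by
  classical
  obtain ⟨q, hq⟩ := quartic_of ((totalDegree_ch j).trans hh.totalDegree_le) hq
  set h := translate q (CC.ch F j) with hdef
  have h1 : ∀ x : Fin 4 → ℂ, x j ≠ 0 →
      eval x F = eval (fun i => x (j.succAbove i) - x j * q i) h := by
    intro x hx
    rw [CC.eval_eq_ch hh hx]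
    have e1 : (fun i => x (j.succAbove i) - x j * q i) =
        fun i => x j * ((CC.pr j x - q) i) := by
      funext i
      rw [Pi.sub_apply]
      unfold CC.pr
      field_simp
    rw [e1, CC.ConeS.eval_mul_homog hq, hdef, D5.eval_translate', sub_add_cancel]
  have h2 : F = aeval (fun i : Fin 3 => (X (j.succAbove i) - X j * C (q i) :
      MvPolynomial (Fin 4) ℂ)) h := by
    have h3 : X j * F = X j * aeval (fun i : Fin 3 => (X (j.succAbove i) - X j * C (q i) :
        MvPolynomial (Fin 4) ℂ)) h := by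
      refine MvPolynomial.funext fun x => ?_
      rw [map_mul, map_mul, eval_X]
      by_cases hx : x j = 0
      · rw [hx, zero_mul, zero_mul]
      · rw [h1 x hx, CC.ConeS.eval_aeval]
        congr 3
        funext i
        rw [map_sub, map_mul, eval_X, eval_X, eval_C]
    exact mul_left_cancel₀ (X_ne_zero j) h3
  have hlin : CS.LinEq F (MPb07157.prodSep h (1 : MvPolynomial (Fin 1) ℂ)) := by
    refine ⟨qe j q, fun w => ?_⟩
    unfold MPb07157.prodSep
    rw [map_one, mul_one, eval_rename, h2, CC.ConeS.eval_aeval]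
    congr 2
    funext i
    rw [map_sub, map_mul, eval_X, eval_X, eval_C]
    show (j.insertNth (α := fun _ => ℂ) (w (Fin.last 3))
      (fun i => w i.castSucc + w (Fin.last 3) * q i)) (j.succAbove i) -
      (j.insertNth (α := fun _ => ℂ) (w (Fin.last 3))
      (fun i => w i.castSucc + w (Fin.last 3) * q i)) j * q i = w (Fin.castAdd 1 i)
    rw [Fin.insertNth_apply_same, Fin.insertNth_apply_succAbove]
    have e : Fin.castAdd 1 i = i.castSucc := rfl
    rw [e]
    ring
  have hG : MPb07157.prodSep h (1 : MvPolynomial (Fin 1) ℂ) ≠ 0 := by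
    intro h0
    obtain ⟨e, he⟩ := hlin
    refine hF (MvPolynomial.funext fun w => ?_)
    have h4 := he (e.symm w)
    rw [LinearEquiv.apply_symm_apply, h0, map_zero] at h4
    rw [h4, map_zero]
  refine hlin.smcLoc (SmcLoc.prodSep' hG (fun hf _ => (SE4.smc_quartic hf hq).2) ?_)
  intro _ h0
  rw [MvPolynomial.coeff_zero_one] at h0
  exact absurd h0 one_ne_zero

/-- **The strong monodromy conjecture, local version**, for all quartic forms in four variables. -/
theorem smcLoc_quartic (hQL : QL) {F : MvPolynomial (Fin 4) ℂ} (hF : F ≠ 0)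
    (hh : F.IsHomogeneous 4) : SmcLoc F := by
  classical
  by_cases hq : ∃ j, ¬ NoQ (CC.ch F j)
  · obtain ⟨j, hj⟩ := hq
    exact smcLoc_of_quad hF hh hj
  push Not at hq
  refine SmcLoc.of_coneV (k := 3) hF (by norm_num) hh (T := ∅) Set.finite_empty
    (fun _ hW => absurd hW (Set.notMem_empty _)) (fun j => ?_) (Or.inl rfl)
  have hd : (CC.ch F j).totalDegree ≤ 4 := (totalDegree_ch j).trans hh.totalDegree_le
  obtain ⟨A, hA, hAW, hAc⟩ := CC.exists_cover_corank' (CC.ch F j)
  obtain ⟨B, hB, hBW, hBc⟩ := QH.exists_cover (CC.ch_ne_zero hF hh j) hd (hq j)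
    (loc_of hQL hd (hq j))
  refine ⟨A ∪ B, hA.union hB, ?_, fun p hj hp hc => Or.inr ?_⟩
  · rintro W (hW | hW)
    · exact ⟨(hAW W hW).1, Or.inl (hAW W hW).2⟩
    · exact hBW W hW
  · have e0 : eval (CC.pr j p) (CC.ch F j) = 0 := by
      have := CC.eval_eq_ch hh hj
      rw [hp] at this
      exact (mul_eq_zero.1 this.symm).resolve_left (pow_ne_zero _ hj)
    by_cases hH : YG.hessAt (CC.ch F j) (CC.pr j p) = 0
    · obtain ⟨W, hW, hpW⟩ := hBc (CC.pr j p) ⟨e0, CC.ch_of_crit hh hj hc,
        fun i l => congrFun (congrFun hH i) l⟩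
      exact ⟨W, Or.inr hW, hpW⟩
    · obtain ⟨W, hW, hpW⟩ := hAc (CC.pr j p) e0 (CC.ch_of_crit hh hj hc)
        (by have := SE3.one_le_rank hH; omega)
      exact ⟨W, Or.inl hW, hpW⟩

end QG

end MPb07157
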