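import Pool.Agent.Lib.MP_b07157_agQG.A1
import Pool.Agent.Lib.MP_b07157_agQG.A3
import Pool.Agent.Lib.MP_b07157_agQG.E1
import Pool.Agent.Lib.MP_b07157_agQG.E2
import Pool.Agent.Lib.MP_b07157_agQG.E3

/-!
# The set of triple points of a quartic surface
-/

noncomputable section

namespace MPb07157

open MvPolynomial

namespace QG

/-- Three vectors on which a binary quadratic form `s ≠ 0` vanishes: two are proportional. -/
theorem prop_of_three {s : Fin 3 → ℂ} (hs : s ≠ 0) {a b : Fin 3 → ℂ}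
    (h : ∀ i, s 0 * a i ^ 2 + s 1 * (a i * b i) + s 2 * b i ^ 2 = 0) :
    ∃ i j, i ≠ j ∧ a i * b j = a j * b i := by
  by_contra hcon
  push Not at hcon
  have h01 : a 0 * b 1 - a 1 * b 0 ≠ 0 := sub_ne_zero.2 (hcon 0 1 (by decide))
  have h02 : a 0 * b 2 - a 2 * b 0 ≠ 0 := sub_ne_zero.2 (hcon 0 2 (by decide))
  have h12 : a 1 * b 2 - a 2 * b 1 ≠ 0 := sub_ne_zero.2 (hcon 1 2 (by decide))
  have hd : (a 0 * b 1 - a 1 * b 0) * (a 0 * b 2 - a 2 * b 0) * (a 1 * b 2 - a 2 * b 1) ≠ 0 :=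
    mul_ne_zero (mul_ne_zero h01 h02) h12
  have e0 := h 0
  have e1 := h 1
  have e2 := h 2
  have s0 : (a 0 * b 1 - a 1 * b 0) * (a 0 * b 2 - a 2 * b 0) * (a 1 * b 2 - a 2 * b 1) * s 0
      = 0 := by
    linear_combination (a 1 * b 1 * b 2 ^ 2 - b 1 ^ 2 * (a 2 * b 2)) * e0
      - (a 0 * b 0 * b 2 ^ 2 - b 0 ^ 2 * (a 2 * b 2)) * e1
      + (a 0 * b 0 * b 1 ^ 2 - b 0 ^ 2 * (a 1 * b 1)) * e2
  have s1 : (a 0 * b 1 - a 1 * b 0) * (a 0 * b 2 - a 2 * b 0) * (a 1 * b 2 - a 2 * b 1) * s 1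
      = 0 := by
    linear_combination - (a 1 ^ 2 * b 2 ^ 2 - b 1 ^ 2 * a 2 ^ 2) * e0
      + (a 0 ^ 2 * b 2 ^ 2 - b 0 ^ 2 * a 2 ^ 2) * e1
      - (a 0 ^ 2 * b 1 ^ 2 - b 0 ^ 2 * a 1 ^ 2) * e2
  have s2 : (a 0 * b 1 - a 1 * b 0) * (a 0 * b 2 - a 2 * b 0) * (a 1 * b 2 - a 2 * b 1) * s 2
      = 0 := by
    linear_combination (a 1 ^ 2 * (a 2 * b 2) - a 1 * b 1 * a 2 ^ 2) * e0
      - (a 0 ^ 2 * (a 2 * b 2) - a 0 * b 0 * a 2 ^ 2) * e1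
      + (a 0 ^ 2 * (a 1 * b 1) - a 0 * b 0 * a 1 ^ 2) * e2
  apply hs
  funext i
  fin_cases i
  · exact (mul_eq_zero.1 s0).resolve_left hd
  · exact (mul_eq_zero.1 s1).resolve_left hd
  · exact (mul_eq_zero.1 s2).resolve_left hd

/-- **Coordinates at two triple points.** -/
theorem exists_tf {g : MvPolynomial (Fin 3) ℂ} (hd : g.totalDegree ≤ 4) {p₀ v : Fin 3 → ℂ}
    (h0 : p₀ ∈ Tr g) (h1 : p₀ + v ∈ Tr g) {M : Matrix (Fin 3) (Fin 3) ℂ} (hM : M.det ≠ 0)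
    (hv : M.mulVec v = ![0, 0, 1]) : ∃ s c d q, g = aeval (ac M p₀) (tf s c d q) := by
  obtain ⟨g', hg, hd'⟩ := exists_ac hM p₀ g
  rw [hg] at h0 h1
  rw [mem_Tr_ac hM, sub_self, Matrix.mulVec_zero] at h0
  rw [mem_Tr_ac hM, add_sub_cancel_left, hv] at h1
  obtain ⟨s, c, d, q, h⟩ := exists_two (hd'.trans hd) h0 h1
  exact ⟨s, c, d, q, by rw [← h]; exact hg⟩

/-- **Two more triple points in a plane through two triple points** `p₀`, `p₀ + v`. -/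
theorem exists_sq {g : MvPolynomial (Fin 3) ℂ} (hd : g.totalDegree ≤ 4) {p₀ v x y : Fin 3 → ℂ}
    (h0 : p₀ ∈ Tr g) (h1 : p₀ + v ∈ Tr g) (hx : x ∈ Tr g) (hy : y ∈ Tr g) (hxy : x ≠ y)
    (hl : LinearIndependent ℂ ![v, x - p₀]) {b t : ℂ} (hb : b ≠ 0)
    (he : y - p₀ = b • (x - p₀) + t • v) :
    ∃ M : Matrix (Fin 3) (Fin 3) ℂ, M.det ≠ 0 ∧ ∃ h' : MvPolynomial (Fin 3) ℂ,
      g = aeval (ac M p₀) (X 0 ^ 2 * h') ∧ h'.totalDegree ≤ 2 := by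
  obtain ⟨M, hM, hv, hv'⟩ := exists_matrix_two hl
  obtain ⟨s, c, d, q, h⟩ := exists_tf hd h0 h1 hM hv
  rw [h] at hx hy
  rw [mem_Tr_ac hM, hv'] at hx
  have hy' : M.mulVec (y - p₀) = ![0, b, t] := by
    rw [he, Matrix.mulVec_add, Matrix.mulVec_smul, Matrix.mulVec_smul, hv, hv']
    funext i
    fin_cases i <;> simp
  rw [mem_Tr_ac hM, hy'] at hy
  have hbt : b ≠ 1 ∨ t ≠ 0 := by
    by_contra hcon
    push Not at hcon
    apply hxy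
    rw [hcon.1, hcon.2, one_smul, zero_smul, add_zero] at he
    exact (sub_left_inj.1 he).symm
  obtain ⟨h', hh, hhd⟩ := exists_sq_of_two hx hy hb hbt
  exact ⟨M, hM, h', by rw [← hh]; exact h, hhd⟩

end QG

end MPb07157
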