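import Pool.Agent.Lib.MP_b07157_agQG.G1

/-!
# The set of triple points of a quartic surface, II
-/

noncomputable section

namespace MPb07157

open MvPolynomial

namespace QG

private theorem G2_inj {M : Matrix (Fin 3) (Fin 3) ℂ} (hM : M.det ≠ 0) {u w : Fin 3 → ℂ}
    (h : M.mulVec u = M.mulVec w) : u = w := by
  have h1 := congrArg (M⁻¹.mulVec) h
  rwa [Matrix.mulVec_mulVec, Matrix.mulVec_mulVec,
    Matrix.nonsing_inv_mul _ (isUnit_iff_ne_zero.2 hM), Matrix.one_mulVec,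
    Matrix.one_mulVec] at h1

private theorem G2_smul (t : ℂ) : t • (![0, 0, 1] : Fin 3 → ℂ) = ![0, 0, t] := by
  funext i
  fin_cases i <;> simp

/-- The coordinates of a point on the line. -/
private theorem G2_line {M : Matrix (Fin 3) (Fin 3) ℂ} {v u : Fin 3 → ℂ} {t : ℂ}
    (hv : M.mulVec v = ![0, 0, 1]) (hu : u = t • v) : M.mulVec u = ![0, 0, t] := by
  rw [hu, Matrix.mulVec_smul, hv, G2_smul]

private theorem G2_prop {a b a' b' : ℂ} (h : a * b' = a' * b) (h0 : a ≠ 0 ∨ b ≠ 0)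
    (h0' : a' ≠ 0 ∨ b' ≠ 0) : ∃ β : ℂ, β ≠ 0 ∧ a' = β * a ∧ b' = β * b := by
  by_cases ha : a = 0
  · have hb : b ≠ 0 := h0.resolve_left (fun h1 => h1 ha)
    have ha' : a' = 0 := by
      rw [ha, zero_mul] at h
      exact (mul_eq_zero.1 h.symm).resolve_right hb
    have hb' : b' ≠ 0 := h0'.resolve_left (fun h1 => h1 ha')
    refine ⟨b' / b, div_ne_zero hb' hb, ?_, ?_⟩
    · rw [ha, ha', mul_zero]
    · rw [div_mul_cancel₀ _ hb]
  · have e1 : a' = a' / a * a := by rw [div_mul_cancel₀ _ ha]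
    have e2 : b' = a' / a * b := by
      rw [div_mul_eq_mul_div, ← h, mul_comm a b', mul_div_assoc, div_self ha, mul_one]
    refine ⟨a' / a, ?_, e1, e2⟩
    intro h1
    rw [h1, zero_mul] at e1 e2
    rcases h0' with h2 | h2
    · exact h2 e1
    · exact h2 e2

/-- **The set of triple points, if there are infinitely many**: a line, or `g` has a double plane.
Proof: choose `p₀ ≠ p₁` in `Tr g`, `v = p₁ - p₀`. (i) If all triple points are on the line `p₀ + ℂ v`,
there is a third one, `exists_matrix_one`, `exists_tf` and `eq_zero_of_third` give the first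
alternative. (ii) Otherwise let `x₀ ∈ Tr g` be off the line, `exists_matrix_two` for `v`, `x₀ - p₀`, and
`g = aeval (ac M p₀) (tf s c d q)`. If `s = 0`, `exists_sq_of_point`. If `s ≠ 0`, the only triple points
on the line are `p₀` and `p₁` (`eq_zero_of_third`), so there are three distinct ones off the line; by
`eval_eq_zero_of_off` and `prop_of_three` two of them, `x` and `y`, satisfy `a_x b_y = a_y b_x`, where
`(a, b, t) = M (· - p₀)`, `(a, b) ≠ 0`; so `y - p₀ = β (x - p₀) + τ v` with `β ≠ 0`, and `exists_sq`. -/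
theorem structure_Tr {g : MvPolynomial (Fin 3) ℂ} (hd : g.totalDegree ≤ 4)
    (hinf : (Tr g).Infinite) :
    ∃ (M : Matrix (Fin 3) (Fin 3) ℂ) (p₀ : Fin 3 → ℂ), M.det ≠ 0 ∧
      ((∃ c d q, g = aeval (ac M p₀) (lf c d q) ∧
        ∀ x ∈ Tr g, M.mulVec (x - p₀) 0 = 0 ∧ M.mulVec (x - p₀) 1 = 0) ∨
      ∃ h' : MvPolynomial (Fin 3) ℂ, g = aeval (ac M p₀) (X 0 ^ 2 * h') ∧ h'.totalDegree ≤ 2) := by
  obtain ⟨p₀, hp₀⟩ := hinf.nonempty
  obtain ⟨p₁, hp₁, hne⟩ := (hinf.sdiff (Set.finite_singleton p₀)).nonempty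
  have hne' : p₁ ≠ p₀ := fun h => hne (Set.mem_singleton_iff.2 h)
  obtain ⟨v, hvdef⟩ : ∃ v, v = p₁ - p₀ := ⟨_, rfl⟩
  have hv : v ≠ 0 := by
    rw [hvdef]
    exact sub_ne_zero.2 hne'
  have hp₁' : p₀ + v = p₁ := by rw [hvdef, add_sub_cancel]
  have h1 : p₀ + v ∈ Tr g := by
    rw [hp₁']
    exact hp₁
  by_cases hline : ∀ x ∈ Tr g, ∃ τ : ℂ, x - p₀ = τ • v
  · obtain ⟨M, hM, hMv⟩ := exists_matrix_one hv
    obtain ⟨s, c, d, q, hg⟩ := exists_tf hd hp₀ h1 hM hMv
    have hfin : ({p₀, p₁} : Set (Fin 3 → ℂ)).Finite := by simp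
    obtain ⟨x₂, hx₂, hx₂'⟩ := (hinf.sdiff hfin).nonempty
    obtain ⟨τ, hτ⟩ := hline x₂ hx₂
    have h20 : τ ≠ 0 := by
      intro h
      rw [h, zero_smul] at hτ
      exact hx₂' (by rw [sub_eq_zero.1 hτ]; simp)
    have h21 : τ ≠ 1 := by
      intro h
      rw [h, one_smul] at hτ
      refine hx₂' ?_
      have e : x₂ = p₁ := by rw [← hp₁', ← hτ, add_sub_cancel]
      rw [e]
      simp
    have h2 := hx₂
    rw [hg, mem_Tr_ac hM, G2_line hMv hτ] at h2
    have hs : s = 0 := eq_zero_of_third h20 h21 h2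
    refine ⟨M, p₀, hM, Or.inl ⟨c, d, q, ?_, fun x hx => ?_⟩⟩
    · rw [← tf_zero, ← hs]
      exact hg
    · obtain ⟨t, ht⟩ := hline x hx
      rw [G2_line hMv ht]
      exact ⟨rfl, rfl⟩
  · push Not at hline
    obtain ⟨x₀, hx₀, hoff⟩ := hline
    have hl : LinearIndependent ℂ ![v, x₀ - p₀] :=
      (LinearIndependent.pair_iff' hv).2 fun a ha => hoff a ha.symm
    obtain ⟨M, hM, hMv, hMv'⟩ := exists_matrix_two hl
    obtain ⟨s, c, d, q, hg⟩ := exists_tf hd hp₀ h1 hM hMv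
    by_cases hs : s = 0
    · have h2 := hx₀
      rw [hs, tf_zero] at hg
      rw [hg, mem_Tr_ac hM, hMv'] at h2
      obtain ⟨h', hh, hhd⟩ := exists_sq_of_point h2
      refine ⟨M, p₀, hM, Or.inr ⟨h', ?_, hhd⟩⟩
      rw [← hh]
      exact hg
    · have hfin : ({p₀, p₁} : Set (Fin 3 → ℂ)).Finite := by simp
      have hinf2 := hinf.sdiff hfin
      have key : ∀ x ∈ Tr g \ {p₀, p₁}, ∀ τ : ℂ, x - p₀ ≠ τ • v := by
        rintro x ⟨hx, hx'⟩ τ hτ
        have h20 : τ ≠ 0 := by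
          intro h
          rw [h, zero_smul] at hτ
          exact hx' (by rw [sub_eq_zero.1 hτ]; simp)
        have h21 : τ ≠ 1 := by
          intro h
          rw [h, one_smul] at hτ
          refine hx' ?_
          have e : x = p₁ := by rw [← hp₁', ← hτ, add_sub_cancel]
          rw [e]
          simp
        have h2 := hx
        rw [hg, mem_Tr_ac hM, G2_line hMv hτ] at h2
        exact hs (eq_zero_of_third h20 h21 h2)
      obtain ⟨x, hxinj, hx⟩ : ∃ x : Fin 3 → (Fin 3 → ℂ), Function.Injective x ∧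
          ∀ i, x i ∈ Tr g \ {p₀, p₁} := by
        refine ⟨fun i => (hinf2.natEmbedding _ (i : ℕ) : Fin 3 → ℂ), ?_, fun i => ?_⟩
        · intro i j hij
          have h3 := (hinf2.natEmbedding _).injective (Subtype.ext hij)
          exact Fin.ext h3
        · exact (hinf2.natEmbedding _ (i : ℕ)).2
      have hw : ∀ i, M.mulVec (x i - p₀) =
          ![M.mulVec (x i - p₀) 0, M.mulVec (x i - p₀) 1, M.mulVec (x i - p₀) 2] := by
        intro i
        funext l
        fin_cases l <;> rfl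
      have hquad : ∀ i, s 0 * (M.mulVec (x i - p₀) 0) ^ 2 +
          s 1 * (M.mulVec (x i - p₀) 0 * M.mulVec (x i - p₀) 1) +
          s 2 * (M.mulVec (x i - p₀) 1) ^ 2 = 0 := by
        intro i
        have h2 := (hx i).1
        rw [hg, mem_Tr_ac hM, hw i] at h2
        exact eval_eq_zero_of_off h2
      obtain ⟨i, j, hij, hprop⟩ := prop_of_three hs
        (a := fun i => M.mulVec (x i - p₀) 0) (b := fun i => M.mulVec (x i - p₀) 1) hquad
      have hnz : ∀ i, M.mulVec (x i - p₀) 0 ≠ 0 ∨ M.mulVec (x i - p₀) 1 ≠ 0 := by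
        intro i
        by_contra hcon
        push Not at hcon
        refine key (x i) (hx i) (M.mulVec (x i - p₀) 2) (G2_inj hM ?_)
        rw [G2_line hMv rfl]
        conv_lhs => rw [hw i]
        rw [hcon.1, hcon.2]
      obtain ⟨β, hβ, e1, e2⟩ := G2_prop hprop (hnz i) (hnz j)
      have hl' : LinearIndependent ℂ ![v, x i - p₀] :=
        (LinearIndependent.pair_iff' hv).2 fun a ha => key (x i) (hx i) a ha.symm
      have he : x j - p₀ = β • (x i - p₀) +
          (M.mulVec (x j - p₀) 2 - β * M.mulVec (x i - p₀) 2) • v := by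
        apply G2_inj hM
        rw [Matrix.mulVec_add, Matrix.mulVec_smul, Matrix.mulVec_smul, hMv, G2_smul]
        funext l
        fin_cases l
        · show M.mulVec (x j - p₀) 0 = β * M.mulVec (x i - p₀) 0 + 0
          rw [add_zero]
          exact e1
        · show M.mulVec (x j - p₀) 1 = β * M.mulVec (x i - p₀) 1 + 0
          rw [add_zero]
          exact e2
        · show M.mulVec (x j - p₀) 2 = β * M.mulVec (x i - p₀) 2 +
            (M.mulVec (x j - p₀) 2 - β * M.mulVec (x i - p₀) 2)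
          ring
      obtain ⟨M', hM', h', hh, hhd⟩ := exists_sq hd hp₀ h1 (hx i).1 (hx j).1
        (fun h => hij (hxinj h)) hl' hβ he
      exact ⟨M', p₀, hM', Or.inr ⟨h', hh, hhd⟩⟩

/-- **Three triple points on a line**: coordinates in which the line is `x_0 = x_1 = 0`. -/
theorem exists_lf {g : MvPolynomial (Fin 3) ℂ} (hd : g.totalDegree ≤ 4) {p₀ v : Fin 3 → ℂ}
    (hv : v ≠ 0) (h : ∀ s : ℂ, p₀ + s • v ∈ Tr g) :
    ∃ M : Matrix (Fin 3) (Fin 3) ℂ, M.det ≠ 0 ∧ M.mulVec v = ![0, 0, 1] ∧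
      ∃ c d q, g = aeval (ac M p₀) (lf c d q) := by
  obtain ⟨M, hM, hMv⟩ := exists_matrix_one hv
  have h0 : p₀ ∈ Tr g := by simpa using h 0
  have h1 : p₀ + v ∈ Tr g := by simpa using h 1
  obtain ⟨s, c, d, q, hg⟩ := exists_tf hd h0 h1 hM hMv
  have h2 := h 2
  rw [hg, mem_Tr_ac hM, add_sub_cancel_left, Matrix.mulVec_smul, hMv] at h2
  have h3 : (2 : ℂ) • (![0, 0, 1] : Fin 3 → ℂ) = ![0, 0, 2] := by
    funext i
    fin_cases i <;> simp
  rw [h3] at h2
  have hs : s = 0 := eq_zero_of_third (by norm_num) (by norm_num) h2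
  refine ⟨M, hM, hMv, c, d, q, ?_⟩
  rw [← tf_zero, ← hs]
  exact hg

end QG

end MPb07157
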