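import Pool.Agent.Lib.MP_b07157_agQG.P1
import Pool.Agent.Lib.MP_b07157_agU.Bridge

/-!
# A triple line, generic case
-/

noncomputable section

namespace MPb07157

open MvPolynomial

namespace QG

/-- The polynomial `dis (c + x_2 d)`. -/
def disP (c d : Fin 4 → ℂ) : MvPolynomial (Fin 3) ℂ :=
  let a : Fin 4 → MvPolynomial (Fin 3) ℂ := fun i => C (c i) + X 2 * C (d i)
  a 1 ^ 2 * a 2 ^ 2 - 4 * a 0 * a 2 ^ 3 - 4 * a 1 ^ 3 * a 3 - 27 * a 0 ^ 2 * a 3 ^ 2 +
    18 * a 0 * a 1 * a 2 * a 3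

namespace L1

variable {R : Type*} [CommRing R]

/-- Binary cubic forms. -/
def G3 (a : Fin 4 → R) : MvPolynomial (Fin 2) R :=
  C (a 0) * X 0 ^ 3 + C (a 1) * (X 0 ^ 2 * X 1) + C (a 2) * (X 0 * X 1 ^ 2) + C (a 3) * X 1 ^ 3

/-- Binary quartic forms. -/
def G4 (b : Fin 5 → R) : MvPolynomial (Fin 2) R :=
  C (b 0) * X 0 ^ 4 + C (b 1) * (X 0 ^ 3 * X 1) + C (b 2) * (X 0 ^ 2 * X 1 ^ 2) +
    C (b 3) * (X 0 * X 1 ^ 3) + C (b 4) * X 1 ^ 4

theorem hom_mono (a : R) (i j : ℕ) :
    (C a * (X 0 ^ i * X 1 ^ j) : MvPolynomial (Fin 2) R).IsHomogeneous (i + j) := by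
  have h := (isHomogeneous_C (Fin 2) a).mul
    (((isHomogeneous_X R (0 : Fin 2)).pow i).mul ((isHomogeneous_X R (1 : Fin 2)).pow j))
  rwa [one_mul, one_mul, zero_add] at h

theorem G3_hom (a : Fin 4 → R) : (G3 a).IsHomogeneous 3 := by
  have e : G3 a = C (a 0) * (X 0 ^ 3 * X 1 ^ 0) + C (a 1) * (X 0 ^ 2 * X 1 ^ 1) +
      C (a 2) * (X 0 ^ 1 * X 1 ^ 2) + C (a 3) * (X 0 ^ 0 * X 1 ^ 3) := by
    unfold G3
    ring
  rw [e]
  exact (((hom_mono (a 0) 3 0).add (hom_mono (a 1) 2 1)).add (hom_mono (a 2) 1 2)).add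
    (hom_mono (a 3) 0 3)

theorem G4_hom (b : Fin 5 → R) : (G4 b).IsHomogeneous 4 := by
  have e : G4 b = C (b 0) * (X 0 ^ 4 * X 1 ^ 0) + C (b 1) * (X 0 ^ 3 * X 1 ^ 1) +
      C (b 2) * (X 0 ^ 2 * X 1 ^ 2) + C (b 3) * (X 0 ^ 1 * X 1 ^ 3) +
      C (b 4) * (X 0 ^ 0 * X 1 ^ 4) := by
    unfold G4
    ring
  rw [e]
  exact ((((hom_mono (b 0) 4 0).add (hom_mono (b 1) 3 1)).add (hom_mono (b 2) 2 2)).add
    (hom_mono (b 3) 1 3)).add (hom_mono (b 4) 0 4)

theorem deg_of_hom {p : MvPolynomial (Fin 2) R} {m : ℕ} (h : p.IsHomogeneous m) {v : Fin 2 →₀ ℕ}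
    (hv : v ∈ p.support) : ∑ j, v j = m := by
  have h1 := h (mem_support_iff.1 hv)
  rw [← h1, Finsupp.weight_apply, Finsupp.sum_fintype _ _ (fun i => by simp)]
  refine Finset.sum_congr rfl fun i _ => ?_
  simp

theorem comp3 (a : Fin 4 → R) (b : Fin 5 → R) :
    weightedHomogeneousComponent (1 : Fin 2 → ℕ) 3 (G3 a + G4 b) = G3 a := by
  have h1 : homogeneousComponent 3 (G3 a) = G3 a := by
    rw [homogeneousComponent_of_mem ((mem_homogeneousSubmodule _ _).2 (G3_hom a)), if_pos rfl]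
  have h2 : homogeneousComponent 3 (G4 b) = 0 := by
    rw [homogeneousComponent_of_mem ((mem_homogeneousSubmodule _ _).2 (G4_hom b)),
      if_neg (by norm_num)]
  show homogeneousComponent 3 (G3 a + G4 b) = G3 a
  rw [map_add, h1, h2, add_zero]

theorem map_G3 {S : Type*} [CommRing S] (φ : R →+* S) (a : Fin 4 → R) :
    map φ (G3 a) = G3 (fun i => φ (a i)) := by
  simp [G3]

theorem map_G4 {S : Type*} [CommRing S] (φ : R →+* S) (b : Fin 5 → R) :
    map φ (G4 b) = G4 (fun i => φ (b i)) := by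
  simp [G4]

theorem eval_dx (c : Fin 4 → ℂ) (y : Fin 2 → ℂ) :
    eval y (pderiv 0 (G3 c)) = dx c (y 0) (y 1) := by
  have h : pderiv (1 : Fin 2) (X 0 : MvPolynomial (Fin 2) ℂ) = 0 := pderiv_X_of_ne (by decide)
  have h' : pderiv (0 : Fin 2) (X 1 : MvPolynomial (Fin 2) ℂ) = 0 := pderiv_X_of_ne (by decide)
  unfold G3 dx
  simp only [map_add, Derivation.leibniz, Derivation.leibniz_pow, pderiv_C, pderiv_X_self, h, h',
    smul_eq_mul, map_mul, map_pow, eval_X, eval_C, map_zero, map_one, nsmul_eq_mul, map_natCast]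
  push_cast
  ring

theorem eval_dy (c : Fin 4 → ℂ) (y : Fin 2 → ℂ) :
    eval y (pderiv 1 (G3 c)) = dy c (y 0) (y 1) := by
  have h : pderiv (1 : Fin 2) (X 0 : MvPolynomial (Fin 2) ℂ) = 0 := pderiv_X_of_ne (by decide)
  have h' : pderiv (0 : Fin 2) (X 1 : MvPolynomial (Fin 2) ℂ) = 0 := pderiv_X_of_ne (by decide)
  unfold G3 dy
  simp only [map_add, Derivation.leibniz, Derivation.leibniz_pow, pderiv_C, pderiv_X_self, h, h',
    smul_eq_mul, map_mul, map_pow, eval_X, eval_C, map_zero, map_one, nsmul_eq_mul, map_natCast]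
  push_cast
  ring

theorem eval_disP (c d : Fin 4 → ℂ) (p : Fin 3 → ℂ) :
    eval p (disP c d) = dis (c + p 2 • d) := by
  simp only [disP, dis, map_add, map_sub, map_mul, map_pow, eval_X, eval_C, Pi.add_apply,
    Pi.smul_apply, smul_eq_mul, map_ofNat]

theorem line_sub_Tr (c d : Fin 4 → ℂ) (q : Fin 5 → ℂ) {p : Fin 3 → ℂ} (h0 : p 0 = 0)
    (h1 : p 1 = 0) : p ∈ Tr (lf c d q) := by
  refine ⟨?_, ?_, ?_⟩
  · simp [lf, b3, b4, h0, h1]
  · intro i
    fin_cases i <;> simp [lf, b3, b4, h0, h1, pderiv_X, Pi.single_apply]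
  · intro i j
    fin_cases i <;> fin_cases j <;>
      simp [lf, b3, b4, h0, h1, pderiv_X, Pi.single_apply, Derivation.leibniz,
        Derivation.leibniz_pow]

end L1

open L1

/-- Along the part of the line where the discriminant of `c + x_2 d` is not zero, `lf c d q` is
semi-quasi-homogeneous: `u = (x_0, x_1)`, weights `(1, 1)`, `N = 3`, coefficients
`C (c i) + X 2 * C (d i)` and `C (q i)`; the leading form at a point is the binary cubic form, without
critical points outside the origin by `dis_eq_zero_iff`. -/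
theorem good_of_dis (c d : Fin 4 → ℂ) (q : Fin 5 → ℂ) :
    CC.GoodT (lf c d q) {p | p 0 = 0 ∧ p 1 = 0 ∧ eval p (disP c d) ≠ 0} := by
  refine Or.inl (Or.inl ⟨2, 1, 3, by norm_num, fun j => by simp, 1, ![X 0, X 1],
    G3 (fun i => C (c i) + X 2 * C (d i)) + G4 (fun i => C (q i)), ?_, ?_, ?_⟩)
  · simp only [G3, G4, map_add, map_mul, map_pow, eval_X, eval_C, lf, b3, b4, one_mul,
      Matrix.cons_val_zero, Matrix.cons_val_one]
    ring
  · intro v hv
    have h : ∑ j, (1 : Fin 2 → ℕ) j * v j = ∑ j, v j :=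
      Finset.sum_congr rfl fun j _ => by simp
    rw [h]
    rcases Finset.mem_union.1 (support_add hv) with h1 | h1
    · rw [deg_of_hom (G3_hom _) h1]
    · rw [deg_of_hom (G4_hom _) h1]
      norm_num
  · rintro p ⟨hp0, hp1, hp2⟩
    refine ⟨by simp, ?_, ?_, ?_⟩
    · intro j
      fin_cases j
      · simpa using hp0
      · simpa using hp1
    · rw [Fintype.linearIndependent_iff]
      intro g hg
      have e0 := congrFun hg 0
      have e1 := congrFun hg 1
      have h01 : pderiv (0 : Fin 3) (X 1 : MvPolynomial (Fin 3) ℂ) = 0 :=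
        pderiv_X_of_ne (by decide)
      have h10 : pderiv (1 : Fin 3) (X 0 : MvPolynomial (Fin 3) ℂ) = 0 :=
        pderiv_X_of_ne (by decide)
      simp only [Fin.sum_univ_two, Pi.add_apply, Pi.smul_apply, smul_eq_mul,
        Matrix.cons_val_zero, Matrix.cons_val_one, pderiv_X_self, h01, h10, map_one, map_zero,
        mul_one, mul_zero, add_zero, zero_add, Pi.zero_apply] at e0 e1
      intro i
      fin_cases i
      · exact e0
      · exact e1
    · intro y hy
      have e : map (eval p) (G3 (fun i => C (c i) + X 2 * C (d i)) +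
          G4 (fun i => (C (q i) : MvPolynomial (Fin 3) ℂ))) = G3 (c + p 2 • d) + G4 q := by
        rw [map_add, map_G3, map_G4]
        congr 1
        · congr 1
          funext i
          simp
        · congr 1
          funext i
          simp
      rw [e, comp3]
      by_contra hcon
      push Not at hcon
      have hx := hcon 0
      have hy' := hcon 1
      rw [eval_dx] at hx
      rw [eval_dy] at hy'
      refine hp2 ?_
      rw [eval_disP, dis_eq_zero_iff]
      refine ⟨y 0, y 1, ?_, hx, hy'⟩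
      by_contra h
      push Not at h
      apply hy
      funext j
      fin_cases j
      · exact h.1
      · exact h.2

/-- The set is constructible, and its complement in the line is finite if the discriminant is not
identically zero. -/
theorem cov_of_dis {c d : Fin 4 → ℂ} {q : Fin 5 → ℂ} (hl : Loc (lf c d q)) {t : ℂ}
    (ht : dis (c + t • d) ≠ 0) : Cov (lf c d q) {p | p 0 = 0 ∧ p 1 = 0} := by
  have hc : IsConstr {p : Fin 3 → ℂ | p 0 = 0 ∧ p 1 = 0 ∧ eval p (disP c d) ≠ 0} := by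
    have h0 : IsConstr {p : Fin 3 → ℂ | p 0 = 0} := by
      have := isConstr_eq_zero (X 0 : MvPolynomial (Fin 3) ℂ)
      simpa using this
    have h1 : IsConstr {p : Fin 3 → ℂ | p 1 = 0} := by
      have := isConstr_eq_zero (X 1 : MvPolynomial (Fin 3) ℂ)
      simpa using this
    exact isConstr_setOf_and h0 (isConstr_setOf_and h1 (isConstr_ne_zero _))
  set P : Polynomial ℂ := aeval (fun _ : Fin 3 => (Polynomial.X : Polynomial ℂ)) (disP c d) with hP
  have hPe : ∀ s : ℂ, P.eval s = dis (c + s • d) := by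
    intro s
    have h2 : (Polynomial.evalRingHom s) P = eval (fun _ : Fin 3 => s) (disP c d) := by
      have e : (Polynomial.evalRingHom s).comp
          (aeval (fun _ : Fin 3 => (Polynomial.X : Polynomial ℂ)) :
            MvPolynomial (Fin 3) ℂ →ₐ[ℂ] Polynomial ℂ).toRingHom = eval (fun _ => s) := by
        refine ringHom_ext (fun r => ?_) (fun i => ?_)
        · simp
        · simp
      exact RingHom.congr_fun e _
    have h3 := eval_disP c d (fun _ : Fin 3 => s)
    rw [← h3, ← h2]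
    rfl
  have hP0 : P ≠ 0 := by
    intro h
    apply ht
    rw [← hPe t, h, Polynomial.eval_zero]
  have hfin : ({p : Fin 3 → ℂ | p 0 = 0 ∧ p 1 = 0 ∧ eval p (disP c d) = 0}).Finite := by
    refine (P.roots.toFinset.finite_toSet.image fun s => ![0, 0, s]).subset ?_
    rintro p ⟨hp0, hp1, hp2⟩
    refine ⟨p 2, ?_, ?_⟩
    · rw [Finset.mem_coe, Multiset.mem_toFinset, Polynomial.mem_roots hP0, Polynomial.IsRoot, hPe,
        ← eval_disP, hp2]
    · funext i
      fin_cases i
      · exact hp0.symm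
      · exact hp1.symm
      · rfl
  refine ((Cov.one hc (good_of_dis c d q)).union (Cov.finite hl hfin ?_)).mono ?_
  · rintro p ⟨hp0, hp1, -⟩
    exact line_sub_Tr c d q hp0 hp1
  · rintro p ⟨hp0, hp1⟩
    by_cases h : eval p (disP c d) = 0
    · exact Or.inr ⟨hp0, hp1, h⟩
    · exact Or.inl ⟨hp0, hp1, h⟩

end QG

end MPb07157
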