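import Pool.Agent.Lib.MP_b07157_agQG.Defs
import Pool.Agent.Lib.MP_b07157_agU.Bridge

/-!
# A triple line with a common double factor
-/

noncomputable section

namespace MPb07157

open MvPolynomial

namespace QG

/-- The polynomial `B x_0² x_1 + A x_0³ + b4 q` with `A`, `B` affine in `x_2`. -/
def df (α₁ α₂ β₁ β₂ : ℂ) (q : Fin 5 → ℂ) : MvPolynomial (Fin 3) ℂ :=
  (C β₁ + X 2 * C β₂) * (X 0 ^ 2 * X 1) + (C α₁ + X 2 * C α₂) * X 0 ^ 3 + b4 q

namespace L2

theorem smcLoc_two (f : MvPolynomial (Fin 2) ℂ) (hf : f ≠ 0) (h0 : coeff 0 f = 0) : SmcLoc f :=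
  SU.smcLoc_corank hf h0 (by omega)

theorem smcLoc_one (f : MvPolynomial (Fin 1) ℂ) (hf : f ≠ 0) (h0 : coeff 0 f = 0) : SmcLoc f :=
  SU.smcLoc_corank hf h0 (by omega)

theorem mono_eq {R : Type*} [CommSemiring R] (c : R) (a b : ℕ) :
    (C c * (X 0 ^ a * X 1 ^ b) : MvPolynomial (Fin 2) R) =
      monomial (Finsupp.single 0 a + Finsupp.single 1 b) c := by
  rw [X_pow_eq_monomial, X_pow_eq_monomial, monomial_mul, C_mul_monomial]
  simp

theorem wt (w : Fin 2 → ℕ) (a b : ℕ) :
    Finsupp.weight w (Finsupp.single (0 : Fin 2) a + Finsupp.single 1 b) = w 0 * a + w 1 * b := by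
  rw [map_add, Finsupp.weight_single, Finsupp.weight_single]
  simp [mul_comm]

theorem whc_mono (w : Fin 2 → ℕ) (N : ℕ) (c : ℂ) (a b : ℕ) :
    weightedHomogeneousComponent w N (C c * (X 0 ^ a * X 1 ^ b) : MvPolynomial (Fin 2) ℂ) =
      if w 0 * a + w 1 * b = N then C c * (X 0 ^ a * X 1 ^ b) else 0 := by
  have h : IsWeightedHomogeneous w (C c * (X 0 ^ a * X 1 ^ b) : MvPolynomial (Fin 2) ℂ)
      (w 0 * a + w 1 * b) := by
    rw [mono_eq]
    exact isWeightedHomogeneous_monomial w _ _ (wt w a b)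
  split_ifs with h1
  · rw [← h1]
    exact h.weightedHomogeneousComponent_same
  · exact h.weightedHomogeneousComponent_ne N (fun h2 => h1 h2.symm)

theorem d0 (c : ℂ) (a b : ℕ) (Y : Fin 2 → ℂ) :
    eval Y (pderiv 0 (C c * (X 0 ^ a * X 1 ^ b) : MvPolynomial (Fin 2) ℂ)) =
      c * (a * Y 0 ^ (a - 1) * Y 1 ^ b) := by
  have h : (pderiv 0 (C c * (X 0 ^ a * X 1 ^ b) : MvPolynomial (Fin 2) ℂ)) =
      C c * (X 1 ^ b * (((a : ℕ) : MvPolynomial (Fin 2) ℂ) * X 0 ^ (a - 1))) := by
    simp [Derivation.leibniz, Derivation.leibniz_pow, pderiv_X, Pi.single_apply]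
  rw [h]
  simp
  left
  ring

theorem d1 (c : ℂ) (a b : ℕ) (Y : Fin 2 → ℂ) :
    eval Y (pderiv 1 (C c * (X 0 ^ a * X 1 ^ b) : MvPolynomial (Fin 2) ℂ)) =
      c * (Y 0 ^ a * (b * Y 1 ^ (b - 1))) := by
  have h : (pderiv 1 (C c * (X 0 ^ a * X 1 ^ b) : MvPolynomial (Fin 2) ℂ)) =
      C c * (X 0 ^ a * (((b : ℕ) : MvPolynomial (Fin 2) ℂ) * X 1 ^ (b - 1))) := by
    simp [Derivation.leibniz, Derivation.leibniz_pow, pderiv_X, Pi.single_apply]
  rw [h]
  simp

theorem sqh_two {f : MvPolynomial (Fin 3) ℂ} {W : Set (Fin 3 → ℂ)} {m : ℕ}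
    (c : Fin m → MvPolynomial (Fin 3) ℂ) (a b : Fin m → ℕ) (w0 w1 N : ℕ)
    (hw : 0 < w0 ∧ w0 < N ∧ 0 < w1 ∧ w1 < N)
    (hf : f = ∑ i, c i * (X 0 ^ a i * X 1 ^ b i)) (hN : ∀ i, N ≤ w0 * a i + w1 * b i)
    (hW : ∀ p ∈ W, p 0 = 0 ∧ p 1 = 0)
    (hcrit : ∀ p ∈ W, ∀ x y : ℂ,
      (∑ i, if w0 * a i + w1 * b i = N then eval p (c i) * (a i * x ^ (a i - 1) * y ^ b i) else 0)
        = 0 →
      (∑ i, if w0 * a i + w1 * b i = N then eval p (c i) * (x ^ a i * (b i * y ^ (b i - 1))) else 0)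
        = 0 → x = 0 ∧ y = 0) :
    SqhAlong f W ![w0, w1] N := by
  classical
  refine ⟨by omega, fun j => ?_, 1, ![X 0, X 1],
    ∑ i, C (c i) * (X 0 ^ a i * X 1 ^ b i), ?_, ?_, ?_⟩
  · fin_cases j
    · exact ⟨hw.1, hw.2.1⟩
    · exact ⟨hw.2.2.1, hw.2.2.2⟩
  · rw [one_mul, hf]
    simp [map_sum]
  · intro v hv
    obtain ⟨i, -, hi⟩ := Finset.mem_biUnion.1 (support_sum hv)
    rw [mono_eq] at hi
    have h1 := support_monomial_subset hi
    rw [Finset.mem_singleton] at h1
    subst h1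
    have := hN i
    simpa [Fin.sum_univ_two] using this
  · intro p hp
    obtain ⟨hp0, hp1⟩ := hW p hp
    refine ⟨by simp, fun j => ?_, ?_, fun Y hY => ?_⟩
    · fin_cases j
      · simpa using hp0
      · simpa using hp1
    · rw [Fintype.linearIndependent_iff]
      intro g hg j
      have h0 := congrFun hg 0
      have h1 := congrFun hg 1
      simp [Fin.sum_univ_two, pderiv_X, Pi.single_apply] at h0 h1
      fin_cases j
      · simpa using h0
      · simpa using h1
    · by_contra hcon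
      push Not at hcon
      have hg : weightedHomogeneousComponent ![w0, w1] N (map (eval p)
          (∑ i, C (c i) * (X 0 ^ a i * X 1 ^ b i))) =
          ∑ i, if w0 * a i + w1 * b i = N then
            C (eval p (c i)) * (X 0 ^ a i * X 1 ^ b i : MvPolynomial (Fin 2) ℂ) else 0 := by
        rw [map_sum, map_sum]
        refine Finset.sum_congr rfl fun i _ => ?_
        have hm : map (eval p) (C (c i) * (X 0 ^ a i * X 1 ^ b i) :
            MvPolynomial (Fin 2) (MvPolynomial (Fin 3) ℂ)) =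
            C (eval p (c i)) * (X 0 ^ a i * X 1 ^ b i) := by
          simp
        rw [hm, whc_mono]
        rfl
      rw [hg] at hcon
      have h0 := hcon 0
      have h1 := hcon 1
      rw [map_sum, map_sum] at h0 h1
      have h2 := hcrit p hp (Y 0) (Y 1) (by
        refine Eq.trans ?_ h0
        refine Finset.sum_congr rfl fun i _ => ?_
        split_ifs
        · rw [d0]
        · rw [map_zero, map_zero]) (by
        refine Eq.trans ?_ h1
        refine Finset.sum_congr rfl fun i _ => ?_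
        split_ifs
        · rw [d1]
        · rw [map_zero, map_zero])
      apply hY
      funext j
      fin_cases j
      · exact h2.1
      · exact h2.2

end L2

open L2 in
/-- **The part `B ≠ 0` of the line** `x_0 = x_1 = 0`, `B = β₁ + x_2 β₂`. If `q_4 ≠ 0`: `SqhAlong` with
`u = (x_0, x_1)`, weights `(3, 2)`, `N = 8`, leading form `B x² y + q_4 y⁴` (all other terms have weight
`≥ 9`). If `q_4 = 0`, `q_3 ≠ 0`: weights `(2, 1)`, `N = 5`, leading form `B x² y + q_3 x y³`. If
`q_3 = q_4 = 0`: `df = x_0² h`, `h = B x_1 + A x_0 + q_2 x_1² + q_1 x_0 x_1 + q_0 x_0²`, `TrivAlong` with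
`u = (x_0, h)` and the germ `X_0² X_1` in two variables (`SU.smcLoc_corank`, agU/Bridge). -/
theorem good_B (α₁ α₂ β₁ β₂ : ℂ) (q : Fin 5 → ℂ) :
    CC.GoodT (df α₁ α₂ β₁ β₂ q) {p | p 0 = 0 ∧ p 1 = 0 ∧ β₁ + p 2 * β₂ ≠ 0} := by
  by_cases h4 : q 4 = 0
  · by_cases h3 : q 3 = 0
    · right
      refine ⟨2, X 0 ^ 2 * X 1, smcLoc_two _, ![X 0, (C β₁ + X 2 * C β₂) * X 1 +
        (C α₁ + X 2 * C α₂) * X 0 + C (q 2) * X 1 ^ 2 + C (q 1) * (X 0 * X 1) + C (q 0) * X 0 ^ 2],
        1, 1, 1, fun x _ => ?_, ?_⟩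
      · simp [df, b4, h3, h4]
        ring
      · rintro p ⟨hp0, hp1, hp⟩
        refine ⟨by simp, by simp, by simp, fun j => ?_, ?_⟩
        · fin_cases j
          · simpa using hp0
          · simp [hp0, hp1]
        · rw [Fintype.linearIndependent_iff]
          intro g hg
          have e0 := congrFun hg 0
          have e1 := congrFun hg 1
          simp [Fin.sum_univ_two, pderiv_X, Pi.single_apply, hp0, hp1, Derivation.leibniz,
            Derivation.leibniz_pow] at e0 e1
          have hg1 : g 1 = 0 := by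
            rcases e1 with h | h
            · exact h
            · exact absurd h hp
          intro j
          fin_cases j
          · rw [hg1] at e0
            simpa using e0
          · exact hg1
    · left; left
      refine ⟨2, ![2, 1], 5, sqh_two (m := 6)
        ![C β₁ + X 2 * C β₂, C α₁ + X 2 * C α₂, C (q 0), C (q 1), C (q 2), C (q 3)]
        ![2, 3, 4, 3, 2, 1] ![1, 0, 0, 1, 2, 3] 2 1 5 (by norm_num) ?_ ?_ (fun p hp => ⟨hp.1, hp.2.1⟩)
        ?_⟩
      · simp [Fin.sum_univ_succ, df, b4, h4]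
        ring
      · intro i
        fin_cases i <;> norm_num
      · rintro p ⟨hp0, hp1, hp⟩ x y h0 h1
        simp [Fin.sum_univ_succ] at h0 h1
        have h5 : q 3 * (x * y ^ 3) = 0 := by linear_combination (2 * y * h1 - x * h0) / 5
        rcases mul_eq_zero.1 ((mul_eq_zero.1 h5).resolve_left h3) with h6 | h6
        · subst h6
          have h7 : q 3 * y ^ 3 = 0 := by linear_combination h0
          exact ⟨rfl, pow_eq_zero_iff three_ne_zero |>.1 ((mul_eq_zero.1 h7).resolve_left h3)⟩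
        · have h6' := pow_eq_zero_iff three_ne_zero |>.1 h6
          subst h6'
          have h7 : (β₁ + p 2 * β₂) * x ^ 2 = 0 := by linear_combination h1
          exact ⟨pow_eq_zero_iff two_ne_zero |>.1 ((mul_eq_zero.1 h7).resolve_left hp), rfl⟩
  · left; left
    refine ⟨2, ![3, 2], 8, sqh_two (m := 7)
      ![C β₁ + X 2 * C β₂, C α₁ + X 2 * C α₂, C (q 0), C (q 1), C (q 2), C (q 3), C (q 4)]
      ![2, 3, 4, 3, 2, 1, 0] ![1, 0, 0, 1, 2, 3, 4] 3 2 8 (by norm_num) ?_ ?_
      (fun p hp => ⟨hp.1, hp.2.1⟩) ?_⟩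
    · simp [Fin.sum_univ_succ, df, b4]
      ring
    · intro i
      fin_cases i <;> norm_num
    · rintro p ⟨hp0, hp1, hp⟩ x y h0 h1
      simp [Fin.sum_univ_succ] at h0 h1
      rcases h0.resolve_left hp with h6 | h6
      · subst h6
        have h7 : q 4 * y ^ 3 = 0 := by linear_combination h1 / 4
        exact ⟨rfl, pow_eq_zero_iff three_ne_zero |>.1 ((mul_eq_zero.1 h7).resolve_left h4)⟩
      · subst h6
        have h7 : (β₁ + p 2 * β₂) * x ^ 2 = 0 := by linear_combination h1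
        exact ⟨pow_eq_zero_iff two_ne_zero |>.1 ((mul_eq_zero.1 h7).resolve_left hp), rfl⟩

open L2 in
/-- **The part `A ≠ 0` of the line, if `B = 0`.** If `q_4 ≠ 0`: weights `(4, 3)`, `N = 12`, leading form
`A x³ + q_4 y⁴`. If `q_4 = 0`, `q_3 ≠ 0`: weights `(3, 2)`, `N = 9`, leading form `A x³ + q_3 x y³`. If
`q_3 = q_4 = 0`, `q_2 ≠ 0`: with `U = A + q_1 x_1 + q_0 x_0`, `df = x_0² (x_0 U + q_2 x_1²)`, and
`U² df = q_2³ g(u_0, x_1)`, `g = X_0³ + X_0² X_1²`, `u_0 = x_0 U / q_2`: `TrivAlong`. If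
`q_2 = q_3 = q_4 = 0`: `df = x_0³ U`: `TrivAlong` with `X_0³` in one variable. -/
theorem good_A (α₁ α₂ : ℂ) (q : Fin 5 → ℂ) :
    CC.GoodT (df α₁ α₂ 0 0 q) {p | p 0 = 0 ∧ p 1 = 0 ∧ α₁ + p 2 * α₂ ≠ 0} := by
  by_cases h4 : q 4 = 0
  · by_cases h3 : q 3 = 0
    · by_cases h2 : q 2 = 0
      · right
        refine ⟨1, X 0 ^ 3, smcLoc_one _, ![X 0], 1, C α₁ + X 2 * C α₂ + C (q 1) * X 1 +
          C (q 0) * X 0, 1, fun x _ => ?_, ?_⟩
        · simp [df, b4, h2, h3, h4]
          ring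
        · rintro p ⟨hp0, hp1, hp⟩
          refine ⟨by simp, by simpa [hp0, hp1] using hp, by simp, fun j => ?_, ?_⟩
          · fin_cases j
            simpa using hp0
          · rw [Fintype.linearIndependent_iff]
            intro g hg j
            have e0 := congrFun hg 0
            simp [pderiv_X, Pi.single_apply] at e0
            fin_cases j
            simpa using e0
      · right
        refine ⟨2, X 0 ^ 3 + X 0 ^ 2 * X 1 ^ 2, smcLoc_two _,
          ![C (q 2)⁻¹ * X 0 * (C α₁ + X 2 * C α₂ + C (q 1) * X 1 + C (q 0) * X 0), X 1],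
          (C α₁ + X 2 * C α₂ + C (q 1) * X 1 + C (q 0) * X 0) ^ 2, C (q 2) ^ 3, 1,
          fun x _ => ?_, ?_⟩
        · simp [df, b4, h3, h4]
          field_simp
          ring
        · rintro p ⟨hp0, hp1, hp⟩
          refine ⟨by simpa [hp0, hp1] using hp, by simpa using h2, by simp, fun j => ?_, ?_⟩
          · fin_cases j
            · simp [hp0]
            · simpa using hp1
          · rw [Fintype.linearIndependent_iff]
            intro g hg
            have e0 := congrFun hg 0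
            have e1 := congrFun hg 1
            simp [Fin.sum_univ_two, pderiv_X, Pi.single_apply, hp0, hp1, Derivation.leibniz,
              Derivation.leibniz_pow] at e0 e1
            have e0' : g 0 = 0 := by
              rcases e0 with h | h | h
              · exact h
              · exact absurd h hp
              · exact absurd h h2
            intro j
            fin_cases j
            · exact e0'
            · exact e1
    · left; left
      refine ⟨2, ![3, 2], 9, sqh_two (m := 5)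
        ![C α₁ + X 2 * C α₂, C (q 0), C (q 1), C (q 2), C (q 3)]
        ![3, 4, 3, 2, 1] ![0, 0, 1, 2, 3] 3 2 9 (by norm_num) ?_ ?_ (fun p hp => ⟨hp.1, hp.2.1⟩)
        ?_⟩
      · simp [Fin.sum_univ_succ, df, b4, h4]
        ring
      · intro i
        fin_cases i <;> norm_num
      · rintro p ⟨hp0, hp1, hp⟩ x y h0 h1
        simp [Fin.sum_univ_succ] at h0 h1
        rcases h1.resolve_left h3 with h6 | h6
        · subst h6
          have h7 : q 3 * y ^ 3 = 0 := by linear_combination h0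
          exact ⟨rfl, pow_eq_zero_iff three_ne_zero |>.1 ((mul_eq_zero.1 h7).resolve_left h3)⟩
        · subst h6
          have h7 : (α₁ + p 2 * α₂) * x ^ 2 = 0 := by linear_combination h0 / 3
          exact ⟨pow_eq_zero_iff two_ne_zero |>.1 ((mul_eq_zero.1 h7).resolve_left hp), rfl⟩
  · left; left
    refine ⟨2, ![4, 3], 12, sqh_two (m := 6)
      ![C α₁ + X 2 * C α₂, C (q 0), C (q 1), C (q 2), C (q 3), C (q 4)]
      ![3, 4, 3, 2, 1, 0] ![0, 0, 1, 2, 3, 4] 4 3 12 (by norm_num) ?_ ?_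
      (fun p hp => ⟨hp.1, hp.2.1⟩) ?_⟩
    · simp [Fin.sum_univ_succ, df, b4]
      ring
    · intro i
      fin_cases i <;> norm_num
    · rintro p ⟨hp0, hp1, hp⟩ x y h0 h1
      simp [Fin.sum_univ_succ] at h0 h1
      exact ⟨h0.resolve_left hp, h1.resolve_left h4⟩

end QG

end MPb07157
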