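import Pool.Agent.Lib.MP_b07157_agQG.L2

/-!
# A triple line with a common double factor, covering
-/

noncomputable section

namespace MPb07157

open MvPolynomial

namespace QG

namespace L3

theorem mem_Tr_cube {p : Fin 3 → ℂ} {u v w : MvPolynomial (Fin 3) ℂ} (A : MvPolynomial (Fin 3) ℂ)
    (hu : eval p u = 0) (hv : eval p v = 0) (hw : eval p w = 0) : p ∈ Tr (u * v * w * A) := by
  refine ⟨?_, fun i => ?_, fun i j => ?_⟩
  · simp only [map_mul, hu, zero_mul]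
  · simp only [pderiv_mul, map_add, map_mul, hu, hv, hw, zero_mul, mul_zero, add_zero]
  · simp only [pderiv_mul, map_add, map_mul, hu, hv, hw, zero_mul, mul_zero, add_zero]

theorem mem_Tr_add {p : Fin 3 → ℂ} {g h : MvPolynomial (Fin 3) ℂ} (hg : p ∈ Tr g)
    (hh : p ∈ Tr h) : p ∈ Tr (g + h) := by
  refine ⟨?_, fun i => ?_, fun i j => ?_⟩
  · rw [map_add, hg.1, hh.1, add_zero]
  · rw [map_add, map_add, hg.2.1, hh.2.1, add_zero]
  · rw [map_add, map_add, map_add, hg.2.2, hh.2.2, add_zero]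

theorem third_quad {p : Fin 3 → ℂ} {u v w z : MvPolynomial (Fin 3) ℂ}
    (A : MvPolynomial (Fin 3) ℂ) (hu : eval p u = 0) (hv : eval p v = 0) (hw : eval p w = 0)
    (hz : eval p z = 0) (i j k : Fin 3) :
    eval p (pderiv i (pderiv j (pderiv k (u * v * w * z * A)))) = 0 := by
  simp only [pderiv_mul, map_add, map_mul, hu, hv, hw, hz, zero_mul, mul_zero, add_zero]

theorem df_eq (α₁ α₂ β₁ β₂ : ℂ) (q : Fin 5 → ℂ) : df α₁ α₂ β₁ β₂ q =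
    X 0 * X 0 * X 1 * (C β₁ + X 2 * C β₂ + C (q 2) * X 1 + C (q 1) * X 0) +
      X 0 * X 0 * X 0 * (C α₁ + X 2 * C α₂ + C (q 0) * X 0) +
      X 1 * X 1 * X 1 * (C (q 3) * X 0 + C (q 4) * X 1) := by
  unfold df b4
  ring

theorem mem_Tr {α₁ α₂ β₁ β₂ : ℂ} {q : Fin 5 → ℂ} {p : Fin 3 → ℂ} (h0 : p 0 = 0)
    (h1 : p 1 = 0) : p ∈ Tr (df α₁ α₂ β₁ β₂ q) := by
  have e0 : eval p (X 0 : MvPolynomial (Fin 3) ℂ) = 0 := by rw [eval_X, h0]
  have e1 : eval p (X 1 : MvPolynomial (Fin 3) ℂ) = 0 := by rw [eval_X, h1]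
  rw [df_eq]
  exact mem_Tr_add (mem_Tr_add (mem_Tr_cube _ e0 e0 e1) (mem_Tr_cube _ e0 e0 e0))
    (mem_Tr_cube _ e1 e1 e1)

theorem third_b4 (q : Fin 5 → ℂ) {p : Fin 3 → ℂ} (h0 : p 0 = 0) (h1 : p 1 = 0)
    (i j k : Fin 3) : eval p (pderiv i (pderiv j (pderiv k (df 0 0 0 0 q)))) = 0 := by
  have e0 : eval p (X 0 : MvPolynomial (Fin 3) ℂ) = 0 := by rw [eval_X, h0]
  have e1 : eval p (X 1 : MvPolynomial (Fin 3) ℂ) = 0 := by rw [eval_X, h1]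
  have h : df 0 0 0 0 q = X 0 * X 0 * X 0 * X 0 * C (q 0) + X 0 * X 0 * X 0 * X 1 * C (q 1) +
      X 0 * X 0 * X 1 * X 1 * C (q 2) + X 0 * X 1 * X 1 * X 1 * C (q 3) +
      X 1 * X 1 * X 1 * X 1 * C (q 4) := by
    unfold df b4
    rw [C_0]
    ring
  rw [h]
  simp only [map_add]
  rw [third_quad _ e0 e0 e0 e0, third_quad _ e0 e0 e0 e1, third_quad _ e0 e0 e1 e1,
    third_quad _ e0 e1 e1 e1, third_quad _ e1 e1 e1 e1]
  simp

theorem isConstr_W (a b : ℂ) : IsConstr {p : Fin 3 → ℂ | p 0 = 0 ∧ p 1 = 0 ∧ a + p 2 * b ≠ 0} := by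
  have h := (IsConstr.zeros (X 0 : MvPolynomial (Fin 3) ℂ)).inter
    ((IsConstr.zeros (X 1 : MvPolynomial (Fin 3) ℂ)).inter
      (IsConstr.zeros (C a + X 2 * C b : MvPolynomial (Fin 3) ℂ)).compl)
  have h2 : {p : Fin 3 → ℂ | p 0 = 0 ∧ p 1 = 0 ∧ a + p 2 * b ≠ 0} =
      {x : Fin 3 → ℂ | eval x (X 0 : MvPolynomial (Fin 3) ℂ) = 0} ∩
        ({x : Fin 3 → ℂ | eval x (X 1 : MvPolynomial (Fin 3) ℂ) = 0} ∩
          {x : Fin 3 → ℂ | eval x (C a + X 2 * C b : MvPolynomial (Fin 3) ℂ) = 0}ᶜ) := by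
    ext p
    simp
  rw [h2]
  exact h

theorem finite_rest {a b : ℂ} (h : a ≠ 0 ∨ b ≠ 0) :
    {p : Fin 3 → ℂ | p 0 = 0 ∧ p 1 = 0 ∧ a + p 2 * b = 0}.Finite := by
  by_cases hb : b = 0
  · have ha : a ≠ 0 := h.resolve_right fun h' => h' hb
    refine Set.finite_empty.subset ?_
    rintro p ⟨-, -, hp⟩
    rw [hb, mul_zero, add_zero] at hp
    exact ha hp
  · refine (Set.finite_singleton (![0, 0, -a / b] : Fin 3 → ℂ)).subset ?_
    rintro p ⟨h0, h1, hp⟩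
    have h2 : p 2 = -a / b := by
      rw [eq_div_iff hb]
      linear_combination hp
    rw [Set.mem_singleton_iff]
    funext i
    fin_cases i
    · exact h0
    · exact h1
    · exact h2

theorem cov {g : MvPolynomial (Fin 3) ℂ} (hl : Loc g)
    (hS : ∀ p : Fin 3 → ℂ, p 0 = 0 → p 1 = 0 → p ∈ Tr g) {a b : ℂ} (h : a ≠ 0 ∨ b ≠ 0)
    (hg : CC.GoodT g {p | p 0 = 0 ∧ p 1 = 0 ∧ a + p 2 * b ≠ 0}) :
    Cov g {p | p 0 = 0 ∧ p 1 = 0} := by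
  refine ((Cov.one (isConstr_W a b) hg).union (Cov.finite hl (finite_rest h)
    fun p hp => hS p hp.1 hp.2.1)).mono ?_
  rintro p ⟨h0, h1⟩
  by_cases hp : a + p 2 * b = 0
  · exact Or.inr ⟨h0, h1, hp⟩
  · exact Or.inl ⟨h0, h1, hp⟩

end L3

/-- **The covering of the line.** If `(β₁, β₂) ≠ 0`: the set of `good_B` is constructible and its
complement in the line has at most one point, in `Tr`. If `β₁ = β₂ = 0` and `(α₁, α₂) ≠ 0`: the same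
with `good_A`. If all are zero: the points of the line have multiplicity four, a contradiction to
`NoQ`. -/
theorem cov_df {α₁ α₂ β₁ β₂ : ℂ} {q : Fin 5 → ℂ} (hq : NoQ (df α₁ α₂ β₁ β₂ q))
    (hl : Loc (df α₁ α₂ β₁ β₂ q)) : Cov (df α₁ α₂ β₁ β₂ q) {p | p 0 = 0 ∧ p 1 = 0} := by
  by_cases hβ : β₁ ≠ 0 ∨ β₂ ≠ 0
  · exact L3.cov hl (fun p h0 h1 => L3.mem_Tr h0 h1) hβ (good_B α₁ α₂ β₁ β₂ q)
  · push Not at hβ
    obtain ⟨rfl, rfl⟩ := hβ
    by_cases hα : α₁ ≠ 0 ∨ α₂ ≠ 0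
    · exact L3.cov hl (fun p h0 h1 => L3.mem_Tr h0 h1) hα (good_A α₁ α₂ q)
    · push Not at hα
      obtain ⟨rfl, rfl⟩ := hα
      exfalso
      obtain ⟨i, j, k, h⟩ := hq 0 (L3.mem_Tr rfl rfl)
      exact h (L3.third_b4 q rfl rfl i j k)

end QG

end MPb07157
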