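import Pool.Agent.Lib.MP_b07157_agQG.L1
import Pool.Agent.Lib.MP_b07157_agQG.L3
import Pool.Agent.Lib.MP_b07157_agQG.A2

/-!
# The covering of a triple line
-/

noncomputable section

namespace MPb07157

open MvPolynomial

namespace QG

/-! ### Helper lemmas -/

/-- The cubic form in the new coordinates `y X - x Y`, `Y`. -/
private theorem L4.cubicY {c : Fin 4 → ℂ} {x y : ℂ} (hy : y ≠ 0) (h1 : dx c x y = 0)
    (h2 : dy c x y = 0) (X Y : ℂ) :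
    c 0 * X ^ 3 + c 1 * (X ^ 2 * Y) + c 2 * (X * Y ^ 2) + c 3 * Y ^ 3 =
      (3 * c 0 * x + c 1 * y) / y ^ 3 * ((y * X - x * Y) ^ 2 * Y) +
        c 0 / y ^ 3 * (y * X - x * Y) ^ 3 := by
  rw [dx] at h1
  rw [dy] at h2
  field_simp
  linear_combination ((y * X - x * Y) * Y ^ 2 + x * Y ^ 3 / 3) * h1 + (y * Y ^ 3 / 3) * h2

/-- The cubic form in the new coordinates `y X - x Y`, `X`. -/
private theorem L4.cubicX {c : Fin 4 → ℂ} {x y : ℂ} (hx : x ≠ 0) (h1 : dx c x y = 0)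
    (h2 : dy c x y = 0) (X Y : ℂ) :
    c 0 * X ^ 3 + c 1 * (X ^ 2 * Y) + c 2 * (X * Y ^ 2) + c 3 * Y ^ 3 =
      (c 2 * x + 3 * c 3 * y) / x ^ 3 * ((y * X - x * Y) ^ 2 * X) +
        -c 3 / x ^ 3 * (y * X - x * Y) ^ 3 := by
  rw [dx] at h1
  rw [dy] at h2
  field_simp
  linear_combination (x * X ^ 3 / 3) * h1 + (y * X ^ 3 / 3 - (y * X - x * Y) * X ^ 2) * h2

private theorem L4.quarticY (q : Fin 5 → ℂ) {x y : ℂ} (hy : y ≠ 0) (X Y : ℂ) :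
    q 0 * X ^ 4 + q 1 * (X ^ 3 * Y) + q 2 * (X ^ 2 * Y ^ 2) + q 3 * (X * Y ^ 3) + q 4 * Y ^ 4 =
      q 0 / y ^ 4 * (y * X - x * Y) ^ 4 +
      (4 * q 0 * x + q 1 * y) / y ^ 4 * ((y * X - x * Y) ^ 3 * Y) +
      (6 * q 0 * x ^ 2 + 3 * q 1 * x * y + q 2 * y ^ 2) / y ^ 4 * ((y * X - x * Y) ^ 2 * Y ^ 2) +
      (4 * q 0 * x ^ 3 + 3 * q 1 * x ^ 2 * y + 2 * q 2 * x * y ^ 2 + q 3 * y ^ 3) / y ^ 4 *
        ((y * X - x * Y) * Y ^ 3) +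
      (q 0 * x ^ 4 + q 1 * x ^ 3 * y + q 2 * x ^ 2 * y ^ 2 + q 3 * x * y ^ 3 + q 4 * y ^ 4) /
        y ^ 4 * Y ^ 4 := by
  field_simp
  ring

private theorem L4.quarticX (q : Fin 5 → ℂ) {x y : ℂ} (hx : x ≠ 0) (X Y : ℂ) :
    q 0 * X ^ 4 + q 1 * (X ^ 3 * Y) + q 2 * (X ^ 2 * Y ^ 2) + q 3 * (X * Y ^ 3) + q 4 * Y ^ 4 =
      q 4 / x ^ 4 * (y * X - x * Y) ^ 4 +
      (-(q 3 * x) - 4 * q 4 * y) / x ^ 4 * ((y * X - x * Y) ^ 3 * X) +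
      (q 2 * x ^ 2 + 3 * q 3 * x * y + 6 * q 4 * y ^ 2) / x ^ 4 *
        ((y * X - x * Y) ^ 2 * X ^ 2) +
      (-(q 1 * x ^ 3) - 2 * q 2 * x ^ 2 * y - 3 * q 3 * x * y ^ 2 - 4 * q 4 * y ^ 3) / x ^ 4 *
        ((y * X - x * Y) * X ^ 3) +
      (q 0 * x ^ 4 + q 1 * x ^ 3 * y + q 2 * x ^ 2 * y ^ 2 + q 3 * x * y ^ 3 + q 4 * y ^ 4) /
        x ^ 4 * X ^ 4 := by
  field_simp
  ring

/-- A linear change of `x_0, x_1` which brings a common double factor of `c` and `d` (`common_factor`)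
to `x_0`: `lf c d q = aeval (ac M 0) (df α₁ α₂ β₁ β₂ q')` with `M` of the form
`(* * 0; * * 0; 0 0 1)`. (If `∇c(x,y) = ∇d(x,y) = 0` for `(x, y) ≠ 0`, both forms are divisible by
the square of `y X_0 - x X_1`.) -/
theorem exists_df {c d : Fin 4 → ℂ} (q : Fin 5 → ℂ) {x y : ℂ} (hxy : x ≠ 0 ∨ y ≠ 0)
    (h1 : dx c x y = 0) (h2 : dy c x y = 0) (h3 : dx d x y = 0) (h4 : dy d x y = 0) :
    ∃ (M : Matrix (Fin 3) (Fin 3) ℂ) (α₁ α₂ β₁ β₂ : ℂ) (q' : Fin 5 → ℂ), M.det ≠ 0 ∧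
      (∀ p : Fin 3 → ℂ, p 0 = 0 → p 1 = 0 → M.mulVec p 0 = 0 ∧ M.mulVec p 1 = 0) ∧
      lf c d q = aeval (ac M 0) (df α₁ α₂ β₁ β₂ q') := by
  by_cases hy : y = 0
  · have hx : x ≠ 0 := hxy.resolve_right (fun h => h hy)
    refine ⟨!![y, -x, 0; 1, 0, 0; 0, 0, 1], -c 3 / x ^ 3, -d 3 / x ^ 3,
      (c 2 * x + 3 * c 3 * y) / x ^ 3, (d 2 * x + 3 * d 3 * y) / x ^ 3,
      ![q 4 / x ^ 4, (-(q 3 * x) - 4 * q 4 * y) / x ^ 4,
        (q 2 * x ^ 2 + 3 * q 3 * x * y + 6 * q 4 * y ^ 2) / x ^ 4,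
        (-(q 1 * x ^ 3) - 2 * q 2 * x ^ 2 * y - 3 * q 3 * x * y ^ 2 - 4 * q 4 * y ^ 3) / x ^ 4,
        (q 0 * x ^ 4 + q 1 * x ^ 3 * y + q 2 * x ^ 2 * y ^ 2 + q 3 * x * y ^ 3 + q 4 * y ^ 4) /
          x ^ 4], ?_, ?_, ?_⟩
    · simp [Matrix.det_fin_three, hx]
    · intro p h0 h1
      simp [Matrix.mulVec, dotProduct, Fin.sum_univ_three, h0, h1]
    · refine MvPolynomial.funext fun p => ?_
      have e1 := L4.cubicX hx h1 h2 (p 0) (p 1)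
      have e2 := L4.cubicX hx h3 h4 (p 0) (p 1)
      have e3 := L4.quarticX q (y := y) hx (p 0) (p 1)
      simp only [lf, df, b3, b4, ac, Fin.sum_univ_three, map_add, map_mul, map_pow,
        aeval_X, aeval_C, algebraMap_eq, eval_X, eval_C, Pi.zero_apply, map_zero, sub_zero,
        Matrix.of_apply, Matrix.cons_val, Matrix.cons_val_zero, Matrix.cons_val_one]
      linear_combination e1 + p 2 * e2 + e3
  · refine ⟨!![y, -x, 0; 0, 1, 0; 0, 0, 1], c 0 / y ^ 3, d 0 / y ^ 3,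
      (3 * c 0 * x + c 1 * y) / y ^ 3, (3 * d 0 * x + d 1 * y) / y ^ 3,
      ![q 0 / y ^ 4, (4 * q 0 * x + q 1 * y) / y ^ 4,
        (6 * q 0 * x ^ 2 + 3 * q 1 * x * y + q 2 * y ^ 2) / y ^ 4,
        (4 * q 0 * x ^ 3 + 3 * q 1 * x ^ 2 * y + 2 * q 2 * x * y ^ 2 + q 3 * y ^ 3) / y ^ 4,
        (q 0 * x ^ 4 + q 1 * x ^ 3 * y + q 2 * x ^ 2 * y ^ 2 + q 3 * x * y ^ 3 + q 4 * y ^ 4) /
          y ^ 4], ?_, ?_, ?_⟩
    · simp [Matrix.det_fin_three, hy]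
    · intro p h0 h1
      simp [Matrix.mulVec, dotProduct, Fin.sum_univ_three, h0, h1]
    · refine MvPolynomial.funext fun p => ?_
      have e1 := L4.cubicY hy h1 h2 (p 0) (p 1)
      have e2 := L4.cubicY hy h3 h4 (p 0) (p 1)
      have e3 := L4.quarticY q (x := x) hy (p 0) (p 1)
      simp only [lf, df, b3, b4, ac, Fin.sum_univ_three, map_add, map_mul, map_pow,
        aeval_X, aeval_C, algebraMap_eq, eval_X, eval_C, Pi.zero_apply, map_zero, sub_zero,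
        Matrix.of_apply, Matrix.cons_val, Matrix.cons_val_zero, Matrix.cons_val_one]
      linear_combination e1 + p 2 * e2 + e3

/-- **The covering of a triple line.** -/
theorem cov_lf {c d : Fin 4 → ℂ} {q : Fin 5 → ℂ} (hq : NoQ (lf c d q)) (hl : Loc (lf c d q)) :
    Cov (lf c d q) {p | p 0 = 0 ∧ p 1 = 0} := by
  by_cases h : ∀ t : ℂ, dis (c + t • d) = 0
  · obtain ⟨x, y, hxy, h1, h2, h3, h4⟩ := common_factor h
    obtain ⟨M, α₁, α₂, β₁, β₂, q', hM, hMp, he⟩ := exists_df q hxy h1 h2 h3 h4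
    rw [he] at hq hl ⊢
    refine (Cov.ac hM 0 (cov_df (noQ_ac hM hq) (loc_ac hM hl))).mono ?_
    rintro p ⟨hp0, hp1⟩
    rw [Set.mem_setOf_eq, sub_zero]
    exact hMp p hp0 hp1
  · push Not at h
    obtain ⟨t, ht⟩ := h
    exact cov_of_dis hl ht

end QG

end MPb07157
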