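import Pool.Agent.Lib.MP_b07157_agQG.Fin
import Pool.Agent.Lib.MP_b07157_agQU.Main

/-!
# The strong monodromy conjecture for the polynomials of degree at most four in three variables and
the quartic forms in four variables
-/

noncomputable section

namespace MPb07157

open MvPolynomial

/-- **The strong monodromy conjecture, local version**, for all polynomials of degree at most four
in three variables. -/
theorem SmcLoc.of_deg4 {f : MvPolynomial (Fin 3) ℂ} (hf : f ≠ 0) (h0 : coeff 0 f = 0)
    (hd : f.totalDegree ≤ 4) : SmcLoc f :=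
  QG.smcLoc_deg4 (fun _ h1 h2 h3 h4 => QU.smcLoc_triple h1 h2 h3 h4) hf h0 hd

/-- **The strong monodromy conjecture, global version**, for all polynomials of degree at most four
in three variables. -/
theorem SmcGlob.of_deg4 {f : MvPolynomial (Fin 3) ℂ} (hf : f ≠ 0) (hd : f.totalDegree ≤ 4) :
    SmcGlob f :=
  QG.smcGlob_deg4 (fun _ h1 h2 h3 h4 => QU.smcLoc_triple h1 h2 h3 h4) hf hd

/-- **The strong monodromy conjecture, local version**, for all quartic forms in four variables. -/
theorem SmcLoc.of_quartic {F : MvPolynomial (Fin 4) ℂ} (hF : F ≠ 0) (hh : F.IsHomogeneous 4) :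
    SmcLoc F :=
  QG.smcLoc_quartic (fun _ h1 h2 h3 h4 => QU.smcLoc_triple h1 h2 h3 h4) hF hh

end MPb07157
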