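import Pool.Agent.Lib.MP_b07157_agQG.Defs

/-!
# Pencils of binary cubic forms
-/

noncomputable section

namespace MPb07157

open MvPolynomial

namespace QG

/-- The partial derivatives of the binary cubic form with the coefficients `c`. -/
def dx (c : Fin 4 → ℂ) (x y : ℂ) : ℂ := 3 * c 0 * x ^ 2 + 2 * c 1 * (x * y) + c 2 * y ^ 2

/-- The partial derivatives of the binary cubic form with the coefficients `c`. -/
def dy (c : Fin 4 → ℂ) (x y : ℂ) : ℂ := c 1 * x ^ 2 + 2 * c 2 * (x * y) + 3 * c 3 * y ^ 2

/-- The discriminant. -/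
def dis (c : Fin 4 → ℂ) : ℂ := c 1 ^ 2 * c 2 ^ 2 - 4 * c 0 * c 2 ^ 3 - 4 * c 1 ^ 3 * c 3 -
  27 * c 0 ^ 2 * c 3 ^ 2 + 18 * c 0 * c 1 * c 2 * c 3

/-- a binary quadratic form has a nontrivial zero -/
private theorem exists_zero (p q r : ℂ) :
    ∃ x y : ℂ, (x ≠ 0 ∨ y ≠ 0) ∧ p * x ^ 2 + q * (x * y) + r * y ^ 2 = 0 := by
  by_cases hp : p = 0
  · refine ⟨1, 0, Or.inl one_ne_zero, ?_⟩
    rw [hp]
    ring
  · obtain ⟨s, hs⟩ := IsAlgClosed.exists_pow_nat_eq (discrim p q r) (n := 2) (by norm_num)
    obtain ⟨x, hx⟩ := exists_quadratic_eq_zero hp ⟨s, by rw [← hs]; ring⟩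
    refine ⟨x, 1, Or.inr one_ne_zero, ?_⟩
    linear_combination hx

/-- two binary quadratic forms whose resultant vanishes have a common nontrivial zero -/
private theorem exists_common (p0 p1 p2 q0 q1 q2 : ℂ)
    (h : (p0 * q2 - p2 * q0) ^ 2 = (p0 * q1 - p1 * q0) * (p1 * q2 - p2 * q1)) :
    ∃ x y : ℂ, (x ≠ 0 ∨ y ≠ 0) ∧ p0 * x ^ 2 + p1 * (x * y) + p2 * y ^ 2 = 0 ∧
      q0 * x ^ 2 + q1 * (x * y) + q2 * y ^ 2 = 0 := by
  by_cases hw : p0 * q1 - p1 * q0 = 0 ∧ p1 * q2 - p2 * q1 = 0
  · obtain ⟨h1, h2⟩ := hw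
    have h3 : p0 * q2 - p2 * q0 = 0 := by
      rw [h1, zero_mul] at h
      exact pow_eq_zero_iff (two_ne_zero) |>.1 h
    by_cases hp : p0 = 0 ∧ p1 = 0 ∧ p2 = 0
    · obtain ⟨rfl, rfl, rfl⟩ := hp
      obtain ⟨x, y, hxy, hq⟩ := exists_zero q0 q1 q2
      exact ⟨x, y, hxy, by ring, hq⟩
    · obtain ⟨x, y, hxy, hq⟩ := exists_zero p0 p1 p2
      refine ⟨x, y, hxy, hq, ?_⟩
      have k0 : p0 * (q0 * x ^ 2 + q1 * (x * y) + q2 * y ^ 2) = 0 := by
        linear_combination q0 * hq + (x * y) * h1 + y ^ 2 * h3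
      have k1 : p1 * (q0 * x ^ 2 + q1 * (x * y) + q2 * y ^ 2) = 0 := by
        linear_combination q1 * hq - x ^ 2 * h1 + y ^ 2 * h2
      have k2 : p2 * (q0 * x ^ 2 + q1 * (x * y) + q2 * y ^ 2) = 0 := by
        linear_combination q2 * hq - x ^ 2 * h3 - (x * y) * h2
      by_contra hne
      exact hp ⟨(mul_eq_zero.1 k0).resolve_right hne, (mul_eq_zero.1 k1).resolve_right hne,
        (mul_eq_zero.1 k2).resolve_right hne⟩
  · obtain ⟨x, hx⟩ := IsAlgClosed.exists_pow_nat_eq (p1 * q2 - p2 * q1) (n := 2) (by norm_num)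
    obtain ⟨y, hy⟩ := IsAlgClosed.exists_pow_nat_eq (p0 * q1 - p1 * q0) (n := 2) (by norm_num)
    have hxy2 : (x * y) ^ 2 = (p0 * q2 - p2 * q0) ^ 2 := by
      rw [h, ← hx, ← hy]
      ring
    have hne : x ≠ 0 ∨ y ≠ 0 := by
      by_contra hcon
      push Not at hcon
      obtain ⟨rfl, rfl⟩ := hcon
      refine hw ⟨?_, ?_⟩
      · rw [← hy]; ring
      · rw [← hx]; ring
    rcases sq_eq_sq_iff_eq_or_eq_neg.1 hxy2 with h4 | h4
    · refine ⟨x, -y, ?_, ?_, ?_⟩
      · rcases hne with h5 | h5
        · exact Or.inl h5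
        · exact Or.inr (neg_ne_zero.2 h5)
      · linear_combination p0 * hx - p1 * h4 + p2 * hy
      · linear_combination q0 * hx - q1 * h4 + q2 * hy
    · refine ⟨x, y, hne, ?_, ?_⟩
      · linear_combination p0 * hx + p1 * h4 + p2 * hy
      · linear_combination q0 * hx + q1 * h4 + q2 * hy

/-- A binary cubic form has a multiple factor if and only if its discriminant vanishes. -/
theorem dis_eq_zero_iff (c : Fin 4 → ℂ) :
    dis c = 0 ↔ ∃ x y : ℂ, (x ≠ 0 ∨ y ≠ 0) ∧ dx c x y = 0 ∧ dy c x y = 0 := by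
  constructor
  · intro h
    unfold dis at h
    exact exists_common (3 * c 0) (2 * c 1) (c 2) (c 1) (2 * c 2) (3 * c 3)
      (by linear_combination (-3) * h)
  · rintro ⟨x, y, hne, h1, h2⟩
    unfold dx at h1
    unfold dy at h2
    have e1 : y * ((3 * c 0 * (2 * c 2) - 2 * c 1 * c 1) * x +
        (3 * c 0 * (3 * c 3) - c 2 * c 1) * y) = 0 := by
      linear_combination (3 * c 0) * h2 - c 1 * h1
    have e2 : x * ((3 * c 0 * (3 * c 3) - c 2 * c 1) * x +
        (2 * c 1 * (3 * c 3) - c 2 * (2 * c 2)) * y) = 0 := by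
      linear_combination (3 * c 3) * h1 - c 2 * h2
    by_cases hx : x = 0
    · have hy : y ≠ 0 := by
        rcases hne with h | h
        · exact absurd hx h
        · exact h
      subst hx
      have hy2 : y ^ 2 ≠ 0 := pow_ne_zero 2 hy
      have k2 : c 2 = 0 := by
        have : c 2 * y ^ 2 = 0 := by linear_combination h1
        exact (mul_eq_zero.1 this).resolve_right hy2
      have k3 : c 3 = 0 := by
        have : c 3 * y ^ 2 = 0 := by linear_combination (1 / 3) * h2
        exact (mul_eq_zero.1 this).resolve_right hy2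
      unfold dis
      rw [k2, k3]
      ring
    · by_cases hy : y = 0
      · subst hy
        have hx2 : x ^ 2 ≠ 0 := pow_ne_zero 2 hx
        have k2 : c 0 = 0 := by
          have : c 0 * x ^ 2 = 0 := by linear_combination (1 / 3) * h1
          exact (mul_eq_zero.1 this).resolve_right hx2
        have k3 : c 1 = 0 := by
          have : c 1 * x ^ 2 = 0 := by linear_combination h2
          exact (mul_eq_zero.1 this).resolve_right hx2
        unfold dis
        rw [k2, k3]
        ring
      · have f1 := (mul_eq_zero.1 e1).resolve_left hy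
        have f2 := (mul_eq_zero.1 e2).resolve_left hx
        have : dis c * x = 0 := by
          unfold dis
          linear_combination (1 / 3) * ((2 * c 1 * (3 * c 3) - c 2 * (2 * c 2)) * f1 -
            (3 * c 0 * (3 * c 3) - c 2 * c 1) * f2)
        exact (mul_eq_zero.1 this).resolve_right hx

/-- **Pencils.** If all `c + t d` have a multiple factor, then `c` and `d` have a common one. Proof:
suppose there is no common one. For each `t` choose `v(t) ≠ 0` with `∇c(v) + t ∇d(v) = 0`; a
direction `v` belongs to at most one `t` (otherwise `∇c(v) = ∇d(v) = 0`), so infinitely many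
directions satisfy `∇c(v) ∧ ∇d(v) = 0`, a binary quartic form, which is therefore zero; then `c` and
`d` are proportional (same degree: `c_x d_y = c_y d_x`, Euler), and a multiple factor of `c + t d ≠ 0`
is a common one. -/
theorem common_factor {c d : Fin 4 → ℂ} (h : ∀ t : ℂ, dis (c + t • d) = 0) :
    ∃ x y : ℂ, (x ≠ 0 ∨ y ≠ 0) ∧ dx c x y = 0 ∧ dy c x y = 0 ∧ dx d x y = 0 ∧ dy d x y = 0 := by
  by_contra hno
  have hv : ∀ t : ℂ, ∃ v : ℂ × ℂ, (v.1 ≠ 0 ∨ v.2 ≠ 0) ∧ dx c v.1 v.2 + t * dx d v.1 v.2 = 0 ∧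
      dy c v.1 v.2 + t * dy d v.1 v.2 = 0 := by
    intro t
    obtain ⟨x, y, hne, h1, h2⟩ := (dis_eq_zero_iff _).1 (h t)
    refine ⟨(x, y), hne, ?_, ?_⟩
    · rw [← h1]
      simp only [dx, Pi.add_apply, Pi.smul_apply, smul_eq_mul]
      ring
    · rw [← h2]
      simp only [dy, Pi.add_apply, Pi.smul_apply, smul_eq_mul]
      ring
  choose v hne hvx hvy using hv
  -- directions are distinct
  have hinj : ∀ s t : ℂ, s ≠ t → (v s).1 * (v t).2 ≠ (v t).1 * (v s).2 := by
    intro s t hst hprop
    -- v t = m * v s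
    have hm : ∃ m : ℂ, (v t).1 = m * (v s).1 ∧ (v t).2 = m * (v s).2 := by
      by_cases h1 : (v s).1 = 0
      · have h2 : (v s).2 ≠ 0 := by
          rcases hne s with h | h
          · exact absurd h1 h
          · exact h
        refine ⟨(v t).2 / (v s).2, ?_, by field_simp⟩
        rw [h1, zero_mul] at hprop
        rw [h1, mul_zero]
        exact (mul_eq_zero.1 hprop.symm).resolve_right h2
      · refine ⟨(v t).1 / (v s).1, by field_simp, ?_⟩
        field_simp
        linear_combination hprop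
    obtain ⟨m, hm1, hm2⟩ := hm
    have hm0 : m ≠ 0 := by
      rintro rfl
      rw [zero_mul] at hm1 hm2
      rcases hne t with h | h
      · exact h hm1
      · exact h hm2
    have ex := hvx t
    have ey := hvy t
    rw [hm1, hm2] at ex ey
    have ex' : m ^ 2 * (dx c (v s).1 (v s).2 + t * dx d (v s).1 (v s).2) = 0 := by
      rw [← ex]
      simp only [dx]
      ring
    have ey' : m ^ 2 * (dy c (v s).1 (v s).2 + t * dy d (v s).1 (v s).2) = 0 := by
      rw [← ey]
      simp only [dy]
      ring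
    have hx2 := (mul_eq_zero.1 ex').resolve_left (pow_ne_zero 2 hm0)
    have hy2 := (mul_eq_zero.1 ey').resolve_left (pow_ne_zero 2 hm0)
    have hst' : s - t ≠ 0 := sub_ne_zero.2 hst
    have d1 : dx d (v s).1 (v s).2 = 0 := by
      have : (s - t) * dx d (v s).1 (v s).2 = 0 := by linear_combination hvx s - hx2
      exact (mul_eq_zero.1 this).resolve_left hst'
    have d2 : dy d (v s).1 (v s).2 = 0 := by
      have : (s - t) * dy d (v s).1 (v s).2 = 0 := by linear_combination hvy s - hy2
      exact (mul_eq_zero.1 this).resolve_left hst'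
    have c1 : dx c (v s).1 (v s).2 = 0 := by
      have := hvx s
      rwa [d1, mul_zero, add_zero] at this
    have c2 : dy c (v s).1 (v s).2 = 0 := by
      have := hvy s
      rwa [d2, mul_zero, add_zero] at this
    exact hno ⟨_, _, hne s, c1, c2, d1, d2⟩
  -- the quartic form on the line y = 1
  let Q : Polynomial ℂ := Polynomial.C (3 * (c 0 * d 1 - d 0 * c 1)) * Polynomial.X ^ 4 +
    Polynomial.C (6 * (c 0 * d 2 - d 0 * c 2)) * Polynomial.X ^ 3 +
    Polynomial.C (9 * (c 0 * d 3 - d 0 * c 3) + 3 * (c 1 * d 2 - d 1 * c 2)) * Polynomial.X ^ 2 +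
    Polynomial.C (6 * (c 1 * d 3 - d 1 * c 3)) * Polynomial.X +
    Polynomial.C (3 * (c 2 * d 3 - d 2 * c 3))
  have hQ : Q = 0 := by
    refine Polynomial.eq_zero_of_infinite_isRoot Q ?_
    have hfin : {t : ℂ | (v t).2 = 0}.Subsingleton := by
      intro s hs t ht
      by_contra hst
      refine hinj s t hst ?_
      rw [show (v t).2 = 0 from ht, show (v s).2 = 0 from hs, mul_zero, mul_zero]
    have hinf : ({t : ℂ | (v t).2 = 0}ᶜ : Set ℂ).Infinite :=
      hfin.finite.infinite_compl
    refine (hinf.image (f := fun t => (v t).1 / (v t).2) ?_).mono ?_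
    · intro s hs t ht hst
      by_contra hne2
      refine hinj s t hne2 ?_
      have hs' : (v s).2 ≠ 0 := hs
      have ht' : (v t).2 ≠ 0 := ht
      have hst2 : (v s).1 / (v s).2 = (v t).1 / (v t).2 := hst
      rw [div_eq_div_iff hs' ht'] at hst2
      exact hst2
    · rintro _ ⟨t, ht, rfl⟩
      have ht' : (v t).2 ≠ 0 := ht
      have hx := hvx t
      have hy := hvy t
      have hw : dx c (v t).1 (v t).2 * dy d (v t).1 (v t).2 -
          dy c (v t).1 (v t).2 * dx d (v t).1 (v t).2 = 0 := by
        linear_combination dy d (v t).1 (v t).2 * hx - dx d (v t).1 (v t).2 * hy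
      show Polynomial.eval ((v t).1 / (v t).2) Q = 0
      have he : (v t).2 ^ 4 * Polynomial.eval ((v t).1 / (v t).2) Q = 0 := by
        rw [← hw]
        simp only [Q, Polynomial.eval_add, Polynomial.eval_mul, Polynomial.eval_C,
          Polynomial.eval_pow, Polynomial.eval_X, dx, dy]
        field_simp
        ring
      exact (mul_eq_zero.1 he).resolve_left (pow_ne_zero 4 ht')
  have hc4 : 3 * (c 0 * d 1 - d 0 * c 1) = 0 := by
    have := congrArg (fun P => Polynomial.coeff P 4) hQ
    simp only [Q, Polynomial.coeff_add, Polynomial.coeff_C_mul, Polynomial.coeff_X_pow,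
      Polynomial.coeff_X, Polynomial.coeff_C, Polynomial.coeff_zero] at this
    norm_num at this
    linear_combination 3 * this
  have hc3 : 6 * (c 0 * d 2 - d 0 * c 2) = 0 := by
    have := congrArg (fun P => Polynomial.coeff P 3) hQ
    simp only [Q, Polynomial.coeff_add, Polynomial.coeff_C_mul, Polynomial.coeff_X_pow,
      Polynomial.coeff_X, Polynomial.coeff_C, Polynomial.coeff_zero] at this
    norm_num at this
    linear_combination 6 * this
  have hc2 : 9 * (c 0 * d 3 - d 0 * c 3) + 3 * (c 1 * d 2 - d 1 * c 2) = 0 := by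
    have := congrArg (fun P => Polynomial.coeff P 2) hQ
    simp only [Q, Polynomial.coeff_add, Polynomial.coeff_C_mul, Polynomial.coeff_X_pow,
      Polynomial.coeff_X, Polynomial.coeff_C, Polynomial.coeff_zero] at this
    norm_num at this
    linear_combination this
  have hc1 : 6 * (c 1 * d 3 - d 1 * c 3) = 0 := by
    have := congrArg (fun P => Polynomial.coeff P 1) hQ
    simp only [Q, Polynomial.coeff_add, Polynomial.coeff_C_mul, Polynomial.coeff_X_pow,
      Polynomial.coeff_X, Polynomial.coeff_C, Polynomial.coeff_zero] at this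
    norm_num at this
    linear_combination 6 * this
  have hc0 : 3 * (c 2 * d 3 - d 2 * c 3) = 0 := by
    have := congrArg (fun P => Polynomial.coeff P 0) hQ
    simp only [Q, Polynomial.coeff_add, Polynomial.coeff_C_mul, Polynomial.coeff_X_pow,
      Polynomial.coeff_X, Polynomial.coeff_C, Polynomial.coeff_zero] at this
    norm_num at this
    linear_combination 3 * this
  have m01 : c 0 * d 1 - d 0 * c 1 = 0 := (mul_eq_zero.1 hc4).resolve_left (by norm_num)
  have m02 : c 0 * d 2 - d 0 * c 2 = 0 := (mul_eq_zero.1 hc3).resolve_left (by norm_num)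
  have m13 : c 1 * d 3 - d 1 * c 3 = 0 := (mul_eq_zero.1 hc1).resolve_left (by norm_num)
  have m23 : c 2 * d 3 - d 2 * c 3 = 0 := (mul_eq_zero.1 hc0).resolve_left (by norm_num)
  have m03 : c 0 * d 3 - d 0 * c 3 = 0 := by
    have h1 : (c 0 * d 3 - d 0 * c 3) * (c 1 * d 2 - d 1 * c 2) = 0 := by
      linear_combination (c 0 * d 2 - d 0 * c 2) * m13 - (c 0 * d 1 - d 0 * c 1) * m23
    have h2 : (c 0 * d 3 - d 0 * c 3) ^ 2 = 0 := by
      linear_combination (1 / 9) * (c 0 * d 3 - d 0 * c 3) * hc2 - (1 / 3) * h1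
    exact pow_eq_zero_iff two_ne_zero |>.1 h2
  have m12 : c 1 * d 2 - d 1 * c 2 = 0 := by
    linear_combination (1 / 3) * hc2 - 3 * m03
  by_cases hd : d = 0
  · obtain ⟨x, y, hxy, h1, h2⟩ := (dis_eq_zero_iff _).1 (h 0)
    rw [zero_smul, add_zero] at h1 h2
    refine hno ⟨x, y, hxy, h1, h2, ?_, ?_⟩
    · rw [hd]; simp [dx]
    · rw [hd]; simp [dy]
  · obtain ⟨i, hi⟩ : ∃ i, d i ≠ 0 := by
      by_contra hcon
      push Not at hcon
      exact hd (funext hcon)
    have hall : ∀ j, c j * d i = d j * c i := by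
      intro j
      fin_cases i <;> fin_cases j <;> simp only [Fin.zero_eta, Fin.mk_one, Fin.reduceFinMk] <;>
        first
        | ring1
        | linear_combination m01
        | linear_combination m02
        | linear_combination m03
        | linear_combination m12
        | linear_combination m13
        | linear_combination m23
        | linear_combination -m01
        | linear_combination -m02
        | linear_combination -m03
        | linear_combination -m12
        | linear_combination -m13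
        | linear_combination -m23
    have hcd : ∀ j, c j = (c i / d i) * d j := by
      intro j
      field_simp
      linear_combination hall j
    obtain ⟨x, y, hxy, h1, h2⟩ := (dis_eq_zero_iff _).1 (h (1 - c i / d i))
    have h1' : dx d x y = 0 := by
      rw [← h1]
      simp only [dx, Pi.add_apply, Pi.smul_apply, smul_eq_mul]
      rw [hcd 0, hcd 1, hcd 2]
      ring
    have h2' : dy d x y = 0 := by
      rw [← h2]
      simp only [dy, Pi.add_apply, Pi.smul_apply, smul_eq_mul]
      rw [hcd 1, hcd 2, hcd 3]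
      ring
    refine hno ⟨x, y, hxy, ?_, ?_, h1', h2'⟩
    · have : dx c x y = (c i / d i) * dx d x y := by
        simp only [dx]
        rw [hcd 0, hcd 1, hcd 2]
        ring
      rw [this, h1', mul_zero]
    · have : dy c x y = (c i / d i) * dy d x y := by
        simp only [dy]
        rw [hcd 1, hcd 2, hcd 3]
        ring
      rw [this, h2', mul_zero]

end QG

end MPb07157
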