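import Pool.Agent.Lib.MP_b07157_agQG.Defs2
import Pool.Agent.Lib.MP_b07157_agU.Bridge

/-!
# A double plane and a quadric
-/

noncomputable section

namespace MPb07157

open MvPolynomial

namespace QG

namespace S1

private theorem eq_C_of_pderiv {p : MvPolynomial (Fin 3) ℂ} (h : ∀ i, pderiv i p = 0) :
    p = C (coeff 0 p) := by
  classical
  ext m
  rw [coeff_C]
  split_ifs with hm
  · rw [← hm]
  · obtain ⟨i, hi⟩ : ∃ i, m i ≠ 0 := by
      by_contra hcon
      push Not at hcon
      exact hm (Finsupp.ext fun i => (hcon i).symm)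
    have h1 : coeff (m - Finsupp.single i 1) (pderiv i p) = 0 := by rw [h i, coeff_zero]
    have h2 : m - Finsupp.single i 1 + Finsupp.single i 1 = m :=
      tsub_add_cancel_of_le (by rw [Finsupp.single_le_iff]; omega)
    rw [coeff_pderiv, h2] at h1
    refine (mul_eq_zero.mp h1).resolve_right ?_
    exact Nat.cast_add_one_ne_zero _

private theorem td_pderiv {f : MvPolynomial (Fin 3) ℂ} {k : ℕ} (h : f.totalDegree ≤ k + 1)
    (i : Fin 3) : (pderiv i f).totalDegree ≤ k := by
  classical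
  unfold totalDegree
  refine Finset.sup_le fun m hm => ?_
  rw [mem_support_iff, coeff_pderiv] at hm
  have h1 : m + Finsupp.single i 1 ∈ f.support := mem_support_iff.2 (left_ne_zero_of_mul hm)
  have h2 := le_totalDegree h1
  rw [Finsupp.sum_add_index' (fun _ => rfl) (fun _ _ _ => rfl),
    Finsupp.sum_single_index rfl] at h2
  omega

private theorem zero0 {f : MvPolynomial (Fin 3) ℂ} {p : Fin 3 → ℂ} (h : f.totalDegree ≤ 0)
    (h0 : eval p f = 0) : f = 0 := by
  have h1 := totalDegree_eq_zero_iff_eq_C.1 (Nat.le_zero.1 h)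
  rw [h1, eval_C] at h0
  rw [h1, h0, C_0]

private theorem zero1 {f : MvPolynomial (Fin 3) ℂ} {p : Fin 3 → ℂ} (h : f.totalDegree ≤ 1)
    (h0 : eval p f = 0) (h1 : ∀ i, eval p (pderiv i f) = 0) : f = 0 := by
  have h2 := eq_C_of_pderiv fun i => zero0 (td_pderiv h i) (h1 i)
  rw [h2, eval_C] at h0
  rw [h2, h0, C_0]

private theorem zero2 {f : MvPolynomial (Fin 3) ℂ} {p : Fin 3 → ℂ} (h : f.totalDegree ≤ 2)
    (h0 : eval p f = 0) (h1 : ∀ i, eval p (pderiv i f) = 0)
    (h2 : ∀ i j, eval p (pderiv i (pderiv j f)) = 0) : f = 0 := by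
  have h3 := eq_C_of_pderiv fun i => zero1 (td_pderiv h i) (h1 i) fun j => h2 j i
  rw [h3, eval_C] at h0
  rw [h3, h0, C_0]

/-- The derivative of the first coordinate. -/
private def dl (i : Fin 3) : MvPolynomial (Fin 3) ℂ := C (if i = 0 then 1 else 0)

private theorem pderiv_X0 (i : Fin 3) : pderiv i (X 0 : MvPolynomial (Fin 3) ℂ) = dl i := by
  unfold dl
  by_cases h : i = 0
  · subst h; simp
  · rw [if_neg h, pderiv_X_of_ne (fun h' => h h'.symm), C_0]

private theorem pderiv_dl (i j : Fin 3) : pderiv i (dl j) = 0 := by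
  unfold dl; exact pderiv_C

private theorem d1 (h : MvPolynomial (Fin 3) ℂ) (i : Fin 3) :
    pderiv i (X 0 ^ 2 * h) = 2 * X 0 * dl i * h + X 0 ^ 2 * pderiv i h := by
  rw [pow_two, pderiv_mul, pderiv_mul, pderiv_X0]
  ring

private theorem d2 (h : MvPolynomial (Fin 3) ℂ) (i j : Fin 3) :
    pderiv i (pderiv j (X 0 ^ 2 * h)) = 2 * dl i * dl j * h + 2 * X 0 * dl j * pderiv i h +
      2 * X 0 * dl i * pderiv j h + X 0 ^ 2 * pderiv i (pderiv j h) := by
  have h2 : (2 : MvPolynomial (Fin 3) ℂ) = C 2 := by rw [map_ofNat]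
  rw [d1, map_add, d1, pderiv_mul, pderiv_mul, pderiv_mul, pderiv_X0, pderiv_dl, h2, pderiv_C]
  ring

end S1

/-- **The triple points of `x_0² h`**, `h ≠ 0` of degree at most two (a point with `x_0 ≠ 0` has the
multiplicity of `h`, at most two). -/
theorem mem_Tr_sq {h : MvPolynomial (Fin 3) ℂ} (hh : h ≠ 0) (hd : h.totalDegree ≤ 2)
    (p : Fin 3 → ℂ) : p ∈ Tr (X 0 ^ 2 * h) ↔ p 0 = 0 ∧ eval p h = 0 := by
  constructor
  · rintro ⟨h0, h1, h2⟩
    have hp : p 0 = 0 := by
      by_contra hp
      have e0 : eval p h = 0 := by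
        rw [map_mul, map_pow, eval_X] at h0
        exact (mul_eq_zero.1 h0).resolve_left (pow_ne_zero _ hp)
      have e1 : ∀ i, eval p (pderiv i h) = 0 := by
        intro i
        have := h1 i
        rw [S1.d1] at this
        simp only [map_add, map_mul, map_pow, eval_X, e0, mul_zero, zero_add] at this
        exact (mul_eq_zero.1 this).resolve_left (pow_ne_zero _ hp)
      have e2 : ∀ i j, eval p (pderiv i (pderiv j h)) = 0 := by
        intro i j
        have := h2 i j
        rw [S1.d2] at this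
        simp only [map_add, map_mul, map_pow, eval_X, e0, e1, mul_zero, zero_add] at this
        exact (mul_eq_zero.1 this).resolve_left (pow_ne_zero _ hp)
      exact hh (S1.zero2 hd e0 e1 e2)
    refine ⟨hp, ?_⟩
    have := h2 0 0
    rw [S1.d2] at this
    simp only [map_add, map_mul, map_pow, eval_X, hp, S1.dl, eval_C, if_true] at this
    simpa using this
  · rintro ⟨h0, h1⟩
    refine ⟨?_, fun i => ?_, fun i j => ?_⟩
    · rw [map_mul, h1, mul_zero]
    · rw [S1.d1]
      simp only [map_add, map_mul, map_pow, eval_X, h0, h1]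
      ring
    · rw [S1.d2]
      simp only [map_add, map_mul, map_pow, eval_X, h0, h1]
      ring

/-- Where `h` restricted to the plane is smooth, `x_0² h` is `X_0² X_1` in `u = (x_0, h)`:
`TrivAlong`, and `SmcLoc (X_0² X_1)` in two variables (`SU.smcLoc_corank`, agU/Bridge). -/
theorem goodT_smooth (h : MvPolynomial (Fin 3) ℂ) :
    CC.GoodT (X 0 ^ 2 * h) {p | p 0 = 0 ∧ eval p h = 0 ∧
      (eval p (pderiv 1 h) ≠ 0 ∨ eval p (pderiv 2 h) ≠ 0)} := by
  refine Or.inr ⟨2, X 0 ^ 2 * X 1, fun hf h0 => SU.smcLoc_corank hf h0 (Nat.le_add_left 2 _), ?_⟩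
  refine ⟨![X 0, h], 1, 1, 1, fun x _ => ?_, ?_⟩
  · simp
  · rintro p ⟨hp0, hp1, hp2⟩
    refine ⟨by simp, by simp, by simp, fun j => ?_, ?_⟩
    · fin_cases j
      · simpa using hp0
      · simpa using hp1
    · rw [Fintype.linearIndependent_iff]
      intro c hc
      have e : ∀ l, c 0 * eval p (S1.dl l) + c 1 * eval p (pderiv l h) = 0 := by
        intro l
        have := congrFun hc l
        rw [Finset.sum_apply, Fin.sum_univ_two] at this
        simp only [Pi.smul_apply, smul_eq_mul, Matrix.cons_val_zero, Matrix.cons_val_one,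
          S1.pderiv_X0, Pi.zero_apply] at this
        exact this
      have e1 := e 1
      have e2 := e 2
      have e0 := e 0
      simp only [S1.dl, eval_C, if_neg (by decide : ¬ (1 : Fin 3) = 0), mul_zero, zero_add,
        mul_eq_zero] at e1
      simp only [S1.dl, eval_C, if_neg (by decide : ¬ (2 : Fin 3) = 0), mul_zero, zero_add,
        mul_eq_zero] at e2
      simp only [S1.dl, eval_C, if_true, mul_one] at e0
      have hc1 : c 1 = 0 := by
        rcases hp2 with h' | h'
        · exact e1.resolve_right h'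
        · exact e2.resolve_right h'
      rw [hc1, zero_mul, add_zero] at e0
      intro i
      fin_cases i
      · exact e0
      · exact hc1

theorem isConstr_smooth (h : MvPolynomial (Fin 3) ℂ) :
    IsConstr {p : Fin 3 → ℂ | p 0 = 0 ∧ eval p h = 0 ∧
      (eval p (pderiv 1 h) ≠ 0 ∨ eval p (pderiv 2 h) ≠ 0)} := by
  have h0 : IsConstr {p : Fin 3 → ℂ | p 0 = 0} := by
    simpa using isConstr_eq_zero (X 0 : MvPolynomial (Fin 3) ℂ)
  exact isConstr_setOf_and h0 (isConstr_setOf_and (isConstr_eq_zero h)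
    (isConstr_setOf_or (isConstr_ne_zero _) (isConstr_ne_zero _)))

/-- **A triple plane**: `h = x_0 L`, `L ≠ 0` of degree at most one. The points with `x_0 = L = 0` have
multiplicity at least four, so `NoQ` excludes them; on `x_0 = 0`, `L ≠ 0`: `TrivAlong` with `u = x_0`,
`X_0³` in one variable and the unit `L`. -/
theorem cov_cube {L : MvPolynomial (Fin 3) ℂ} (hL : L ≠ 0) (hd : L.totalDegree ≤ 1)
    (hq : NoQ (X 0 ^ 2 * (X 0 * L))) :
    Cov (X 0 ^ 2 * (X 0 * L)) (Tr (X 0 ^ 2 * (X 0 * L))) := by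
  have hne : (X 0 * L : MvPolynomial (Fin 3) ℂ) ≠ 0 := mul_ne_zero (X_ne_zero 0) hL
  have hdeg : (X 0 * L : MvPolynomial (Fin 3) ℂ).totalDegree ≤ 2 := by
    refine (totalDegree_mul _ _).trans ?_
    rw [totalDegree_X]
    omega
  have hW : IsConstr {p : Fin 3 → ℂ | p 0 = 0 ∧ eval p L ≠ 0} := by
    have h0 : IsConstr {p : Fin 3 → ℂ | p 0 = 0} := by
      simpa using isConstr_eq_zero (X 0 : MvPolynomial (Fin 3) ℂ)
    exact isConstr_setOf_and h0 (isConstr_ne_zero L)
  refine (Cov.one hW ?_).mono ?_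
  · refine Or.inr ⟨1, X 0 ^ 3, fun hf h0 => SU.smcLoc_one hf h0, ?_⟩
    refine ⟨fun _ => X 0, 1, L, 1, fun x _ => ?_, ?_⟩
    · simp only [map_one, one_mul, map_mul, map_pow, eval_X, div_one]
      ring
    · rintro p ⟨hp0, hp1⟩
      refine ⟨by simp, hp1, by simp, fun j => by simpa using hp0, ?_⟩
      rw [Fintype.linearIndependent_iff]
      intro c hc i
      have := congrFun hc 0
      rw [Finset.sum_apply, Fin.sum_univ_one] at this
      simp only [Pi.smul_apply, smul_eq_mul, pderiv_X_self, map_one, mul_one,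
        Pi.zero_apply] at this
      rw [Subsingleton.elim i 0, this]
  · intro p hp
    obtain ⟨h0, -⟩ := (mem_Tr_sq hne hdeg p).1 hp
    refine ⟨h0, fun hL0 => ?_⟩
    obtain ⟨i, j, k, hk⟩ := hq p hp
    apply hk
    rw [S1.d2]
    have h2 : (2 : MvPolynomial (Fin 3) ℂ) = C 2 := by rw [map_ofNat]
    simp only [h2, map_add, pderiv_mul, pderiv_pow, S1.pderiv_X0, S1.pderiv_dl, pderiv_C, map_mul,
      map_pow, eval_X, h0, hL0, map_zero, eval_C]
    ring_nf

end QG

end MPb07157
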