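import Pool.Agent.Lib.MP_b07157_agQG.Defs2

/-!
# The singular points of a plane conic
-/

noncomputable section

namespace MPb07157

open MvPolynomial

namespace QG

/-- The polynomial of degree at most two in the last two variables. -/
def S2k (k : Fin 6 → ℂ) : MvPolynomial (Fin 3) ℂ :=
  C (k 0) + C (k 1) * X 1 + C (k 2) * X 2 + C (k 3) * X 1 ^ 2 +
        C (k 4) * (X 1 * X 2) + C (k 5) * X 2 ^ 2

theorem S2k_add (k k' : Fin 6 → ℂ) : S2k k + S2k k' = S2k (k + k') := by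
  unfold S2k
  simp only [Pi.add_apply, C_add]
  ring

theorem S2_monomial {v : Fin 3 →₀ ℕ} (hv : v 0 + v 1 + v 2 ≤ 2) (c : ℂ) :
    ∃ (L : MvPolynomial (Fin 3) ℂ) (k : Fin 6 → ℂ), L.totalDegree ≤ 1 ∧
      monomial v c = X 0 * L + S2k k := by
  have hm : monomial v c = C c * (X 0 ^ v 0 * X 1 ^ v 1 * X 2 ^ v 2) := by
    rw [MvPolynomial.monomial_eq, Finsupp.prod_fintype _ _ (fun i => pow_zero _),
      Fin.prod_univ_three]
  by_cases h0 : v 0 = 0
  · have h1 : v 1 ≤ 2 := by omega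
    have h2 : v 2 ≤ 2 := by omega
    refine ⟨0, ?_⟩
    rw [hm, h0, pow_zero, one_mul]
    generalize v 1 = a at *
    generalize v 2 = b at *
    have hab : (a = 0 ∧ b = 0) ∨ (a = 1 ∧ b = 0) ∨ (a = 0 ∧ b = 1) ∨ (a = 2 ∧ b = 0) ∨
        (a = 1 ∧ b = 1) ∨ (a = 0 ∧ b = 2) := by omega
    rcases hab with ⟨rfl, rfl⟩ | ⟨rfl, rfl⟩ | ⟨rfl, rfl⟩ | ⟨rfl, rfl⟩ | ⟨rfl, rfl⟩ | ⟨rfl, rfl⟩
    · exact ⟨![c, 0, 0, 0, 0, 0], by simp, by simp [S2k]⟩
    · exact ⟨![0, c, 0, 0, 0, 0], by simp, by simp [S2k]⟩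
    · exact ⟨![0, 0, c, 0, 0, 0], by simp, by simp [S2k]⟩
    · exact ⟨![0, 0, 0, c, 0, 0], by simp, by simp [S2k]⟩
    · exact ⟨![0, 0, 0, 0, c, 0], by simp, by simp [S2k]⟩
    · exact ⟨![0, 0, 0, 0, 0, c], by simp, by simp [S2k]⟩
  · refine ⟨C c * (X 0 ^ (v 0 - 1) * X 1 ^ v 1 * X 2 ^ v 2), 0, ?_, ?_⟩
    · refine (totalDegree_mul _ _).trans ?_
      rw [totalDegree_C, zero_add]
      refine (totalDegree_mul _ _).trans ?_
      have e1 := totalDegree_mul (X 0 ^ (v 0 - 1)) (X 1 ^ v 1 : MvPolynomial (Fin 3) ℂ)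
      have e2 := totalDegree_X_pow (R := ℂ) (0 : Fin 3) (v 0 - 1)
      have e3 := totalDegree_X_pow (R := ℂ) (1 : Fin 3) (v 1)
      have e4 := totalDegree_X_pow (R := ℂ) (2 : Fin 3) (v 2)
      omega
    · have h1 : (X 0 : MvPolynomial (Fin 3) ℂ) ^ v 0 = X 0 * X 0 ^ (v 0 - 1) := by
        rw [← pow_succ']
        congr 1
        omega
      rw [hm, h1]
      simp [S2k]
      ring

/-- `h = x_0 L + k(x_1, x_2)`. -/
theorem exists_split {h : MvPolynomial (Fin 3) ℂ} (hd : h.totalDegree ≤ 2) :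
    ∃ (L : MvPolynomial (Fin 3) ℂ) (k : Fin 6 → ℂ), L.totalDegree ≤ 1 ∧
      h = X 0 * L + (C (k 0) + C (k 1) * X 1 + C (k 2) * X 2 + C (k 3) * X 1 ^ 2 +
        C (k 4) * (X 1 * X 2) + C (k 5) * X 2 ^ 2) := by
  show ∃ (L : MvPolynomial (Fin 3) ℂ) (k : Fin 6 → ℂ), L.totalDegree ≤ 1 ∧ h = X 0 * L + S2k k
  have h1 : h = ∑ v ∈ h.support, monomial v (coeff v h) := (support_sum_monomial_coeff h).symm
  rw [h1]
  refine Finset.sum_induction _ (fun g => ∃ (L : MvPolynomial (Fin 3) ℂ) (k : Fin 6 → ℂ),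
    L.totalDegree ≤ 1 ∧ g = X 0 * L + S2k k) ?_ ⟨0, 0, by simp, by simp [S2k]⟩ ?_
  · rintro g g' ⟨L, k, hL, rfl⟩ ⟨L', k', hL', rfl⟩
    refine ⟨L + L', k + k', (totalDegree_add _ _).trans (max_le hL hL'), ?_⟩
    rw [← S2k_add]
    ring
  · intro v hv
    refine S2_monomial ?_ _
    have h2 := le_totalDegree hv
    rw [Finsupp.sum_fintype _ _ (fun _ => rfl), Fin.sum_univ_three] at h2
    omega

/-- **The singular points of the restriction** `k` of `h` to the plane `x_0 = 0`, if `k ≠ 0`: at most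
one point or a line. Proof: the gradient of `k` consists of two affine functions. If `Rs h` contains
two points then `k` and its gradient vanish on the line through them (degree at most two, two double
zeros); if there were another point, the gradient and `k` would be zero. -/
theorem Rs_cases {h : MvPolynomial (Fin 3) ℂ} (hd : h.totalDegree ≤ 2) (hk : ¬ X 0 ∣ h) :
    (∀ x ∈ Rs h, ∀ y ∈ Rs h, x = y) ∨
      ∃ p₀ v : Fin 3 → ℂ, v ≠ 0 ∧ (∀ s : ℂ, p₀ + s • v ∈ Rs h) ∧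
        ∀ x ∈ Rs h, ∃ s : ℂ, x = p₀ + s • v := by
  obtain ⟨L, k, hL, hh⟩ := exists_split hd
  have hmem : ∀ p : Fin 3 → ℂ, p ∈ Rs h ↔ p 0 = 0 ∧
      k 0 + k 1 * p 1 + k 2 * p 2 + k 3 * p 1 ^ 2 + k 4 * (p 1 * p 2) + k 5 * p 2 ^ 2 = 0 ∧
      k 1 + 2 * k 3 * p 1 + k 4 * p 2 = 0 ∧ k 2 + k 4 * p 1 + 2 * k 5 * p 2 = 0 := by
    intro p
    show (p 0 = 0 ∧ eval p h = 0 ∧ eval p (pderiv 1 h) = 0 ∧ eval p (pderiv 2 h) = 0) ↔ _
    have hX : ∀ i j : Fin 3, pderiv i (X j : MvPolynomial (Fin 3) ℂ) = if i = j then 1 else 0 := by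
      intro i j
      rw [pderiv_X]
      by_cases hij : j = i
      · subst hij
        simp
      · rw [Pi.single_eq_of_ne hij, if_neg (Ne.symm hij)]
    refine and_congr_right fun h0 => ?_
    have e1 : eval p h = k 0 + k 1 * p 1 + k 2 * p 2 + k 3 * p 1 ^ 2 + k 4 * (p 1 * p 2) +
        k 5 * p 2 ^ 2 := by
      rw [hh]
      simp only [map_add, map_mul, map_pow, eval_X, eval_C, h0]
      ring
    have e2 : eval p (pderiv 1 h) = k 1 + 2 * k 3 * p 1 + k 4 * p 2 := by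
      rw [hh]
      simp only [map_add, Derivation.leibniz, Derivation.leibniz_pow, pderiv_C, hX, smul_eq_mul,
        nsmul_eq_mul, map_mul, map_pow, eval_X, eval_C, h0, Fin.reduceEq, if_true, if_false,
        map_zero, map_one, map_natCast]
      push_cast
      ring
    have e3 : eval p (pderiv 2 h) = k 2 + k 4 * p 1 + 2 * k 5 * p 2 := by
      rw [hh]
      simp only [map_add, Derivation.leibniz, Derivation.leibniz_pow, pderiv_C, hX, smul_eq_mul,
        nsmul_eq_mul, map_mul, map_pow, eval_X, eval_C, h0, Fin.reduceEq, if_true, if_false,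
        map_zero, map_one, map_natCast]
      push_cast
      ring
    rw [e1, e2, e3]
  by_cases hall : ∀ x ∈ Rs h, ∀ y ∈ Rs h, x = y
  · exact Or.inl hall
  right
  push Not at hall
  obtain ⟨x, hx, y, hy, hxy⟩ := hall
  obtain ⟨x0, x1, x2, x3⟩ := (hmem x).1 hx
  obtain ⟨y0, y1, y2, y3⟩ := (hmem y).1 hy
  obtain ⟨a, ha⟩ : ∃ a, a = y 1 - x 1 := ⟨_, rfl⟩
  obtain ⟨b, hb⟩ : ∃ b, b = y 2 - x 2 := ⟨_, rfl⟩
  have hy1 : y 1 = x 1 + a := by rw [ha]; ring
  have hy2 : y 2 = x 2 + b := by rw [hb]; ring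
  rw [hy1, hy2] at y1 y2 y3
  have l1 : 2 * k 3 * a + k 4 * b = 0 := by linear_combination y2 - x2
  have l2 : k 4 * a + 2 * k 5 * b = 0 := by linear_combination y3 - x3
  have hab : a ≠ 0 ∨ b ≠ 0 := by
    by_contra hcon
    push Not at hcon
    apply hxy
    funext i
    fin_cases i
    · show x 0 = y 0
      rw [x0, y0]
    · show x 1 = y 1
      rw [hy1, hcon.1, add_zero]
    · show x 2 = y 2
      rw [hy2, hcon.2, add_zero]
  refine ⟨x, ![0, a, b], ?_, fun s => ?_, fun z hz => ?_⟩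
  · intro h0
    rcases hab with h1 | h1
    · exact h1 (congrFun h0 1)
    · exact h1 (congrFun h0 2)
  · rw [hmem]
    show x 0 + s * 0 = 0 ∧ k 0 + k 1 * (x 1 + s * a) + k 2 * (x 2 + s * b) +
      k 3 * (x 1 + s * a) ^ 2 + k 4 * ((x 1 + s * a) * (x 2 + s * b)) +
      k 5 * (x 2 + s * b) ^ 2 = 0 ∧ k 1 + 2 * k 3 * (x 1 + s * a) + k 4 * (x 2 + s * b) = 0 ∧
      k 2 + k 4 * (x 1 + s * a) + 2 * k 5 * (x 2 + s * b) = 0
    refine ⟨by rw [x0]; ring, ?_, ?_, ?_⟩
    · linear_combination x1 + s * a * x2 + s * b * x3 + (s ^ 2 / 2) * (a * l1 + b * l2)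
    · linear_combination x2 + s * l1
    · linear_combination x3 + s * l2
  · obtain ⟨z0, z1, z2, z3⟩ := (hmem z).1 hz
    obtain ⟨c, hc⟩ : ∃ c, c = z 1 - x 1 := ⟨_, rfl⟩
    obtain ⟨d, hd'⟩ : ∃ d, d = z 2 - x 2 := ⟨_, rfl⟩
    have hz1 : z 1 = x 1 + c := by rw [hc]; ring
    have hz2 : z 2 = x 2 + d := by rw [hd']; ring
    rw [hz1, hz2] at z1 z2 z3
    have m1 : 2 * k 3 * c + k 4 * d = 0 := by linear_combination z2 - x2
    have m2 : k 4 * c + 2 * k 5 * d = 0 := by linear_combination z3 - x3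
    have hdet : a * d - b * c = 0 := by
      by_contra hne
      have k3 : k 3 = 0 := by
        have h5 : k 3 * (a * d - b * c) = 0 := by linear_combination (d / 2) * l1 - (b / 2) * m1
        exact (mul_eq_zero.1 h5).resolve_right hne
      have k4 : k 4 = 0 := by
        have h5 : k 4 * (a * d - b * c) = 0 := by linear_combination a * m1 - c * l1
        exact (mul_eq_zero.1 h5).resolve_right hne
      have k5 : k 5 = 0 := by
        have h5 : k 5 * (a * d - b * c) = 0 := by linear_combination (a / 2) * m2 - (c / 2) * l2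
        exact (mul_eq_zero.1 h5).resolve_right hne
      have k1 : k 1 = 0 := by linear_combination x2 - 2 * x 1 * k3 - x 2 * k4
      have k2 : k 2 = 0 := by linear_combination x3 - x 1 * k4 - 2 * x 2 * k5
      have k0 : k 0 = 0 := by
        linear_combination x1 - x 1 * k1 - x 2 * k2 - x 1 ^ 2 * k3 - x 1 * x 2 * k4 -
          x 2 ^ 2 * k5
      apply hk
      rw [hh, k0, k1, k2, k3, k4, k5]
      simp
    obtain ⟨s, hs1, hs2⟩ : ∃ s, c = s * a ∧ d = s * b := by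
      by_cases h1 : a = 0
      · have hb0 : b ≠ 0 := hab.resolve_left (not_not.2 h1)
        rw [h1] at hdet ⊢
        refine ⟨d / b, ?_, (div_mul_cancel₀ _ hb0).symm⟩
        have h2 : b * c = 0 := by linear_combination -hdet
        rw [(mul_eq_zero.1 h2).resolve_left hb0, mul_zero]
      · refine ⟨c / a, (div_mul_cancel₀ _ h1).symm, ?_⟩
        field_simp
        linear_combination hdet
    refine ⟨s, ?_⟩
    funext i
    fin_cases i
    · show z 0 = x 0 + s * 0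
      rw [z0, x0]
      ring
    · show z 1 = x 1 + s * a
      rw [hz1, hs1]
    · show z 2 = x 2 + s * b
      rw [hz2, hs2]

end QG

end MPb07157
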