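import Pool.Agent.Lib.MP_b07157_agQG.S1
import Pool.Agent.Lib.MP_b07157_agQG.S2
import Pool.Agent.Lib.MP_b07157_agQG.G2
import Pool.Agent.Lib.MP_b07157_agQG.L4

/-!
# The covering for a double plane
-/

noncomputable section

namespace MPb07157

open MvPolynomial

namespace QG

theorem Rs_subset {h : MvPolynomial (Fin 3) ℂ} (hh : h ≠ 0) (hd : h.totalDegree ≤ 2) :
    Rs h ⊆ Tr (X 0 ^ 2 * h) := fun p hp => (mem_Tr_sq hh hd p).2 ⟨hp.1, hp.2.1⟩

/-- **The covering of a line of triple points.** -/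
theorem cov_line {g : MvPolynomial (Fin 3) ℂ} (hd : g.totalDegree ≤ 4) (hq : NoQ g) (hl : Loc g)
    {p₀ v : Fin 3 → ℂ} (hv : v ≠ 0) (h : ∀ s : ℂ, p₀ + s • v ∈ Tr g) :
    Cov g {x | ∃ s : ℂ, x = p₀ + s • v} := by
  obtain ⟨M, hM, hMv, c, d, q, rfl⟩ := exists_lf hd hv h
  refine (Cov.ac hM p₀ (cov_lf (noQ_ac hM hq) (loc_ac hM hl))).mono ?_
  rintro x ⟨s, rfl⟩
  rw [Set.mem_setOf_eq, add_sub_cancel_left, Matrix.mulVec_smul, hMv]
  constructor <;> simp

/-- **The covering for a double plane.** -/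
theorem cov_sq {h : MvPolynomial (Fin 3) ℂ} (hh : h ≠ 0) (hd : h.totalDegree ≤ 2)
    (hq : NoQ (X 0 ^ 2 * h)) (hl : Loc (X 0 ^ 2 * h)) :
    Cov (X 0 ^ 2 * h) (Tr (X 0 ^ 2 * h)) := by
  by_cases hk : X 0 ∣ h
  · obtain ⟨L, rfl⟩ := hk
    have hL : L ≠ 0 := right_ne_zero_of_mul hh
    refine cov_cube hL ?_ hq
    have h1 := totalDegree_mul_of_isDomain (X_ne_zero (R := ℂ) (0 : Fin 3)) hL
    rw [totalDegree_X] at h1
    omega
  · have hd4 : (X 0 ^ 2 * h : MvPolynomial (Fin 3) ℂ).totalDegree ≤ 4 := by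
      refine (totalDegree_mul _ _).trans ?_
      have := totalDegree_X_pow (R := ℂ) (0 : Fin 3) 2
      omega
    have hR : Cov (X 0 ^ 2 * h) (Rs h) := by
      rcases Rs_cases hd hk with h1 | ⟨p₀, v, hv, h1, h2⟩
      · exact Cov.finite hl (Set.Subsingleton.finite fun x hx y hy => h1 x hx y hy)
          (Rs_subset hh hd)
      · exact (cov_line hd4 hq hl hv fun s => Rs_subset hh hd (h1 s)).mono h2
    refine ((Cov.one (isConstr_smooth h) (goodT_smooth h)).union hR).mono ?_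
    intro p hp
    obtain ⟨hp0, hph⟩ := (mem_Tr_sq hh hd p).1 hp
    by_cases h1 : eval p (pderiv 1 h) = 0
    · by_cases h2 : eval p (pderiv 2 h) = 0
      · exact Or.inr ⟨hp0, hph, h1, h2⟩
      · exact Or.inl ⟨hp0, hph, Or.inr h2⟩
    · exact Or.inl ⟨hp0, hph, Or.inl h1⟩

/-- **The covering of the triple points of a quartic surface.** -/
theorem exists_cover {g : MvPolynomial (Fin 3) ℂ} (hg : g ≠ 0) (hd : g.totalDegree ≤ 4)
    (hq : NoQ g) (hl : Loc g) : Cov g (Tr g) := by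
  by_cases hfin : (Tr g).Finite
  · exact Cov.finite hl hfin subset_rfl
  · obtain ⟨M, p₀, hM, h | h⟩ := structure_Tr hd hfin
    · obtain ⟨c, d, q, rfl, h1⟩ := h
      exact (Cov.ac hM p₀ (cov_lf (noQ_ac hM hq) (loc_ac hM hl))).mono h1
    · obtain ⟨h', rfl, hd'⟩ := h
      have hh' : h' ≠ 0 := by
        rintro rfl
        apply hg
        rw [mul_zero, map_zero]
      refine (Cov.ac hM p₀ (cov_sq hh' hd' (noQ_ac hM hq) (loc_ac hM hl))).mono ?_
      intro x hx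
      exact (mem_Tr_ac hM p₀ _ x).1 hx

end QG

end MPb07157
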